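import Pool.Agent.D0H93.PC.Star

/-!
# Amplification: few algebraic solutions are enough
-/

set_option autoImplicit false
set_option linter.unusedSectionVars false
set_option linter.unusedVariables false

open Matrix Module

namespace Pool.Agent.D0H93.PC

open Pool.Agent.D0H93.MT Pool.Agent.W432.PC Pool.Agent.Y227.TP

/-- The condition on the `p`-curvatures of the problem: `B`, `C` are the images, under an embedding into
the complex numbers, of matrices `b`, `c` with entries in a ring `R` of algebraic numbers, finitely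
generated over the integers, and the `p`-curvature of `d/dt - b/t - c/(t-1)` vanishes at all but finitely
many closed points of `Spec R`, namely at those which do not contain a certain `g ≠ 0`. -/
def PZero {r : ℕ} (B C : Matrix (Fin r) (Fin r) ℂ) : Prop :=
  ∃ (R : Type) (_ : CommRing R) (_ : IsDomain R) (_ : CharZero R) (_ : Algebra.FiniteType ℤ R)
    (_ : Algebra.IsAlgebraic ℤ R) (φ : R →+* ℂ) (b c : Matrix (Fin r) (Fin r) R),
    Function.Injective φ ∧ B = b.map φ ∧ C = c.map φ ∧ CondII ![0, 1] ![b, c]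

/-- The number of linearly independent algebraic solutions of `f' = (B / t + C / (t - 1)) f`: the dimension
of the space of the vectors `u` of power series in `X = t - 2` which are solutions and are algebraic
over the ring of polynomials. -/
noncomputable def numAlg {r : ℕ} (B C : Matrix (Fin r) (Fin r) ℂ) : ℕ :=
  finrank ℂ (powSol (starM B C))

theorem PZero.symPow {r : ℕ} {B C : Matrix (Fin r) (Fin r) ℂ} (h : PZero B C) (n : ℕ) :
    PZero (symPow (n + 1) B) (symPow (n + 1) C) := by
  obtain ⟨R, _, _, _, _, _, φ, b, c, hφ, rfl, rfl, hbc⟩ := h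
  exact ⟨R, _, ‹_›, ‹_›, ‹_›, ‹_›, φ, PC.symPow (n + 1) b, PC.symPow (n + 1) c, hφ,
    (symPow_map φ _ _).symm, (symPow_map φ _ _).symm, condII_symPow hbc n⟩

theorem PZero.gap {r : ℕ} {B C : Matrix (Fin r) (Fin r) ℂ} (h : PZero B C) :
    numAlg B C = r ∨ ∀ n, numAlg (PC.symPow n B) (PC.symPow n C) ≤ (r - 1).multichoose n := by
  obtain ⟨R, _, _, _, _, _, φ, b, c, hφ, rfl, rfl, hbc⟩ := h
  exact gap_star hφ (few_of_condII hbc (by norm_num))

/-- Systems of rank at most one. -/
theorem PZero.rank_one {r : ℕ} (hr : r ≤ 1) {B C : Matrix (Fin r) (Fin r) ℂ} (h : PZero B C) :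
    numAlg B C = r := by
  obtain ⟨R, _, _, _, _, _, φ, b, c, hφ, rfl, rfl, hbc⟩ := h
  refine starSys_isAlg (LinSystem.IsProjAlg.isAlg ?_ ((starSys_isStar (b.map φ) (c.map φ)).det hφ
    (few_of_condII hbc (by norm_num))))
  have hsub : Subsingleton (Fin r) := by
    have : r = 0 ∨ r = 1 := by omega
    rcases this with h | h
    · subst h; infer_instance
    · subst h; infer_instance
  intro i j i' j'
  rw [Subsingleton.elim i' i, Subsingleton.elim j' j]
  by_cases h0 : (starSys (b.map φ) (c.map φ)).F i j = 0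
  · rw [h0, div_zero]
    exact isAlgebraic_zero
  · rw [div_self h0]
    exact isAlgebraic_one

theorem multichoose_step {r n : ℕ} (hr : 2 ≤ r) :
    (r - 1) * r.multichoose n = (n + r - 1) * (r - 1).multichoose n := by
  obtain ⟨s, rfl⟩ : ∃ s, r = s + 2 := ⟨r - 2, by omega⟩
  rw [Nat.multichoose_eq, Nat.multichoose_eq]
  have e1 : s + 2 + n - 1 = (s + n) + 1 := by omega
  have e2 : s + 2 - 1 = s + 1 := by omega
  have e3 : s + 2 - 1 + n - 1 = s + n := by omega
  have e4 : n + (s + 2) - 1 = s + n + 1 := by omega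
  rw [e1, e3, e2, e4]
  have h1 : (s + n + 1).choose n = (s + n + 1).choose (s + 1) := by
    rw [← Nat.choose_symm (by omega : n ≤ s + n + 1)]
    congr 1
    omega
  have h2 : (s + n).choose n = (s + n).choose s := by
    rw [← Nat.choose_symm (by omega : n ≤ s + n)]
    congr 1
    omega
  rw [h1, h2]
  have := Nat.add_one_mul_choose_eq (s + n) s
  rw [this]
  ring

/-- **Amplification.** -/
theorem amplification :
    (∀ (r : ℕ) (B C : Matrix (Fin r) (Fin r) ℂ), PZero B C → numAlg B C = r) ↔
    ∀ ε : ℝ, 0 < ε → ∃ R₀ : ℕ, ∀ (r : ℕ) (B C : Matrix (Fin r) (Fin r) ℂ), R₀ ≤ r → PZero B C →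
      (r : ℝ) ^ (1 - ε) ≤ numAlg B C := by
  constructor
  · intro h ε hε
    refine ⟨1, fun r B C hr hBC => ?_⟩
    rw [h r B C hBC]
    have h1 : (1 : ℝ) ≤ r := by exact_mod_cast hr
    calc (r : ℝ) ^ (1 - ε) ≤ (r : ℝ) ^ (1 : ℝ) :=
          Real.rpow_le_rpow_of_exponent_le h1 (by linarith)
      _ = r := Real.rpow_one _
  · intro h r B C hBC
    rcases Nat.lt_or_ge r 2 with hr | hr
    · exact hBC.rank_one (by omega)
    rcases hBC.gap with h1 | h1
    · exact h1
    exfalso
    have hr1 : (1 : ℝ) ≤ (r : ℝ) - 1 := by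
      have : (2 : ℝ) ≤ r := by exact_mod_cast hr
      linarith
    set ε : ℝ := 1 / (2 * ((r : ℝ) - 1)) with hε
    have hε0 : 0 < ε := by rw [hε]; positivity
    obtain ⟨R₀, hR₀⟩ := h ε hε0
    set n : ℕ := max R₀ (r ^ 2) with hn
    have hnR : R₀ ≤ n := le_max_left _ _
    have hnr : r ^ 2 ≤ n := le_max_right _ _
    have hn1 : 1 ≤ n := by nlinarith
    obtain ⟨m, hm⟩ : ∃ m, n = m + 1 := ⟨n - 1, by omega⟩
    have hP : PZero (PC.symPow n B) (PC.symPow n C) := by
      rw [hm]
      exact hBC.symPow m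
    -- the rank
    have hrank : n + 1 ≤ r.multichoose n := by
      rw [Nat.multichoose_eq]
      calc n + 1 = (n + 1).choose n := by rw [Nat.choose_succ_self_right]
        _ ≤ (r + n - 1).choose n := Nat.choose_le_choose n (by omega)
    have h2 := hR₀ (r.multichoose n) (PC.symPow n B) (PC.symPow n C) (by omega) hP
    have h3 : (numAlg (PC.symPow n B) (PC.symPow n C) : ℝ) ≤ ((r - 1).multichoose n : ℕ) := by
      exact_mod_cast h1 n
    have h4 := h2.trans h3
    set N : ℝ := ((r.multichoose n : ℕ) : ℝ) with hN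
    have hNpos : 0 < N := by
      rw [hN]
      exact_mod_cast (show 0 < r.multichoose n by omega)
    have hstep : ((r : ℝ) - 1) * N = ((n : ℝ) + r - 1) * (((r - 1).multichoose n : ℕ) : ℝ) := by
      have h5 := multichoose_step (n := n) hr
      have h6 := congrArg (fun z : ℕ => (z : ℝ)) h5
      push_cast [Nat.cast_sub (show 1 ≤ r by omega), Nat.cast_sub (show 1 ≤ n + r by omega)] at h6
      rw [hN]
      linarith
    -- `N ^ ε` is at most the square root of `n + r - 1`
    set T : ℝ := (n : ℝ) + r - 1 with hT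
    have hTpos : 0 < T := by
      have : (0 : ℝ) ≤ n := Nat.cast_nonneg n
      rw [hT]
      linarith
    have hNT : N ≤ T ^ ((r : ℝ) - 1) := by
      have h5 : r.multichoose n ≤ (n + r - 1) ^ (r - 1) := by
        rw [Nat.multichoose_eq]
        have h6 : (r + n - 1).choose n = (r + n - 1).choose (r - 1) := by
          rw [← Nat.choose_symm (by omega : n ≤ r + n - 1)]
          congr 1
          omega
        rw [h6, show r + n - 1 = n + r - 1 by omega]
        exact Nat.choose_le_pow _ _
      have h6 : N ≤ (((n + r - 1) ^ (r - 1) : ℕ) : ℝ) := by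
        rw [hN]
        exact_mod_cast h5
      refine h6.trans (le_of_eq ?_)
      rw [Nat.cast_pow, Nat.cast_sub (show 1 ≤ n + r by omega), Nat.cast_add, Nat.cast_one, ← hT,
        ← Real.rpow_natCast, Nat.cast_sub (show 1 ≤ r by omega), Nat.cast_one]
    have hNε : N ^ ε ≤ Real.sqrt T := by
      calc N ^ ε ≤ (T ^ ((r : ℝ) - 1)) ^ ε := Real.rpow_le_rpow hNpos.le hNT hε0.le
        _ = T ^ (((r : ℝ) - 1) * ε) := (Real.rpow_mul hTpos.le _ _).symm
        _ = T ^ ((1 : ℝ) / 2) := by
            congr 1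
            rw [hε]
            field_simp
        _ = Real.sqrt T := (Real.sqrt_eq_rpow T).symm
    have h5 : N ^ (1 - ε) * N ^ ε = N := by
      rw [← Real.rpow_add hNpos]
      simp
    have hsq : Real.sqrt T * Real.sqrt T = T := Real.mul_self_sqrt hTpos.le
    have hsqpos : 0 < Real.sqrt T := Real.sqrt_pos.2 hTpos
    -- `T * d ≤ (r - 1) * N ≤ (r - 1) * d * sqrt T`
    set d : ℝ := (((r - 1).multichoose n : ℕ) : ℝ) with hd
    have h6 : N ≤ d * Real.sqrt T := by
      calc N = N ^ (1 - ε) * N ^ ε := h5.symm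
        _ ≤ d * Real.sqrt T := mul_le_mul h4 hNε (Real.rpow_nonneg hNpos.le _)
            (by rw [hd]; exact Nat.cast_nonneg _)
    have hdpos : 0 < d := by
      by_contra hcon
      have hd0 : d ≤ 0 := not_lt.1 hcon
      have : N ≤ 0 := h6.trans (mul_nonpos_of_nonpos_of_nonneg hd0 hsqpos.le)
      linarith
    have h7 : T * d ≤ ((r : ℝ) - 1) * (d * Real.sqrt T) := by
      rw [← hstep]
      exact mul_le_mul_of_nonneg_left h6 (by linarith)
    have h8 : Real.sqrt T ≤ (r : ℝ) - 1 := by
      have h9 : Real.sqrt T * (Real.sqrt T * d) ≤ ((r : ℝ) - 1) * (Real.sqrt T * d) := by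
        calc Real.sqrt T * (Real.sqrt T * d) = T * d := by rw [← mul_assoc, hsq]
          _ ≤ ((r : ℝ) - 1) * (d * Real.sqrt T) := h7
          _ = _ := by ring
      exact le_of_mul_le_mul_right h9 (mul_pos hsqpos hdpos)
    have h9 : T ≤ ((r : ℝ) - 1) * ((r : ℝ) - 1) := by
      rw [← hsq]
      exact mul_le_mul h8 h8 hsqpos.le (by linarith)
    have h10 : (r : ℝ) ^ 2 ≤ n := by exact_mod_cast hnr
    rw [hT] at h9
    nlinarith

end Pool.Agent.D0H93.PC
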