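import Pool.Agent.Y227.TP.Rat
import Pool.Agent.D0H93.MT.Basic

/-!
# The `p`-curvature of tensor powers
-/

set_option autoImplicit false
set_option linter.unusedSectionVars false
set_option linter.unusedVariables false

open Matrix

namespace Pool.Agent.D0H93.PC

open Pool.Agent.D0H93.MT

section abs

variable {R₀ S : Type} [CommRing R₀] [CommRing S] [Algebra R₀ S] (D : Derivation R₀ S S)
  {ι σ : Type} [Fintype ι] [DecidableEq ι] [Fintype σ] [DecidableEq σ]

/-- The operator `D - G`. -/
noncomputable def nab (G : Matrix ι ι S) : Module.End ℤ (ι → S) :=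
  AddMonoidHom.toIntLinearMap
    { toFun := fun u i => D (u i) - G.mulVec u i
      map_zero' := by ext i; simp
      map_add' := fun u v => by
        ext i
        simp only [Matrix.mulVec_add, Pi.add_apply, map_add]
        ring }

theorem nab_apply (G : Matrix ι ι S) (u : ι → S) (i : ι) :
    nab D G u i = D (u i) - G.mulVec u i := rfl

/-- The Kronecker sum. -/
def ksum (G : Matrix ι ι S) (H : Matrix σ σ S) : Matrix (ι × σ) (ι × σ) S :=
  Matrix.of fun p q => (if p.2 = q.2 then G p.1 q.1 else 0) + (if p.1 = q.1 then H p.2 q.2 else 0)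

/-- The product of vectors. -/
def prd (u : ι → S) (v : σ → S) : ι × σ → S := fun p => u p.1 * v p.2

theorem prd_apply (u : ι → S) (v : σ → S) (p : ι × σ) : prd u v p = u p.1 * v p.2 := rfl

/-- The product of vectors as a bilinear map. -/
noncomputable def prdL (S ι σ : Type) [CommRing S] : (ι → S) →ₗ[ℤ] (σ → S) →ₗ[ℤ] (ι × σ → S) :=
  LinearMap.mk₂ ℤ prd
    (fun u u' v => by ext p; simp [prd, add_mul])
    (fun c u v => by ext p; simp [prd, mul_assoc])
    (fun u v v' => by ext p; simp [prd, mul_add])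
    (fun c u v => by ext p; simp [prd, mul_left_comm])

theorem nab_prd (G : Matrix ι ι S) (H : Matrix σ σ S) (u : ι → S) (v : σ → S) :
    nab D (ksum G H) (prd u v) = prd (nab D G u) v + prd u (nab D H v) := by
  ext ⟨i, s⟩
  rw [Pi.add_apply, nab_apply, prd_apply, prd_apply, prd_apply, nab_apply, nab_apply,
    Derivation.leibniz, smul_eq_mul, smul_eq_mul]
  have h1 : (ksum G H).mulVec (prd u v) (i, s) = (G.mulVec u i) * v s + u i * (H.mulVec v s) := by
    rw [Matrix.mulVec, dotProduct, Fintype.sum_prod_type]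
    simp only [ksum, Matrix.of_apply, prd_apply, add_mul, Finset.sum_add_distrib, ite_mul, zero_mul]
    congr 1
    · simp only [Finset.sum_ite_eq, Finset.mem_univ, if_true]
      rw [Matrix.mulVec, dotProduct, Finset.sum_mul]
      exact Finset.sum_congr rfl fun j _ => by ring
    · rw [Finset.sum_comm]
      simp only [Finset.sum_ite_eq, Finset.mem_univ, if_true]
      rw [Matrix.mulVec, dotProduct, Finset.mul_sum]
      exact Finset.sum_congr rfl fun j _ => by ring
  rw [h1]
  ring

open TensorProduct in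
/-- The `p`-curvature of a tensor product of two systems with vanishing `p`-curvature vanishes. -/
theorem nab_pow_ksum {p : ℕ} (hp : p.Prime) (hS : (p : S) = 0) {G : Matrix ι ι S}
    {H : Matrix σ σ S} (hG : nab D G ^ p = 0) (hH : nab D H ^ p = 0) :
    nab D (ksum G H) ^ p = 0 := by
  let Φ : (ι → S) ⊗[ℤ] (σ → S) →ₗ[ℤ] (ι × σ → S) := TensorProduct.lift (prdL S ι σ)
  have hΦ : ∀ u v, Φ (u ⊗ₜ v) = prd u v := fun u v => TensorProduct.lift.tmul _ _
  let X1 : Module.End ℤ ((ι → S) ⊗[ℤ] (σ → S)) := LinearMap.rTensor (σ → S) (nab D G)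
  let X2 : Module.End ℤ ((ι → S) ⊗[ℤ] (σ → S)) := LinearMap.lTensor (ι → S) (nab D H)
  have hcomm : Commute X1 X2 := by
    refine TensorProduct.ext' fun u v => ?_
    rfl
  have h1 : ∀ z, nab D (ksum G H) (Φ z) = Φ ((X1 + X2) z) := by
    intro z
    induction z using TensorProduct.induction_on with
    | zero => simp
    | tmul u v =>
      rw [LinearMap.add_apply, map_add]
      exact nab_prd D G H u v
    | add a b ha hb => rw [map_add, map_add, ha, hb, map_add, map_add]
  have h2 : ∀ (m : ℕ) z, (nab D (ksum G H) ^ m) (Φ z) = Φ (((X1 + X2) ^ m) z) := by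
    intro m
    induction m with
    | zero => intro z; rfl
    | succ m ih =>
      intro z
      rw [pow_succ, pow_succ, Module.End.mul_apply, Module.End.mul_apply, h1, ih]
  have hX1 : X1 ^ p = 0 := by
    refine (LinearMap.rTensor_pow (nab D G) p).trans ?_
    rw [hG]
    exact LinearMap.rTensor_zero _
  have hX2 : X2 ^ p = 0 := by
    refine (LinearMap.lTensor_pow (nab D H) p).trans ?_
    rw [hH]
    exact LinearMap.lTensor_zero _
  have h3 : ∀ z, Φ (((X1 + X2) ^ p) z) = 0 := by
    intro z
    rw [hcomm.add_pow, LinearMap.sum_apply, map_sum]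
    refine Finset.sum_eq_zero fun m hm => ?_
    rw [Finset.mem_range] at hm
    rcases Nat.eq_zero_or_pos m with h4 | h4
    · rw [h4, pow_zero, one_mul, Nat.sub_zero, hX2, zero_mul, LinearMap.zero_apply, map_zero]
    · rcases Nat.lt_or_ge m p with h5 | h5
      · obtain ⟨q, hq⟩ := hp.dvd_choose_self (by omega : m ≠ 0) h5
        rw [hq]
        have h6 : ((p * q : ℕ) : Module.End ℤ ((ι → S) ⊗[ℤ] (σ → S))) =
            (p : ℤ) • (q : Module.End ℤ ((ι → S) ⊗[ℤ] (σ → S))) := by
          rw [Nat.cast_mul, zsmul_eq_mul, Int.cast_natCast]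
        rw [h6, mul_smul_comm, LinearMap.smul_apply, map_smul]
        ext i
        rw [Pi.smul_apply, zsmul_eq_mul, Int.cast_natCast, hS, zero_mul, Pi.zero_apply]
      · have h6 : m = p := by omega
        rw [h6, hX1, zero_mul, zero_mul, LinearMap.zero_apply, map_zero]
  refine LinearMap.ext fun y => ?_
  have h4 : y = Φ (∑ p : ι × σ, (Pi.single p.1 (y p)) ⊗ₜ (Pi.single p.2 1)) := by
    rw [map_sum]
    ext ⟨i, s⟩
    rw [Finset.sum_apply]
    simp only [hΦ, prd_apply]
    rw [Finset.sum_eq_single (i, s)]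
    · simp
    · rintro ⟨j, t⟩ _ hne
      by_cases h5 : j = i
      · by_cases h6 : t = s
        · exact absurd (by rw [h5, h6]) hne
        · rw [Pi.single_eq_of_ne (Ne.symm h6), mul_zero]
      · rw [Pi.single_eq_of_ne (Ne.symm h5), zero_mul]
    · intro h5
      exact absurd (Finset.mem_univ _) h5
  rw [h4, h2, h3, LinearMap.zero_apply]

/-- Reindexing. -/
theorem nab_pow_reindex (e : ι ≃ σ) {m : ℕ} {G : Matrix ι ι S} (hG : nab D G ^ m = 0) :
    nab D (G.submatrix e.symm e.symm) ^ m = 0 := by
  have h1 : ∀ u : ι → S, nab D (G.submatrix e.symm e.symm) (u ∘ e.symm) =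
      (nab D G u) ∘ e.symm := by
    intro u
    ext s
    rw [Function.comp_apply, nab_apply, nab_apply, Function.comp_apply]
    congr 1
    rw [Matrix.mulVec, Matrix.mulVec, dotProduct, dotProduct, ← Equiv.sum_comp e]
    refine Finset.sum_congr rfl fun j _ => ?_
    rw [Matrix.submatrix_apply, Function.comp_apply, Equiv.symm_apply_apply]
  have h2 : ∀ (m : ℕ) (u : ι → S), (nab D (G.submatrix e.symm e.symm) ^ m) (u ∘ e.symm) =
      ((nab D G ^ m) u) ∘ e.symm := by
    intro m
    induction m with
    | zero => intro u; rfl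
    | succ m ih =>
      intro u
      rw [pow_succ, pow_succ, Module.End.mul_apply, Module.End.mul_apply, h1, ih]
  refine LinearMap.ext fun y => ?_
  have h3 : y = (y ∘ e) ∘ e.symm := by
    ext s
    simp
  rw [h3, h2, hG]
  rfl

theorem tder_one_eq (G : Matrix ι ι S) : tder 1 G =
    G.submatrix (Equiv.funUnique (Fin 1) ι) (Equiv.funUnique (Fin 1) ι) := by
  ext I J
  simp only [tder, Matrix.of_apply, Matrix.submatrix_apply, Finset.univ_unique,
    Finset.sum_singleton]
  rw [if_pos]
  · rfl
  · intro l hl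
    exact absurd (Subsingleton.elim _ _) hl

theorem tder_succ_eq (n : ℕ) (G : Matrix ι ι S) : tder (n + 1) G =
    (ksum G (tder n G)).submatrix (Fin.consEquiv fun _ => ι).symm (Fin.consEquiv fun _ => ι).symm := by
  ext I J
  rw [Matrix.submatrix_apply]
  simp only [tder, ksum, Matrix.of_apply]
  rw [Fin.sum_univ_succ]
  congr 1
  · have h1 : (∀ l : Fin (n + 1), l ≠ 0 → I l = J l) ↔
        ((Fin.consEquiv fun _ => ι).symm I).2 = ((Fin.consEquiv fun _ => ι).symm J).2 := by
      constructor
      · intro h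
        ext q
        exact h q.succ (Fin.succ_ne_zero q)
      · intro h l hl
        obtain ⟨q, rfl⟩ := Fin.exists_succ_eq.2 hl
        exact congrFun h q
    simp only [h1]
    rfl
  · have h2 : ∀ q : Fin n, (∀ l : Fin (n + 1), l ≠ q.succ → I l = J l) ↔
        (I 0 = J 0 ∧ ∀ l : Fin n, l ≠ q → I l.succ = J l.succ) := by
      intro q
      constructor
      · intro h
        exact ⟨h 0 (Fin.succ_ne_zero q).symm, fun l hl => h l.succ fun h' =>
          hl (Fin.succ_injective n h')⟩
      · rintro ⟨h0, h1⟩ l hl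
        rcases Fin.eq_zero_or_eq_succ l with h3 | ⟨l', h3⟩
        · rw [h3, h0]
        · rw [h3]
          exact h1 l' fun h4 => hl (by rw [h3, h4])
    by_cases h0 : I 0 = J 0
    · rw [if_pos (show ((Fin.consEquiv fun _ => ι).symm I).1 = ((Fin.consEquiv fun _ => ι).symm J).1
        from h0)]
      refine Finset.sum_congr rfl fun q _ => ?_
      simp only [h2, h0, true_and]
      rfl
    · rw [if_neg (show ¬ ((Fin.consEquiv fun _ => ι).symm I).1 = ((Fin.consEquiv fun _ => ι).symm J).1
        from h0)]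
      refine Finset.sum_eq_zero fun q _ => ?_
      rw [if_neg]
      rw [h2]
      exact fun h => h0 h.1

/-- Tensor powers. -/
theorem nab_pow_tder {p : ℕ} (hp : p.Prime) (hS : (p : S) = 0) {G : Matrix ι ι S}
    (hG : nab D G ^ p = 0) (n : ℕ) : nab D (tder (n + 1) G) ^ p = 0 := by
  induction n with
  | zero =>
    rw [zero_add, tder_one_eq]
    exact nab_pow_reindex D (Equiv.funUnique (Fin 1) ι).symm hG
  | succ n ih =>
    rw [tder_succ_eq]
    exact nab_pow_reindex D (Fin.consEquiv fun _ => ι) (nab_pow_ksum D hp hS hG ih)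

end abs

end Pool.Agent.D0H93.PC
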