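import Pool.Agent.D0H93.PC.Exp

/-!
# Direct sums, and the exponent law for several solutions
-/

set_option autoImplicit false
set_option linter.unusedSectionVars false
set_option linter.unusedVariables false

open Matrix Module PowerSeries

namespace Pool.Agent.D0H93.PC

open Pool.Agent.D0H93.MT Pool.Agent.W432.PC Pool.Agent.Y227.TP

/-- The block diagonal matrix with `m` equal blocks. -/
def blk {S ι : Type} [Zero S] (m : ℕ) (b : Matrix ι ι S) : Matrix (Fin m × ι) (Fin m × ι) S :=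
  Matrix.of fun p q => if p.1 = q.1 then b p.2 q.2 else 0

/-- The direct sum of `m` copies of a matrix, with the index set `Fin (m * r)`. -/
def dsum {S : Type} [Zero S] {r : ℕ} (m : ℕ) (b : Matrix (Fin r) (Fin r) S) :
    Matrix (Fin (m * r)) (Fin (m * r)) S :=
  (blk m b).submatrix finProdFinEquiv.symm finProdFinEquiv.symm

theorem dsum_map {S S' : Type} [CommRing S] [CommRing S'] (f : S →+* S') {r : ℕ} (m : ℕ)
    (b : Matrix (Fin r) (Fin r) S) : (dsum m b).map f = dsum m (b.map f) := by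
  ext i j
  simp only [dsum, blk, Matrix.map_apply, Matrix.submatrix_apply, Matrix.of_apply]
  split_ifs
  · rfl
  · exact map_zero f

theorem blk_mulVec {S ι : Type} [CommRing S] [Fintype ι] (m : ℕ) (b : Matrix ι ι S)
    (u : Fin m × ι → S) (p : Fin m × ι) :
    (blk m b *ᵥ u) p = (b *ᵥ fun i => u (p.1, i)) p.2 := by
  rw [Matrix.mulVec, dotProduct, Fintype.sum_prod_type]
  simp only [blk, Matrix.of_apply, ite_mul, zero_mul]
  rw [Finset.sum_eq_single p.1]
  · simp only [if_true]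
    rfl
  · intro a _ ha
    refine Finset.sum_eq_zero fun i _ => ?_
    rw [if_neg (Ne.symm ha)]
  · intro h
    exact absurd (Finset.mem_univ _) h

theorem nab_pow_blk {R₀ S : Type} [CommRing R₀] [CommRing S] [Algebra R₀ S] (D : Derivation R₀ S S)
    {ι : Type} [Fintype ι] [DecidableEq ι] {G : Matrix ι ι S} {N : ℕ} (hG : nab D G ^ N = 0)
    (m : ℕ) : nab D (blk m G) ^ N = 0 := by
  have h1 : ∀ (N : ℕ) (u : Fin m × ι → S) (p : Fin m × ι),
      (nab D (blk m G) ^ N) u p = (nab D G ^ N) (fun i => u (p.1, i)) p.2 := by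
    intro N
    induction N with
    | zero => intro u p; rfl
    | succ N ih =>
      intro u p
      have e : (fun i => (nab D (blk m G)) u (p.1, i)) = nab D G fun i => u (p.1, i) := by
        funext i
        rw [nab_apply, nab_apply, blk_mulVec]
      rw [pow_succ, pow_succ, Module.End.mul_apply, Module.End.mul_apply, ih, e]
  refine LinearMap.ext fun u => ?_
  ext p
  rw [h1, hG]
  rfl

theorem G_dsum {k : Type} [Field k] {m' r : ℕ} (α : Fin m' → k)
    (A : Fin m' → Matrix (Fin r) (Fin r) k) (m : ℕ) : G α (fun j => dsum m (A j)) =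
      (blk m (G α A)).submatrix finProdFinEquiv.symm finProdFinEquiv.symm := by
  unfold G
  ext a b
  simp only [Matrix.sum_apply, Matrix.submatrix_apply, dsum, blk, Matrix.of_apply, Matrix.smul_apply,
    Matrix.map_apply]
  split_ifs
  · rfl
  · simp

theorem pcurvZero_dsum {k : Type} [Field k] {m' r : ℕ} {α : Fin m' → k}
    {A : Fin m' → Matrix (Fin r) (Fin r) k} (h : PCurvZero α A) (m : ℕ) :
    PCurvZero α (fun j => dsum m (A j)) := by
  have hpow : ∀ {m' r' : ℕ} (α' : Fin m' → k) (A' : Fin m' → Matrix (Fin r') (Fin r') k) (j : ℕ)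
      (y : Fin r' → RatFunc k), (nabla α' A')^[j] y = (nab (ddx k) (G α' A') ^ j) y := by
    intro m' r' α' A' j y
    rw [Module.End.pow_apply]
    rfl
  have hG : nab (ddx k) (G α A) ^ (ringChar k) = 0 := by
    refine LinearMap.ext fun y => ?_
    rw [← hpow, h y]
    rfl
  intro y
  rw [hpow, G_dsum, nab_pow_reindex (ddx k) finProdFinEquiv (nab_pow_blk (ddx k) hG m)]
  rfl

theorem pcurvZeroAt_dsum {R : Type} [CommRing R] {m' r : ℕ} {α : Fin m' → R}
    {A : Fin m' → Matrix (Fin r) (Fin r) R} (𝔪 : Ideal R) [h𝔪 : 𝔪.IsMaximal]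
    (h : PCurvZeroAt α A 𝔪) (m : ℕ) : PCurvZeroAt α (fun j => dsum m (A j)) 𝔪 := by
  let _ : Field (R ⧸ 𝔪) := Ideal.Quotient.field 𝔪
  have h1 := pcurvZero_dsum (k := R ⧸ 𝔪) h m
  unfold PCurvZeroAt
  have h2 : (fun j => (dsum m (A j)).map (Ideal.Quotient.mk 𝔪)) =
      fun j => dsum m ((A j).map (Ideal.Quotient.mk 𝔪)) := by
    funext j
    exact dsum_map _ _ _
  rw [h2]
  exact h1

/-- The condition of the problem for direct sums. -/
theorem condII_dsum {R : Type} [CommRing R] {r : ℕ} {b c : Matrix (Fin r) (Fin r) R}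
    (h : CondII ![0, 1] ![b, c]) (m : ℕ) : CondII ![0, 1] ![dsum m b, dsum m c] := by
  obtain ⟨g, hg, h1⟩ := h
  refine ⟨g, hg, fun 𝔪 _ hm => ?_⟩
  have h2 := pcurvZeroAt_dsum 𝔪 (h1 𝔪 hm) m
  have h3 : (fun j => dsum m ((![b, c] : Fin 2 → Matrix (Fin r) (Fin r) R) j)) =
      ![dsum m b, dsum m c] := by
    funext j
    fin_cases j <;> rfl
  rwa [h3] at h2

theorem PZero.dsum {r : ℕ} {B C : Matrix (Fin r) (Fin r) ℂ} (h : PZero B C) (m : ℕ) :
    PZero (PC.dsum m B) (PC.dsum m C) := by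
  obtain ⟨R, _, _, _, _, _, φ, b, c, hφ, rfl, rfl, hbc⟩ := h
  exact ⟨R, _, ‹_›, ‹_›, ‹_›, ‹_›, φ, PC.dsum m b, PC.dsum m c, hφ,
    (dsum_map φ _ _).symm, (dsum_map φ _ _).symm, condII_dsum hbc m⟩

section star

variable {k : Type} [Field k] [CharZero k] {r : ℕ}

/-- The vector of a family. -/
noncomputable def cat {m : ℕ} (W : Fin m → Fin r → k⟦X⟧) : Fin (m * r) → k⟦X⟧ :=
  fun i => W (finProdFinEquiv.symm i).1 (finProdFinEquiv.symm i).2

theorem projDeg_cat {m : ℕ} {W : Fin m → Fin r → k⟦X⟧} {d : ℕ}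
    (h : ProjDeg (fun p : Fin m × Fin r => W p.1 p.2) d) : ProjDeg (cat W) d := by
  obtain ⟨a, ha, hW⟩ := h
  refine ⟨a, ha, fun j => ?_⟩
  have h1 : (Set.range fun p : Fin (m * r) × Fin (m * r) =>
      algebraMap k⟦X⟧ (FractionRing k⟦X⟧) (cat W p.1) /
        algebraMap k⟦X⟧ (FractionRing k⟦X⟧) (cat W p.2)) =
      Set.range fun p : (Fin m × Fin r) × (Fin m × Fin r) =>
      algebraMap k⟦X⟧ (FractionRing k⟦X⟧) (W p.1.1 p.1.2) /
        algebraMap k⟦X⟧ (FractionRing k⟦X⟧) (W p.2.1 p.2.2) := by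
    ext x
    constructor
    · rintro ⟨p, rfl⟩
      exact ⟨(finProdFinEquiv.symm p.1, finProdFinEquiv.symm p.2), rfl⟩
    · rintro ⟨p, rfl⟩
      refine ⟨(finProdFinEquiv p.1, finProdFinEquiv p.2), ?_⟩
      simp only [cat, Equiv.symm_apply_apply]
  rw [h1]
  exact hW j

theorem starM_dsum (B C : Matrix (Fin r) (Fin r) k) (m : ℕ) :
    starM (dsum m B) (dsum m C) = dsum m (starM B C) := by
  ext i j : 1
  simp only [starM, dsum, blk, Matrix.add_apply, Matrix.smul_apply, Matrix.map_apply,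
    Matrix.submatrix_apply, Matrix.of_apply]
  split_ifs
  · rfl
  · rw [map_zero, smul_zero, smul_zero, add_zero]

theorem isSol_cat {B C : Matrix (Fin r) (Fin r) k} {m : ℕ} {W : Fin m → Fin r → k⟦X⟧}
    (hW : ∀ a, IsSol B C (W a)) : IsSol (dsum m B) (dsum m C) (cat W) := by
  unfold IsSol
  rw [starM_dsum]
  funext i
  obtain ⟨p, rfl⟩ := finProdFinEquiv.surjective i
  have h1 : (dsum m (starM B C) *ᵥ cat W) (finProdFinEquiv p) =
      (blk m (starM B C) *ᵥ fun q : Fin m × Fin r => W q.1 q.2) p := by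
    rw [Matrix.mulVec, Matrix.mulVec, dotProduct, dotProduct, ← Equiv.sum_comp finProdFinEquiv]
    refine Finset.sum_congr rfl fun q _ => ?_
    simp only [dsum, Matrix.submatrix_apply, Equiv.symm_apply_apply, cat]
  rw [h1, blk_mulVec]
  show derivative k (cat W (finProdFinEquiv p)) = _
  simp only [cat, Equiv.symm_apply_apply]
  exact congrFun (hW p.1) p.2

end star

/-- **The exponent law for several solutions.** -/
theorem exponent_law_fam {δ : ℝ} (h : ManyAlg δ) {m r : ℕ} (hm : 1 ≤ m) (hr : 1 ≤ r)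
    {B C : Matrix (Fin r) (Fin r) ℂ} (hBC : PZero B C) {W : Fin m → Fin r → ℂ⟦X⟧}
    (hW : ∀ a, IsSol B C (W a)) {d : ℕ}
    (hd : ProjDeg (fun p : Fin m × Fin r => W p.1 p.2) d) :
    (d : ℝ) ≤ (1 - δ) * ((m : ℝ) * r - 1) := by
  have h1 := exponent_law h (Nat.mul_pos hm hr) (hBC.dsum m) (isSol_cat hW) (projDeg_cat hd)
  rwa [Nat.cast_mul] at h1

end Pool.Agent.D0H93.PC
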