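import Pool.Agent.D0H93.MT.Defs

/-!
# Linear differential systems and their algebraic solutions: definitions
-/

set_option autoImplicit false
set_option linter.unusedSectionVars false

open Matrix

namespace Pool.Agent.D0H93.PC

open Pool.Agent.D0H93.MT

/-- A differential field `L` with the field of constants `k`, and a differential subfield `K` which
contains the constants. -/
structure DiffExt (k L : Type) [Field k] [Field L] [Algebra k L] where
  /-- the derivation -/
  δ : Derivation k L L
  /-- the differential subfield -/
  K : Subfield L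
  der_mem : ∀ a ∈ K, δ a ∈ K
  const_mem : ∀ c : k, algebraMap k L c ∈ K
  const : ∀ a, δ a = 0 → ∃ c : k, algebraMap k L c = a

variable {k L : Type} [Field k] [Field L] [Algebra k L]

/-- A linear differential system `U' = A U` over `K` with a fundamental matrix `F` over `L`. -/
structure LinSystem (X : DiffExt k L) (ι : Type) [Fintype ι] [DecidableEq ι] where
  /-- the matrix of the system -/
  A : Matrix ι ι L
  mem : ∀ i j, A i j ∈ X.K
  /-- the fundamental matrix -/
  F : Matrix ι ι L
  det_ne : F.det ≠ 0
  sol : F.map X.δ = A * F

variable {X : DiffExt k L} {ι σ : Type} [Fintype ι] [DecidableEq ι] [Fintype σ] [DecidableEq σ]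

/-- The solutions of the tensor system `N ⊗ M ^ ⊗n`, of rank `|σ| * |ι| ^ n`, whose entries are
algebraic over `K`. (The solutions are written as matrices `U` with the rows `Fin n → ι` and
the columns `σ`; the equation is `U' = A^(n) U + U Bᵀ`, `A` the matrix of `M`, `B` the one of `N`.) -/
def algSol (N : LinSystem X σ) (M : LinSystem X ι) (n : ℕ) :
    Submodule k (Matrix (Fin n → ι) σ L) where
  carrier := {U | U.map X.δ = tder n M.A * U + U * N.Aᵀ ∧ ∀ I a, IsAlgebraic X.K (U I a)}
  zero_mem' := ⟨by ext; simp, fun I a => by
    rw [Matrix.zero_apply]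
    exact isAlgebraic_zero⟩
  add_mem' := by
    rintro U V ⟨h1, h2⟩ ⟨h3, h4⟩
    refine ⟨?_, fun I a => (h2 I a).add (h4 I a)⟩
    have : (U + V).map X.δ = U.map X.δ + V.map X.δ := by
      ext I a
      simp
    rw [this, h1, h3, Matrix.mul_add, Matrix.add_mul]
    abel
  smul_mem' := by
    rintro c U ⟨h1, h2⟩
    refine ⟨?_, fun I a => ?_⟩
    · have : (c • U).map X.δ = c • U.map X.δ := by
        ext I a
        simp
      rw [this, h1, Matrix.mul_smul, Matrix.smul_mul, smul_add]
    · rw [Matrix.smul_apply, Algebra.smul_def]
      exact (isAlgebraic_algebraMap (⟨_, X.const_mem c⟩ : X.K)).mul (h2 I a)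

/-- All solutions of `M` are algebraic over `K`. -/
def LinSystem.IsAlg (M : LinSystem X ι) : Prop := ∀ i j, IsAlgebraic X.K (M.F i j)

/-- All solutions of `End M` are algebraic over `K`: the quotients of the entries of the fundamental
matrix are algebraic. -/
def LinSystem.IsProjAlg (M : LinSystem X ι) : Prop :=
  ∀ i j i' j', IsAlgebraic X.K (M.F i j / M.F i' j')

end Pool.Agent.D0H93.PC
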