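import Pool.Agent.D0H93.PC.Amp

/-!
# The transcendence degree of a solution: definitions
-/

set_option autoImplicit false
set_option linter.unusedSectionVars false

open Matrix Module PowerSeries

namespace Pool.Agent.D0H93.PC

section gen

variable {k L : Type} [Field k] [Field L] [Algebra k L]

/-- The field generated over `K` by the quotients of the entries of the vector `w` contains `d`
algebraically independent elements: its transcendence degree is at least `d`. -/
def HasDeg (X : DiffExt k L) {ι : Type} (w : ι → L) (d : ℕ) : Prop :=
  ∃ a : Fin d → L, AlgebraicIndependent X.K a ∧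
    ∀ j, a j ∈ IntermediateField.adjoin X.K (Set.range fun p : ι × ι => w p.1 / w p.2)

end gen

section star

variable {k : Type} [Field k] [CharZero k] {r : ℕ}

/-- `w` is a solution of the system `f' = (B / t + C / (t - 1)) f`, a vector of power series in
`X = t - 2`. -/
def IsSol (B C : Matrix (Fin r) (Fin r) k) (w : Fin r → k⟦X⟧) : Prop :=
  (fun i => derivative k (w i)) = starM B C *ᵥ w

/-- The field generated over the field of rational functions by the quotients of the entries of the vector
`w` of power series (a subfield of the field of fractions of the ring of power series) contains `d`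
elements which are algebraically independent over the ring of polynomials: its transcendence degree is at
least `d`. -/
def ProjDeg {ι : Type} (w : ι → k⟦X⟧) (d : ℕ) : Prop :=
  ∃ a : Fin d → FractionRing k⟦X⟧, AlgebraicIndependent (Polynomial k) a ∧
    ∀ j, a j ∈ Subfield.closure (Set.range (algebraMap (Polynomial k) (FractionRing k⟦X⟧)) ∪
      Set.range fun p : ι × ι => algebraMap k⟦X⟧ (FractionRing k⟦X⟧) (w p.1) /
        algebraMap k⟦X⟧ (FractionRing k⟦X⟧) (w p.2))

end star

/-- Every system of the problem of large rank `R` with vanishing `p`-curvatures has at least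
`R ^ (δ - o(1))` linearly independent algebraic solutions. For `δ = 0` this says nothing, for `δ = 1` it
follows from Grothendieck's conjecture. -/
def ManyAlg (δ : ℝ) : Prop :=
  ∀ ε : ℝ, 0 < ε → ∃ R₀ : ℕ, ∀ (r : ℕ) (B C : Matrix (Fin r) (Fin r) ℂ), R₀ ≤ r →
    PZero B C → (r : ℝ) ^ (δ - ε) ≤ numAlg B C

end Pool.Agent.D0H93.PC
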