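import Mathlib

/-!
# Transcendental elements are not constants
-/

set_option autoImplicit false
set_option linter.style.haveILetI false

open Polynomial

namespace Pool.Agent.D0H93.PC

/-- Field extensions in characteristic zero are formally smooth. -/
theorem formallySmooth (K F : Type) [Field K] [CharZero K] [Field F] [Algebra K F] :
    Algebra.FormallySmooth K F := by
  obtain ⟨s, hs⟩ := exists_isTranscendenceBasis K F
  haveI : CharZero (IntermediateField.adjoin K (Set.range ((↑) : s → F))) :=
    charZero_of_injective_algebraMap (algebraMap K _).injective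
  haveI : Algebra.IsAlgebraic (IntermediateField.adjoin K (Set.range ((↑) : s → F))) F :=
    hs.isAlgebraic_field
  exact Algebra.FormallySmooth.of_algebraicIndependent_of_isSeparable hs.1

/-- The dual numbers, without an algebra structure. -/
def Eps (F : Type) : Type := TrivSqZeroExt F F

noncomputable instance (F : Type) [Field F] : CommRing (Eps F) :=
  inferInstanceAs (CommRing (TrivSqZeroExt F F))

/-- In characteristic zero, for every transcendental element of a field extension there
is a derivation which does not kill it. -/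
theorem exists_derivation {K F : Type} [Field K] [CharZero K] [Field F] [Algebra K F]
    {e : F} (he : Transcendental K e) :
    ∃ D : Derivation K F F, D e ≠ 0 := by
  letI a1 : Algebra K[X] F := (aeval e : K[X] →ₐ[K] F).toRingHom.toAlgebra
  have a1e : ∀ p : K[X], algebraMap K[X] F p = aeval e p := fun p => rfl
  have hinj : Function.Injective (algebraMap K[X] F) := by
    intro p q hpq
    exact transcendental_iff_injective.1 he hpq
  haveI : IsScalarTower K K[X] F := IsScalarTower.of_algebraMap_eq fun k => by
    rw [a1e, algebraMap_eq, aeval_C]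
  haveI : FaithfulSMul K[X] F := (faithfulSMul_iff_algebraMap_injective _ _).2 hinj
  letI a2 : Algebra (FractionRing K[X]) F := FractionRing.liftAlgebra K[X] F
  haveI : IsScalarTower K[X] (FractionRing K[X]) F := FractionRing.isScalarTower_liftAlgebra _ _
  haveI : IsScalarTower K (FractionRing K[X]) F := IsScalarTower.of_algebraMap_eq fun k => by
    rw [IsScalarTower.algebraMap_apply K K[X] (FractionRing K[X]),
      ← IsScalarTower.algebraMap_apply K[X] (FractionRing K[X]) F,
      ← IsScalarTower.algebraMap_apply K K[X] F]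
  haveI : CharZero (FractionRing K[X]) :=
    charZero_of_injective_algebraMap (algebraMap K (FractionRing K[X])).injective
  haveI : Algebra.FormallySmooth (FractionRing K[X]) F := formallySmooth _ _
  -- the homomorphism to the dual numbers
  let x : TrivSqZeroExt F F := TrivSqZeroExt.inl e + TrivSqZeroExt.inr 1
  let g₀ : K[X] →ₐ[K] TrivSqZeroExt F F := aeval x
  have hfst : ∀ p : K[X], TrivSqZeroExt.fst (g₀ p) = aeval e p := by
    intro p
    have : (TrivSqZeroExt.fstHom K F F).comp g₀ = aeval e := by
      refine Polynomial.algHom_ext ?_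
      simp [g₀, x]
    exact DFunLike.congr_fun this p
  let g : K[X] →+* Eps F := g₀.toRingHom
  have hg : ∀ y : nonZeroDivisors K[X], IsUnit (g y) := by
    intro y
    have h1 : (TrivSqZeroExt.fst (g₀ y.1)) ≠ 0 := by
      rw [hfst, ← a1e]
      intro h
      exact nonZeroDivisors.ne_zero y.2 (hinj (by rw [h, map_zero]))
    exact TrivSqZeroExt.isUnit_iff_isUnit_fst.2 (isUnit_iff_ne_zero.2 h1)
  let ψ : FractionRing K[X] →+* Eps F := IsLocalization.lift (M := nonZeroDivisors K[X]) hg
  letI a3 : Algebra (FractionRing K[X]) (Eps F) := ψ.toAlgebra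
  let fstR : Eps F →+* F := (TrivSqZeroExt.fstHom F F F).toRingHom
  have hcomp : fstR.comp ψ = algebraMap (FractionRing K[X]) F := by
    refine IsLocalization.ringHom_ext (nonZeroDivisors K[X]) (RingHom.ext fun p => ?_)
    have h1 : ψ (algebraMap K[X] (FractionRing K[X]) p) = g p := IsLocalization.lift_eq hg p
    rw [RingHom.comp_apply, RingHom.comp_apply, RingHom.comp_apply, h1,
      ← IsScalarTower.algebraMap_apply K[X] (FractionRing K[X]) F, a1e]
    exact hfst p
  let fstA : Eps F →ₐ[FractionRing K[X]] F :=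
    { fstR with commutes' := fun r => DFunLike.congr_fun hcomp r }
  have hsurj : Function.Surjective fstA := fun f =>
    ⟨(TrivSqZeroExt.inl f : TrivSqZeroExt F F), TrivSqZeroExt.fst_inl F f⟩
  have hnil : IsNilpotent (RingHom.ker (fstA : Eps F →+* F)) := by
    refine ⟨2, ?_⟩
    rw [Ideal.zero_eq_bot, eq_bot_iff, pow_two, Ideal.mul_le]
    intro r hr s hs
    have hr' : TrivSqZeroExt.fst (r : TrivSqZeroExt F F) = 0 := hr
    have hs' : TrivSqZeroExt.fst (s : TrivSqZeroExt F F) = 0 := hs
    rw [Ideal.mem_bot]
    refine TrivSqZeroExt.ext ?_ ?_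
    · rw [show TrivSqZeroExt.fst (r * s : Eps F) = TrivSqZeroExt.fst (r : TrivSqZeroExt F F) *
        TrivSqZeroExt.fst (s : TrivSqZeroExt F F) from TrivSqZeroExt.fst_mul _ _, hr', zero_mul]
      rfl
    · rw [show TrivSqZeroExt.snd (r * s : Eps F) = TrivSqZeroExt.fst (r : TrivSqZeroExt F F) •
        TrivSqZeroExt.snd (s : TrivSqZeroExt F F) + MulOpposite.op (TrivSqZeroExt.fst (s : TrivSqZeroExt F F)) •
          TrivSqZeroExt.snd (r : TrivSqZeroExt F F) from TrivSqZeroExt.snd_mul _ _, hr', hs']
      simp
      rfl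
  let θ : F →ₐ[FractionRing K[X]] Eps F :=
    Algebra.FormallySmooth.liftOfSurjective (AlgHom.id _ F) fstA hsurj hnil
  have hθ : ∀ f, TrivSqZeroExt.fst (θ f : TrivSqZeroExt F F) = f := fun f =>
    Algebra.FormallySmooth.liftOfSurjective_apply (AlgHom.id _ F) fstA hsurj hnil f
  have hθX : ∀ p : K[X], θ (aeval e p) = g p := by
    intro p
    have h1 : aeval e p = algebraMap (FractionRing K[X]) F (algebraMap K[X] (FractionRing K[X]) p) := by
      rw [← IsScalarTower.algebraMap_apply K[X] (FractionRing K[X]) F, a1e]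
    rw [h1, θ.commutes]
    exact IsLocalization.lift_eq hg p
  have hθK : ∀ k : K, θ (algebraMap K F k) = g (C k) := by
    intro k
    rw [← hθX, aeval_C]
  have hgC : ∀ k : K, g (C k) = (TrivSqZeroExt.inl (algebraMap K F k) : TrivSqZeroExt F F) := by
    intro k
    show g₀ (C k) = _
    rw [show g₀ (C k) = algebraMap K (TrivSqZeroExt F F) k from aeval_C _ _]
    rfl
  have hmul : ∀ a b : F, TrivSqZeroExt.snd (θ (a * b) : TrivSqZeroExt F F) =
      a * TrivSqZeroExt.snd (θ b : TrivSqZeroExt F F) + b * TrivSqZeroExt.snd (θ a : TrivSqZeroExt F F) := by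
    intro a b
    rw [map_mul]
    rw [show TrivSqZeroExt.snd (θ a * θ b : Eps F) = TrivSqZeroExt.fst (θ a : TrivSqZeroExt F F) •
        TrivSqZeroExt.snd (θ b : TrivSqZeroExt F F) + MulOpposite.op (TrivSqZeroExt.fst (θ b : TrivSqZeroExt F F)) •
          TrivSqZeroExt.snd (θ a : TrivSqZeroExt F F) from TrivSqZeroExt.snd_mul _ _, hθ, hθ]
    simp [mul_comm]
  let D₀ : F →ₗ[K] F :=
    { toFun := fun f => TrivSqZeroExt.snd (θ f : TrivSqZeroExt F F)
      map_add' := fun a b => by rw [map_add]; exact TrivSqZeroExt.snd_add _ _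
      map_smul' := fun k a => by
        rw [Algebra.smul_def, hmul, hθK, hgC, TrivSqZeroExt.snd_inl, mul_zero, add_zero,
          RingHom.id_apply, Algebra.smul_def] }
  refine ⟨Derivation.mk' D₀ fun a b => hmul a b, ?_⟩
  have h1 : θ e = g X := by
    rw [← hθX, aeval_X]
  show TrivSqZeroExt.snd (θ e : TrivSqZeroExt F F) ≠ 0
  rw [h1]
  show TrivSqZeroExt.snd (g₀ X) ≠ 0
  rw [show g₀ X = x from aeval_X _]
  simp [x]

end Pool.Agent.D0H93.PC
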