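import Pool.Agent.D0H93.PC.Main

/-!
# The determinant of a system on the thrice-punctured line with rational traces
-/

set_option autoImplicit false
set_option linter.unusedSectionVars false
set_option linter.unusedVariables false

open Matrix Module

namespace Pool.Agent.D0H93.PC

variable {k L : Type} [Field k] [Field L] [CharZero L] [Algebra k L] {X : DiffExt k L}
  {ι : Type} [Fintype ι] [DecidableEq ι]

theorem der_zpow (D : Derivation k L L) {u : L} (hu : u ≠ 0) (n : ℤ) :
    D (u ^ n) = n * (D u / u) * u ^ n := by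
  rw [Derivation.leibniz_zpow, zsmul_eq_mul, smul_eq_mul, zpow_sub_one₀ hu]
  ring

theorem zpow_mem_subfield {K : Subfield L} {u : L} (hu : u ∈ K) (n : ℤ) : u ^ n ∈ K :=
  zpow_mem hu n

/-- If the trace is `α / t + β / (t - 1)`, `α`, `β` rational, the determinant is algebraic. -/
theorem det_algebraic (M : LinSystem X ι) {t : L} (ht : t ∈ X.K) (hδ : X.δ t = 1) {α β : ℚ}
    (htr : M.A.trace = (α : L) / t + (β : L) / (t - 1)) : IsAlgebraic X.K M.F.det := by
  have ht0 : t ≠ 0 := by
    rintro rfl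
    rw [map_zero] at hδ
    exact zero_ne_one hδ
  have ht1 : t - 1 ≠ 0 := by
    intro h
    have h1 : t = 1 := sub_eq_zero.1 h
    rw [h1, Derivation.map_one_eq_zero] at hδ
    exact zero_ne_one hδ
  set d := M.F.det with hd
  have hd0 : d ≠ 0 := M.det_ne
  set N : ℤ := ((α.den * β.den : ℕ) : ℤ) with hN
  set a : ℤ := α.num * β.den with ha
  set b : ℤ := β.num * α.den with hb
  have hNa : ((N : ℤ) : L) * (α : L) = (a : L) := by
    have h1 : ((N : ℤ) : ℚ) * α = (a : ℚ) := by
      rw [hN, ha]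
      push_cast
      have h2 := Rat.den_mul_eq_num α
      rw [← h2]
      ring
    have h3 := congrArg (fun q : ℚ => (q : L)) h1
    push_cast at h3
    exact h3
  have hNb : ((N : ℤ) : L) * (β : L) = (b : L) := by
    have h1 : ((N : ℤ) : ℚ) * β = (b : ℚ) := by
      rw [hN, hb]
      push_cast
      have h2 := Rat.den_mul_eq_num β
      rw [← h2]
      ring
    have h3 := congrArg (fun q : ℚ => (q : L)) h1
    push_cast at h3
    exact h3
  set h : L := d ^ N * t ^ (-a) * (t - 1) ^ (-b) with hh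
  have h1 : X.δ h = 0 := by
    rw [hh, Derivation.leibniz, Derivation.leibniz, smul_eq_mul, smul_eq_mul, smul_eq_mul,
      smul_eq_mul, der_zpow X.δ hd0, der_zpow X.δ ht0, der_zpow X.δ ht1, map_sub,
      Derivation.map_one_eq_zero, sub_zero, hδ, der_det, ← hd, htr, Int.cast_neg, Int.cast_neg,
      ← hNa, ← hNb]
    have e1 : ((α : L) / t + (β : L) / (t - 1)) * d / d = (α : L) / t + (β : L) / (t - 1) :=
      mul_div_cancel_right₀ _ hd0
    rw [e1]
    ring
  obtain ⟨c, hc⟩ := X.const h h1
  have h2 : d ^ N = algebraMap k L c * t ^ a * (t - 1) ^ b := by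
    rw [hc, hh]
    have e2 : t ^ (-a) * t ^ a = 1 := by rw [← zpow_add₀ ht0]; simp
    have e3 : (t - 1) ^ (-b) * (t - 1) ^ b = 1 := by rw [← zpow_add₀ ht1]; simp
    linear_combination (-d ^ N) * e2 + (-d ^ N * (t ^ (-a) * t ^ a)) * e3
  have h3 : d ^ N ∈ X.K := by
    rw [h2]
    exact X.K.mul_mem (X.K.mul_mem (X.const_mem c) (zpow_mem ht _))
      (zpow_mem (X.K.sub_mem ht X.K.one_mem) _)
  have h4 : IsAlgebraic X.K (d ^ (α.den * β.den)) := by
    rw [hN, zpow_natCast] at h3
    exact isAlgebraic_algebraMap (⟨_, h3⟩ : X.K)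
  exact IsAlgebraic.of_pow (Nat.mul_pos α.den_pos β.den_pos) h4

end Pool.Agent.D0H93.PC
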