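import Pool.Agent.D0H93.PC.Amp

/-!
# The `p`-curvature of the dual system
-/

set_option autoImplicit false
set_option linter.unusedSectionVars false
set_option linter.unusedVariables false

open Matrix

namespace Pool.Agent.D0H93.PC

open Pool.Agent.D0H93.MT Pool.Agent.W432.PC Pool.Agent.Y227.TP

section abs

open TensorProduct in
/-- The `p`-th power of an operator which satisfies the Leibniz rule, in characteristic `p`. -/
theorem pow_leibniz {V W Z : Type} [AddCommGroup V] [AddCommGroup W] [AddCommGroup Z]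
    {p : ℕ} (hp : p.Prime) (hZ : ∀ z : Z, (p : ℤ) • z = 0) (β : V →ₗ[ℤ] W →ₗ[ℤ] Z)
    (P : Module.End ℤ V) (Q : Module.End ℤ W) (T : Module.End ℤ Z)
    (h : ∀ u v, T (β u v) = β (P u) v + β u (Q v)) (u : V) (v : W) :
    (T ^ p) (β u v) = β ((P ^ p) u) v + β u ((Q ^ p) v) := by
  let Φ : V ⊗[ℤ] W →ₗ[ℤ] Z := TensorProduct.lift β
  have hΦ : ∀ u v, Φ (u ⊗ₜ v) = β u v := fun u v => TensorProduct.lift.tmul _ _
  let X1 : Module.End ℤ (V ⊗[ℤ] W) := LinearMap.rTensor W P
  let X2 : Module.End ℤ (V ⊗[ℤ] W) := LinearMap.lTensor V Q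
  have hcomm : Commute X1 X2 := by
    refine TensorProduct.ext' fun u v => ?_
    rfl
  have h1 : ∀ z, T (Φ z) = Φ ((X1 + X2) z) := by
    intro z
    induction z using TensorProduct.induction_on with
    | zero => simp
    | tmul u v =>
      rw [LinearMap.add_apply, map_add]
      exact h u v
    | add a b ha hb => rw [map_add, map_add, ha, hb, map_add, map_add]
  have h2 : ∀ (m : ℕ) z, (T ^ m) (Φ z) = Φ (((X1 + X2) ^ m) z) := by
    intro m
    induction m with
    | zero => intro z; rfl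
    | succ m ih =>
      intro z
      rw [pow_succ, pow_succ, Module.End.mul_apply, Module.End.mul_apply, h1, ih]
  have hX1 : X1 ^ p = LinearMap.rTensor W (P ^ p) := LinearMap.rTensor_pow P p
  have hX2 : X2 ^ p = LinearMap.lTensor V (Q ^ p) := LinearMap.lTensor_pow Q p
  have h3 : Φ (((X1 + X2) ^ p) (u ⊗ₜ v)) = Φ ((X1 ^ p) (u ⊗ₜ v)) + Φ ((X2 ^ p) (u ⊗ₜ v)) := by
    rw [hcomm.add_pow, LinearMap.sum_apply, map_sum, Finset.sum_range_succ, add_comm]
    congr 1
    · rw [Nat.sub_self, pow_zero, mul_one, Nat.choose_self, Nat.cast_one, mul_one]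
    · obtain ⟨q, hq⟩ : ∃ q, p = q + 1 := ⟨p - 1, by have := hp.pos; omega⟩
      have h4 : ∀ m ∈ Finset.range p, m ≠ 0 →
          Φ ((X1 ^ m * X2 ^ (p - m) * ((p.choose m : ℕ) : Module.End ℤ (V ⊗[ℤ] W))) (u ⊗ₜ v)) =
            0 := by
        intro m hm hm0
        rw [Finset.mem_range] at hm
        obtain ⟨q, hq⟩ := hp.dvd_choose_self hm0 hm
        rw [hq]
        have h6 : ((p * q : ℕ) : Module.End ℤ (V ⊗[ℤ] W)) =
            (p : ℤ) • (q : Module.End ℤ (V ⊗[ℤ] W)) := by
          rw [Nat.cast_mul, zsmul_eq_mul, Int.cast_natCast]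
        rw [h6, mul_smul_comm, LinearMap.smul_apply, map_smul]
        exact hZ _
      rw [Finset.sum_eq_single 0 h4 fun h => absurd (Finset.mem_range.2 hp.pos) h]
      rw [pow_zero, one_mul, Nat.sub_zero, Nat.choose_zero_right, Nat.cast_one, mul_one]
  rw [← hΦ, h2, h3, hX1, hX2]
  rfl

variable {R₀ S : Type} [CommRing R₀] [CommRing S] [Algebra R₀ S] (D : Derivation R₀ S S)
  {ι : Type} [Fintype ι] [DecidableEq ι]

/-- The derivation as an additive map. -/
noncomputable def derZ : Module.End ℤ S :=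
  AddMonoidHom.toIntLinearMap
    { toFun := fun u => D u
      map_zero' := map_zero D
      map_add' := fun u v => map_add D u v }

theorem derZ_apply (f : S) : derZ D f = D f := rfl

/-- The product of a function and a vector. -/
noncomputable def smL (S ι : Type) [CommRing S] : S →ₗ[ℤ] (ι → S) →ₗ[ℤ] (ι → S) :=
  LinearMap.mk₂ ℤ (fun f u => f • u)
    (fun u u' v => by ext p; simp [add_mul])
    (fun c u v => by ext p; simp [mul_assoc])
    (fun u v v' => by ext p; simp [mul_add])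
    (fun c u v => by ext p; simp [mul_left_comm])

theorem smL_apply (f : S) (u : ι → S) : smL S ι f u = f • u := rfl

/-- The scalar product. -/
noncomputable def dpL (S ι : Type) [CommRing S] [Fintype ι] :
    (ι → S) →ₗ[ℤ] (ι → S) →ₗ[ℤ] S :=
  LinearMap.mk₂ ℤ (fun u v => u ⬝ᵥ v)
    (fun u u' v => add_dotProduct _ _ _)
    (fun c u v => smul_dotProduct _ _ _)
    (fun u v v' => dotProduct_add _ _ _)
    (fun c u v => dotProduct_smul _ _ _)

theorem dpL_apply (u v : ι → S) : dpL S ι u v = u ⬝ᵥ v := rfl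

/-- If the `p`-curvature of a system of positive rank vanishes, the `p`-th power of the derivation is
zero. -/
theorem derZ_pow {p : ℕ} (hp : p.Prime) (hS : (p : S) = 0) {G : Matrix ι ι S} (i : ι)
    (hG : nab D G ^ p = 0) : derZ D ^ p = 0 := by
  refine LinearMap.ext fun f => ?_
  have hZ : ∀ z : ι → S, (p : ℤ) • z = 0 := by
    intro z
    ext j
    rw [Pi.smul_apply, zsmul_eq_mul, Int.cast_natCast, hS, zero_mul, Pi.zero_apply]
  have h1 := pow_leibniz hp hZ (smL S ι) (derZ D) (nab D G) (nab D G) (fun u v => by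
    ext j
    rw [smL_apply, smL_apply, smL_apply, Pi.add_apply, nab_apply, Pi.smul_apply, Pi.smul_apply,
      Pi.smul_apply, nab_apply, Matrix.mulVec_smul, Pi.smul_apply, smul_eq_mul, smul_eq_mul,
      smul_eq_mul, smul_eq_mul, Derivation.leibniz, derZ_apply, smul_eq_mul, smul_eq_mul]
    ring) f (Pi.single i 1)
  rw [hG, LinearMap.zero_apply, LinearMap.zero_apply, map_zero, add_zero, smL_apply] at h1
  have h2 := congrFun h1 i
  rw [Pi.zero_apply, Pi.smul_apply, Pi.single_eq_same, smul_eq_mul, mul_one] at h2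
  rw [LinearMap.zero_apply]
  exact h2.symm

/-- The dual of a system with vanishing `p`-curvature has vanishing `p`-curvature. -/
theorem nab_pow_dual {p : ℕ} (hp : p.Prime) (hS : (p : S) = 0) {G : Matrix ι ι S}
    (hG : nab D G ^ p = 0) : nab D (-Gᵀ) ^ p = 0 := by
  refine LinearMap.ext fun v => ?_
  ext i
  have hZ : ∀ z : S, (p : ℤ) • z = 0 := by
    intro z
    rw [zsmul_eq_mul, Int.cast_natCast, hS, zero_mul]
  have h1 := pow_leibniz hp hZ (dpL S ι) (nab D G) (nab D (-Gᵀ)) (derZ D) (fun u v => by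
    rw [dpL_apply, dpL_apply, dpL_apply, derZ_apply]
    have e1 : nab D G u = (fun j => D (u j)) - G *ᵥ u := rfl
    have e2 : nab D (-Gᵀ) v = (fun j => D (v j)) - (-Gᵀ) *ᵥ v := rfl
    have e3 : (G *ᵥ u) ⬝ᵥ v = u ⬝ᵥ (Gᵀ *ᵥ v) := by
      rw [Matrix.mulVec_transpose, dotProduct_comm (G *ᵥ u) v, dotProduct_comm u (v ᵥ* G),
        Matrix.dotProduct_mulVec]
    rw [e1, e2, sub_dotProduct, dotProduct_sub, Matrix.neg_mulVec, dotProduct_neg, e3]
    have e4 : D (u ⬝ᵥ v) = (fun j => D (u j)) ⬝ᵥ v + u ⬝ᵥ fun j => D (v j) := by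
      rw [dotProduct, dotProduct, dotProduct, map_sum, ← Finset.sum_add_distrib]
      refine Finset.sum_congr rfl fun j _ => ?_
      rw [Derivation.leibniz, smul_eq_mul, smul_eq_mul]
      ring
    rw [e4]
    ring) (Pi.single i 1) v
  rw [derZ_pow D hp hS i hG, hG, LinearMap.zero_apply, LinearMap.zero_apply, map_zero,
    LinearMap.zero_apply, zero_add, dpL_apply, single_one_dotProduct] at h1
  rw [← h1, LinearMap.zero_apply, Pi.zero_apply]

end abs

theorem G_dual {k : Type} [Field k] {m r : ℕ} (α : Fin m → k) (A : Fin m → Matrix (Fin r) (Fin r) k) :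
    G α (fun j => -(A j)ᵀ) = -(G α A)ᵀ := by
  unfold G
  ext a b
  simp only [Matrix.sum_apply, Matrix.neg_apply, Matrix.transpose_apply, Matrix.smul_apply,
    Matrix.map_apply, map_neg, smul_eq_mul, mul_neg, Finset.sum_neg_distrib]

/-- The dual of a system with vanishing `p`-curvature has vanishing `p`-curvature. -/
theorem pcurvZero_dual {k : Type} [Field k] {m r : ℕ} {α : Fin m → k}
    {A : Fin m → Matrix (Fin r) (Fin r) k} (h : PCurvZero α A) :
    PCurvZero α (fun j => -(A j)ᵀ) := by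
  rcases CharP.char_is_prime_or_zero k (ringChar k) with hp | hp
  · have hS : ((ringChar k : ℕ) : RatFunc k) = 0 := by
      have h1 : ((ringChar k : ℕ) : k) = 0 := CharP.cast_eq_zero k (ringChar k)
      have h2 := congrArg (algebraMap k (RatFunc k)) h1
      rwa [map_natCast, map_zero] at h2
    have hpow : ∀ {m' r' : ℕ} (α' : Fin m' → k) (A' : Fin m' → Matrix (Fin r') (Fin r') k) (j : ℕ)
        (y : Fin r' → RatFunc k), (nabla α' A')^[j] y = (nab (ddx k) (G α' A') ^ j) y := by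
      intro m' r' α' A' j y
      rw [Module.End.pow_apply]
      rfl
    have hG : nab (ddx k) (G α A) ^ (ringChar k) = 0 := by
      refine LinearMap.ext fun y => ?_
      rw [← hpow, h y]
      rfl
    intro y
    rw [hpow, G_dual, nab_pow_dual (ddx k) hp hS hG]
    rfl
  · -- the characteristic is zero: the rank is zero
    have h1 := h
    unfold PCurvZero at h1
    rw [hp] at h1
    have hr : r = 0 := by
      by_contra hr
      have h2 := congrFun (h1 fun _ => 1) ⟨0, Nat.pos_of_ne_zero hr⟩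
      simp at h2
    subst hr
    intro y
    exact Subsingleton.elim _ _

theorem pcurvZeroAt_dual {R : Type} [CommRing R] {m r : ℕ} {α : Fin m → R}
    {A : Fin m → Matrix (Fin r) (Fin r) R} (𝔪 : Ideal R) [h𝔪 : 𝔪.IsMaximal]
    (h : PCurvZeroAt α A 𝔪) : PCurvZeroAt α (fun j => -(A j)ᵀ) 𝔪 := by
  let _ : Field (R ⧸ 𝔪) := Ideal.Quotient.field 𝔪
  have h1 := pcurvZero_dual (k := R ⧸ 𝔪) h
  unfold PCurvZeroAt
  have h2 : (fun j => (-(A j)ᵀ).map (Ideal.Quotient.mk 𝔪)) =
      fun j => -((A j).map (Ideal.Quotient.mk 𝔪))ᵀ := by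
    funext j
    ext a b
    simp only [Matrix.map_apply, Matrix.neg_apply, Matrix.transpose_apply, map_neg]
  rw [h2]
  exact h1

/-- The condition of the problem for the dual system. -/
theorem condII_dual {R : Type} [CommRing R] {r : ℕ} {b c : Matrix (Fin r) (Fin r) R}
    (h : CondII ![0, 1] ![b, c]) : CondII ![0, 1] ![-bᵀ, -cᵀ] := by
  obtain ⟨g, hg, h1⟩ := h
  refine ⟨g, hg, fun 𝔪 _ hm => ?_⟩
  have h2 := pcurvZeroAt_dual 𝔪 (h1 𝔪 hm)
  have h3 : (fun j => -((![b, c] : Fin 2 → Matrix (Fin r) (Fin r) R) j)ᵀ) = ![-bᵀ, -cᵀ] := by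
    funext j
    fin_cases j <;> rfl
  rwa [h3] at h2

theorem PZero.dual {r : ℕ} {B C : Matrix (Fin r) (Fin r) ℂ} (h : PZero B C) :
    PZero (-Bᵀ) (-Cᵀ) := by
  obtain ⟨R, _, _, _, _, _, φ, b, c, hφ, rfl, rfl, hbc⟩ := h
  refine ⟨R, _, ‹_›, ‹_›, ‹_›, ‹_›, φ, -bᵀ, -cᵀ, hφ, ?_, ?_, condII_dual hbc⟩
  · ext a b
    simp only [Matrix.map_apply, Matrix.neg_apply, Matrix.transpose_apply, map_neg]
  · ext a b
    simp only [Matrix.map_apply, Matrix.neg_apply, Matrix.transpose_apply, map_neg]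

end Pool.Agent.D0H93.PC
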