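import Pool.Agent.D0H93.PC.SymA

/-!
# Common kernels of several matrices on symmetric tensors
-/

set_option autoImplicit false
set_option linter.unusedSectionVars false
set_option linter.unusedVariables false

open Module Matrix

namespace Pool.Agent.D0H93.PC

open Pool.Agent.D0H93.MT

variable {k : Type} [Field k] {ι : Type} [Fintype ι] [DecidableEq ι] {σ : Type} [Fintype σ]
  [DecidableEq σ]

/-- The common kernel on the symmetric tensors. -/
def comK (n : ℕ) {d : ℕ} (x : Fin d → Matrix ι ι k) (y : Fin d → Matrix σ σ k) :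
    Submodule k (Matrix (Fin n → ι) σ k) where
  carrier := {M | M ∈ symT k ι σ n ∧ ∀ i, ZZ n (x i) (y i) M = 0}
  zero_mem' := ⟨(symT k ι σ n).zero_mem, fun i => map_zero _⟩
  add_mem' := by
    rintro M N ⟨h1, h2⟩ ⟨h3, h4⟩
    exact ⟨(symT k ι σ n).add_mem h1 h3, fun i => by rw [map_add, h2, h4, add_zero]⟩
  smul_mem' := by
    rintro c M ⟨h1, h2⟩
    exact ⟨(symT k ι σ n).smul_mem c h1, fun i => by rw [map_smul, h2, smul_zero]⟩

theorem mem_comK {n : ℕ} {d : ℕ} {x : Fin d → Matrix ι ι k} {y : Fin d → Matrix σ σ k}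
    {M : Matrix (Fin n → ι) σ k} :
    M ∈ comK n x y ↔ M ∈ symT k ι σ n ∧ ∀ i, ZZ n (x i) (y i) M = 0 := Iff.rfl

/-- The common kernel of the symbols. -/
def comE (n : ℕ) {d : ℕ} (z : Fin d → ι) (i₁ : ι) :
    Submodule k ((Fin n → ι) → (σ → k)) where
  carrier := {f | (∀ I J, ms I = ms J → f I = f J) ∧ ∀ i, EV k σ (z i) i₁ n f = 0}
  zero_mem' := ⟨fun _ _ _ => rfl, fun i => map_zero _⟩
  add_mem' := by
    rintro f g ⟨h1, h2⟩ ⟨h3, h4⟩
    refine ⟨fun I J h => ?_, fun i => by rw [map_add, h2, h4, add_zero]⟩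
    rw [Pi.add_apply, Pi.add_apply, h1 I J h, h3 I J h]
  smul_mem' := by
    rintro c f ⟨h1, h2⟩
    refine ⟨fun I J h => ?_, fun i => by rw [map_smul, h2, smul_zero]⟩
    rw [Pi.smul_apply, Pi.smul_apply, h1 I J h]

theorem finrank_comE [CharZero k] (n : ℕ) {d : ℕ} {z : Fin d → ι} {i₁ : ι}
    (hz : Function.Injective z) (hz1 : ∀ i, z i ≠ i₁) :
    finrank k (comE (k := k) (σ := σ) n z i₁) ≤
      Fintype.card σ * (Fintype.card ι - d).multichoose n := by
  classical
  have h0 : ∀ f ∈ comE (k := k) (σ := σ) n z i₁, ∀ I p i, I p = z i → f I = 0 := by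
    rintro f ⟨hf2, hf1⟩ I p i hp
    have h1 := congrFun (hf1 i) (Function.update I p i₁)
    rw [EV_apply, Pi.zero_apply] at h1
    have h2 : ∀ q, (if Function.update I p i₁ q = i₁ then
        f (Function.update (Function.update I p i₁) q (z i)) else 0) =
        if Function.update I p i₁ q = i₁ then f I else 0 := by
      intro q
      split_ifs with hq
      · refine hf2 _ _ (Sym.coe_injective ?_)
        rw [update_ms, update_ms, hq, Multiset.erase_cons_head, hp]
        refine Multiset.cons_erase ?_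
        rw [ms_coe]
        exact Multiset.mem_map.2 ⟨p, Finset.mem_univ p, hp⟩
      · rfl
    rw [Finset.sum_congr rfl fun q _ => h2 q, ← Finset.sum_filter, Finset.sum_const] at h1
    have h3 : (Finset.univ.filter fun q => Function.update I p i₁ q = i₁).card ≠ 0 := by
      rw [Finset.card_ne_zero]
      exact ⟨p, Finset.mem_filter.2 ⟨Finset.mem_univ p, Function.update_self _ _ _⟩⟩
    funext a
    have h4 := congrFun h1 a
    rw [Pi.smul_apply, Pi.zero_apply, nsmul_eq_mul] at h4
    exact (mul_eq_zero.1 h4).resolve_left (Nat.cast_ne_zero.2 h3)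
  let P : ι → Prop := fun j => j ∉ Finset.univ.image z
  let rep : Sym {j : ι // P j} n → (Fin n → {j : ι // P j}) :=
    Function.surjInv (ms_surjective n)
  have hrep : ∀ s, ms (rep s) = s := Function.surjInv_eq (ms_surjective n)
  let g : comE (k := k) (σ := σ) n z i₁ →ₗ[k] (Sym {j : ι // P j} n → (σ → k)) :=
    { toFun := fun f s => f.1 fun q => (rep s q).1
      map_add' := fun _ _ => rfl
      map_smul' := fun _ _ => rfl }
  have hg : Function.Injective g := by
    rw [injective_iff_map_eq_zero]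
    rintro ⟨f, hf⟩ hgf
    apply Subtype.ext
    funext I
    by_cases hI : ∃ p i, I p = z i
    · obtain ⟨p, i, hp⟩ := hI
      exact h0 f hf I p i hp
    · push Not at hI
      have hP : ∀ q, P (I q) := by
        intro q hq
        obtain ⟨i, -, hi⟩ := Finset.mem_image.1 hq
        exact hI q i hi.symm
      let I' : Fin n → {j : ι // P j} := fun q => ⟨I q, hP q⟩
      have h1 := congrFun hgf (ms I')
      have h2 : ms (fun q => (rep (ms I') q).1) = ms I := by
        apply Sym.coe_injective
        have h3 := congrArg (fun s : Sym {j : ι // P j} n =>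
          ((s : Multiset {j : ι // P j}).map Subtype.val)) (hrep (ms I'))
        simp only [ms_coe, Multiset.map_map] at h3
        rw [ms_coe, ms_coe]
        exact h3
      exact (hf.1 _ _ h2.symm).trans h1
  have h1 := LinearMap.finrank_le_finrank_of_injective hg
  rw [Module.finrank_pi_fintype, Finset.sum_const, Module.finrank_fintype_fun_eq_card,
    Finset.card_univ, Sym.card_sym_eq_multichoose, smul_eq_mul, mul_comm] at h1
  have h2 : Fintype.card {j : ι // P j} = Fintype.card ι - d := by
    have h3 : Fintype.card {j : ι // j ∈ Finset.univ.image z} = d := by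
      rw [Fintype.card_coe, Finset.card_image_of_injective _ hz, Finset.card_univ, Fintype.card_fin]
    rw [Fintype.card_subtype_compl (fun j => j ∈ Finset.univ.image z), h3]
  rwa [h2] at h1

/-- the weights -/
def wtZ {d : ℕ} (z : Fin d → ι) (i₁ j : ι) : ℕ :=
  if j ∈ Finset.univ.image z then 0 else if j = i₁ then 2 else 1

theorem wtZ_update {d : ℕ} (z : Fin d → ι) (i₁ : ι) {n : ℕ} (I : Fin n → ι) (p : Fin n) (j : ι) :
    (∑ q, wtZ z i₁ (Function.update I p j q)) + wtZ z i₁ (I p) =
      (∑ q, wtZ z i₁ (I q)) + wtZ z i₁ j := by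
  rw [← Finset.add_sum_erase Finset.univ _ (Finset.mem_univ p),
    ← Finset.add_sum_erase Finset.univ (fun q => wtZ z i₁ (I q)) (Finset.mem_univ p),
    Function.update_self, Finset.sum_congr rfl fun q hq => by
      rw [Function.update_of_ne (Finset.ne_of_mem_erase hq)]]
  ring

theorem sym_HZ {d : ℕ} {z : Fin d → ι} {i₁ : ι} (hz : Function.Injective z)
    (hz1 : ∀ i, z i ≠ i₁) (n : ℕ) (i : Fin d) {x : Matrix ι ι k}
    (hx : ∀ i', x i₁ (z i') = if i' = i then 1 else 0) (y : Matrix σ σ k) (m : ℕ)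
    (M : (Fin n → ι) → (σ → k))
    (hM : ∀ J : Fin n → ι, m < ∑ q, wtZ z i₁ (J q) → M J = 0) (hZ : ZZ n x y M = 0) :
    EV k σ (z i) i₁ n (part k (fun I : Fin n → ι => ∑ q, wtZ z i₁ (I q)) m M) = 0 := by
  classical
  have w0 : ∀ i, wtZ z i₁ (z i) = 0 := fun i => by
    unfold wtZ
    rw [if_pos (Finset.mem_image_of_mem _ (Finset.mem_univ i))]
  have hi1 : i₁ ∉ Finset.univ.image z := by
    intro h
    obtain ⟨i, -, hi⟩ := Finset.mem_image.1 h
    exact hz1 i hi
  have w1 : wtZ z i₁ i₁ = 2 := by
    unfold wtZ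
    rw [if_neg hi1, if_pos rfl]
  have w2 : ∀ j, wtZ z i₁ j ≤ 2 := by
    intro j
    unfold wtZ
    split_ifs <;> omega
  have w3 : ∀ j, 2 ≤ wtZ z i₁ j → j = i₁ := by
    intro j hj
    unfold wtZ at hj
    split_ifs at hj with h1 h2
    · omega
    · exact h2
    · omega
  have w4 : ∀ j, wtZ z i₁ j = 0 → ∃ i, j = z i := by
    intro j hj
    unfold wtZ at hj
    split_ifs at hj with h1 h2
    obtain ⟨i, -, hi⟩ := Finset.mem_image.1 h1
    exact ⟨i, hi.symm⟩
  funext I
  rw [EV_apply, Pi.zero_apply]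
  by_cases hI : ∑ q, wtZ z i₁ (I q) = m + 2
  · funext a
    have h2 : (∑ p, ∑ j, x (I p) j * M (Function.update I p j) a) + ∑ b, M I b * y b a = 0 :=
      (ZZ_entry n x y M I a).symm.trans (congrFun (congrFun hZ I) a)
    have h3 : ∑ b, M I b * y b a = 0 := by
      refine Finset.sum_eq_zero fun b _ => ?_
      have h4 : M I = 0 := hM I (by omega)
      rw [h4, Pi.zero_apply, zero_mul]
    rw [h3, add_zero] at h2
    rw [Finset.sum_apply]
    refine Eq.trans (Finset.sum_congr rfl fun p _ => ?_) h2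
    have h5 : ∀ j, M (Function.update I p j) a ≠ 0 → I p = i₁ ∧ ∃ i', j = z i' := by
      intro j hj
      have h6 : ¬ m < ∑ q, wtZ z i₁ (Function.update I p j q) := by
        intro h7
        exact hj (congrFun (hM _ h7) a)
      have h8 := wtZ_update z i₁ I p j
      have h9 := w2 (I p)
      exact ⟨w3 _ (by omega), w4 _ (by omega)⟩
    by_cases hp : I p = i₁
    · rw [if_pos hp, part_apply, Finset.sum_eq_single (z i)]
      · have h8 := wtZ_update z i₁ I p (z i)
        rw [hp, w1, w0] at h8
        rw [if_pos (by omega), hp, hx, if_pos rfl, one_mul]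
      · intro j _ hj
        by_contra hne
        obtain ⟨-, i', hi'⟩ := h5 j (right_ne_zero_of_mul hne)
        apply left_ne_zero_of_mul hne
        rw [hi', hp, hx, if_neg]
        rintro rfl
        exact hj hi'
      · intro h; exact absurd (Finset.mem_univ _) h
    · rw [if_neg hp, Pi.zero_apply]
      symm
      refine Finset.sum_eq_zero fun j _ => ?_
      by_contra hne
      exact hp (h5 j (right_ne_zero_of_mul hne)).1
  · refine Finset.sum_eq_zero fun p _ => ?_
    split_ifs with hp
    · rw [part_apply, if_neg]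
      have h8 := wtZ_update z i₁ I p (z i)
      rw [hp, w1, w0] at h8
      omega
    · rfl

theorem finrank_comK_le [CharZero k] (n : ℕ) {d : ℕ} {z : Fin d → ι} {i₁ : ι}
    (hz : Function.Injective z) (hz1 : ∀ i, z i ≠ i₁) {x : Fin d → Matrix ι ι k}
    (hx : ∀ i i', x i i₁ (z i') = if i' = i then 1 else 0) (y : Fin d → Matrix σ σ k) :
    finrank k (comK n x y) ≤ Fintype.card σ * (Fintype.card ι - d).multichoose n := by
  refine le_trans ?_ (finrank_comE (k := k) (σ := σ) n hz hz1)
  refine symbol_le' (fun I : Fin n → ι => ∑ q, wtZ z i₁ (I q)) (comK n x y)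
    (comE (k := k) (σ := σ) n z i₁) ?_
  rintro m M hM ⟨hS, hZ⟩
  refine ⟨?_, fun i => sym_HZ hz hz1 n i (hx i) (y i) m M hM (hZ i)⟩
  intro I J hIJ
  obtain ⟨π, hπ⟩ := exists_perm hIJ
  rw [part_apply, part_apply]
  have h1 : ∑ q, wtZ z i₁ (J q) = ∑ q, wtZ z i₁ (I q) := by
    rw [hπ]
    exact Equiv.sum_comp π (fun q => wtZ z i₁ (I q))
  rw [h1]
  split_ifs
  · funext a
    exact hS I J a hIJ
  · rfl

theorem finrank_comK_conj (n : ℕ) {d : ℕ} {x : Fin d → Matrix ι ι k} {P Q : Matrix ι ι k}
    (hPQ : P * Q = 1) (y : Fin d → Matrix σ σ k) :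
    finrank k (comK n x y) ≤ finrank k (comK n (fun i => Q * x i * P) y) := by
  have h2 : ∀ i, tpow n Q * tder n (x i) = tder n (Q * x i * P) * tpow n Q := by
    intro i
    refine tpow_tder n ?_
    rw [mul_assoc _ P Q, hPQ, mul_one]
  let j : comK n x y →ₗ[k] comK n (fun i => Q * x i * P) y :=
    LinearMap.codRestrict _
      ({ toFun := fun M => tpow n Q * M.1
         map_add' := fun M N => Matrix.mul_add _ _ _
         map_smul' := fun c M => Matrix.mul_smul _ _ _ } :
        comK n x y →ₗ[k] Matrix (Fin n → ι) σ k) (by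
      rintro ⟨M, hM', hM⟩
      refine ⟨symT_tpow Q hM', fun i => ?_⟩
      have hMi := hM i
      rw [ZZ_apply] at hMi
      show tder n (Q * x i * P) * (tpow n Q * M) + tpow n Q * M * y i = 0
      rw [← Matrix.mul_assoc, ← h2, Matrix.mul_assoc, Matrix.mul_assoc, ← Matrix.mul_add, hMi,
        Matrix.mul_zero])
  refine LinearMap.finrank_le_finrank_of_injective (f := j) fun M N hMN => ?_
  have h3 : tpow n Q * M.1 = tpow n Q * N.1 := congrArg Subtype.val hMN
  have h4 := congrArg (fun X => tpow n P * X) h3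
  simp only [← Matrix.mul_assoc] at h4
  rw [← tpow_mul, hPQ, tpow_one, Matrix.one_mul, Matrix.one_mul] at h4
  exact Subtype.ext h4

theorem sumExtend_inl {K V τ : Type*} [Field K] [AddCommGroup V] [Module K V] {v : τ → V}
    (hs : LinearIndependent K v) (i : τ) : Basis.sumExtend hs (Sum.inl i) = v i := by
  simp [Basis.sumExtend]
  rfl

/-- **Common kernels.** If the vectors `(x i)ᵀ ξ` and `ξ` are linearly independent, the common kernel of
the matrices `x i` (twisted by `y i`) on the symmetric tensors of degree `n` has dimension at most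
`s * multichoose (r - d) n`. -/
theorem common_kernel_bound [CharZero k] (n : ℕ) {d : ℕ} {x : Fin d → Matrix ι ι k}
    (y : Fin d → Matrix σ σ k) {ξ : ι → k}
    (hξ : LinearIndependent k (Fin.cons ξ (fun i => (x i)ᵀ *ᵥ ξ) : Fin (d + 1) → (ι → k))) :
    d + 1 ≤ Fintype.card ι ∧
    finrank k (comK n x y) ≤ Fintype.card σ * (Fintype.card ι - d).multichoose n := by
  classical
  have hcard : d + 1 ≤ Fintype.card ι := by
    have := hξ.fintype_card_le_finrank
    rwa [Fintype.card_fin, Module.finrank_fintype_fun_eq_card] at this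
  refine ⟨hcard, ?_⟩
  let b₀ := Basis.sumExtend hξ
  have hfin : Finite (Fin (d + 1) ⊕ Basis.sumExtendIndex hξ) := Module.Finite.finite_basis b₀
  have hft : Fintype (Fin (d + 1) ⊕ Basis.sumExtendIndex hξ) := Fintype.ofFinite _
  have hc : Fintype.card (Fin (d + 1) ⊕ Basis.sumExtendIndex hξ) = Fintype.card ι := by
    rw [← Module.finrank_eq_card_basis b₀, Module.finrank_fintype_fun_eq_card]
  let e : (Fin (d + 1) ⊕ Basis.sumExtendIndex hξ) ≃ ι := Fintype.equivOfCardEq hc
  let b := b₀.reindex e
  have hb : ∀ j : Fin (d + 1), b (e (Sum.inl j)) =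
      (Fin.cons ξ (fun i => (x i)ᵀ *ᵥ ξ) : Fin (d + 1) → (ι → k)) j := by
    intro j
    rw [Basis.reindex_apply, Equiv.symm_apply_apply]
    exact sumExtend_inl hξ j
  -- the matrix whose rows are the basis vectors
  let Q : Matrix ι ι k := Matrix.of fun i j => b i j
  have hQ : IsUnit Q := by
    have h1 : LinearIndependent k Q.row := by
      have : Q.row = b := rfl
      rw [this]
      exact b.linearIndependent
    exact Matrix.linearIndependent_rows_iff_isUnit.1 h1
  have hdet : IsUnit Q.det := (Matrix.isUnit_iff_isUnit_det Q).1 hQ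
  let i₁ : ι := e (Sum.inl 0)
  let z : Fin d → ι := fun i => e (Sum.inl i.succ)
  have hz : Function.Injective z := by
    intro i j h
    exact Fin.succ_injective _ (Sum.inl_injective (e.injective h))
  have hz1 : ∀ i, z i ≠ i₁ := by
    intro i h
    exact Fin.succ_ne_zero i (Sum.inl_injective (e.injective h))
  have hx : ∀ i i', (Q * x i * Q⁻¹) i₁ (z i') = if i' = i then 1 else 0 := by
    intro i i'
    have h1 : ∀ j, (Q * x i) i₁ j = Q (z i) j := by
      intro j
      rw [Matrix.mul_apply]
      have h2 : ∀ l, Q i₁ l = ξ l := fun l => congrFun (hb 0) l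
      have h3 : Q (z i) j = ((x i)ᵀ *ᵥ ξ) j := congrFun (hb i.succ) j
      rw [h3, Matrix.mulVec, dotProduct]
      refine Finset.sum_congr rfl fun l _ => ?_
      rw [h2, Matrix.transpose_apply, mul_comm]
    have h2 : (Q * x i * Q⁻¹) i₁ (z i') = (Q * Q⁻¹) (z i) (z i') := by
      rw [Matrix.mul_apply, Matrix.mul_apply]
      exact Finset.sum_congr rfl fun j _ => by rw [h1]
    rw [h2, Matrix.mul_nonsing_inv _ hdet, Matrix.one_apply]
    by_cases h : i' = i
    · rw [h, if_pos rfl, if_pos rfl]
    · rw [if_neg h, if_neg fun h' => h (hz h').symm]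
  exact (finrank_comK_conj n (P := Q⁻¹) (Q := Q) (Matrix.nonsing_inv_mul _ hdet) y).trans
    (finrank_comK_le n hz hz1 hx y)

end Pool.Agent.D0H93.PC
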