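import Pool.Agent.D0H93.PC.MainS
import Pool.Agent.D0H93.PC.SymB
import Pool.Agent.D0H93.PC.DegDefs

/-!
# Transcendence degrees of solutions and the differential Galois Lie algebra
-/

set_option autoImplicit false
set_option linter.unusedSectionVars false
set_option linter.unusedVariables false

open Matrix Module

namespace Pool.Agent.D0H93.PC

open Pool.Agent.D0H93.MT

/-- A space of vectors which is stable under a derivation is spanned by constant vectors. -/
theorem span_const {R L : Type} [CommRing R] [Field L] [Algebra R L] (D : Derivation R L L)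
    {m : Type} [Fintype m] (W : Submodule L (m → L))
    (hW : ∀ w ∈ W, (fun i => D (w i)) ∈ W) (w : m → L) (hw : w ∈ W) :
    w ∈ Submodule.span L {c | c ∈ W ∧ ∀ i, D (c i) = 0} := by
  classical
  obtain ⟨t, ht⟩ : ∃ t, t = (Finset.univ.filter fun i => w i ≠ 0).card := ⟨_, rfl⟩
  induction t using Nat.strong_induction_on generalizing w with
  | _ t ih =>
    by_cases h0 : ∃ j, w j ≠ 0
    swap
    · push Not at h0
      have : w = 0 := funext h0
      rw [this]
      exact Submodule.zero_mem _
    obtain ⟨j, hj⟩ := h0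
    -- normalize
    set v : m → L := (w j)⁻¹ • w with hv
    have hvW : v ∈ W := W.smul_mem _ hw
    have hvj : v j = 1 := by
      rw [hv, Pi.smul_apply, smul_eq_mul, inv_mul_cancel₀ hj]
    have hvs : ∀ i, v i = 0 ↔ w i = 0 := by
      intro i
      rw [hv, Pi.smul_apply, smul_eq_mul, mul_eq_zero]
      constructor
      · rintro (h | h)
        · exact absurd h (inv_ne_zero hj)
        · exact h
      · exact Or.inr
    have hfil : (Finset.univ.filter fun i => v i ≠ 0).card = t := by
      rw [ht]
      congr 1
      ext i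
      simp only [Finset.mem_filter, Finset.mem_univ, true_and, ne_eq, hvs]
    suffices hvspan : v ∈ Submodule.span L {c | c ∈ W ∧ ∀ i, D (c i) = 0} by
      have h1 : w = w j • v := by
        rw [hv, smul_smul, mul_inv_cancel₀ hj, one_smul]
      rw [h1]
      exact Submodule.smul_mem _ _ hvspan
    have hsmall : ∀ u ∈ W, (∀ i, v i = 0 → u i = 0) → (∃ i, v i ≠ 0 ∧ u i = 0) →
        u ∈ Submodule.span L {c | c ∈ W ∧ ∀ i, D (c i) = 0} := by
      intro u hu h1 h2
      refine ih _ ?_ u hu rfl
      rw [← hfil]
      refine Finset.card_lt_card (Finset.ssubset_iff_subset_ne.2 ⟨?_, ?_⟩)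
      · intro i hi
        rw [Finset.mem_filter] at hi ⊢
        exact ⟨Finset.mem_univ _, fun h => hi.2 (h1 i h)⟩
      · intro heq
        obtain ⟨i, hi1, hi2⟩ := h2
        have : i ∈ Finset.univ.filter fun i => u i ≠ 0 := by
          rw [heq, Finset.mem_filter]
          exact ⟨Finset.mem_univ _, hi1⟩
        rw [Finset.mem_filter] at this
        exact this.2 hi2
    by_cases hc : ∀ i, D (v i) = 0
    · exact Submodule.subset_span ⟨hvW, hc⟩
    · push Not at hc
      obtain ⟨i, hi⟩ := hc
      have h1 : (fun i => D (v i)) ∈ Submodule.span L {c | c ∈ W ∧ ∀ i, D (c i) = 0} := by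
        refine hsmall _ (hW v hvW) (fun l hl => by rw [hl, map_zero]) ⟨j, ?_, ?_⟩
        · rw [hvj]; exact one_ne_zero
        · show D (v j) = 0
          rw [hvj, Derivation.map_one_eq_zero]
      have hvi : v i ≠ 0 := by
        intro h
        rw [h, map_zero] at hi
        exact hi rfl
      have h2 : v - (v i / D (v i)) • (fun i => D (v i)) ∈
          Submodule.span L {c | c ∈ W ∧ ∀ i, D (c i) = 0} := by
        refine hsmall _ (W.sub_mem hvW (W.smul_mem _ (hW v hvW))) (fun l hl => ?_) ⟨i, hvi, ?_⟩
        · show v l - (v i / D (v i)) * D (v l) = 0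
          rw [hl, map_zero, mul_zero, sub_zero]
        · show v i - (v i / D (v i)) * D (v i) = 0
          rw [div_mul_cancel₀ _ hi, sub_self]
      have h3 : v = (v - (v i / D (v i)) • (fun i => D (v i))) +
          (v i / D (v i)) • (fun i => D (v i)) := by
        rw [sub_add_cancel]
      rw [h3]
      exact Submodule.add_mem _ h2 (Submodule.smul_mem _ _ h1)

variable {k L : Type} [Field k] [Field L] [CharZero L] [Algebra k L] {X : DiffExt k L}
  {ι σ : Type} [Fintype ι] [DecidableEq ι] [Fintype σ] [DecidableEq σ]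

/-- Derivations which separate algebraically independent elements. -/
theorem exists_dual_derivations {d : ℕ} {a : Fin d → L} (ha : AlgebraicIndependent X.K a) (j : Fin d) :
    ∃ D : Derivation X.K L L, D (a j) ≠ 0 ∧ ∀ i, i ≠ j → D (a i) = 0 := by
  have h1 : Transcendental (Algebra.adjoin X.K (a '' {j}ᶜ)) (a j) :=
    ha.transcendental_adjoin (by simp)
  have h2 : Transcendental (IntermediateField.adjoin X.K (a '' {j}ᶜ)) (a j) :=
    IntermediateField.transcendental_adjoin_iff.2 h1
  have : CharZero (IntermediateField.adjoin X.K (a '' {j}ᶜ)) :=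
    charZero_of_injective_algebraMap (algebraMap X.K _).injective
  obtain ⟨D, hD⟩ := exists_derivation h2
  refine ⟨D.restrictScalars X.K, hD, fun i hi => ?_⟩
  exact D.map_algebraMap (⟨a i, IntermediateField.subset_adjoin _ _ ⟨i, hi, rfl⟩⟩ :
    IntermediateField.adjoin X.K (a '' {j}ᶜ))

/-- A derivation which multiplies `w` by a scalar kills the field generated by the quotients. -/
theorem kills_quotients {D : Derivation X.K L L} {w : ι → L} {c : L} (h : ∀ i, D (w i) = c * w i)
    {a : L} (ha : a ∈ IntermediateField.adjoin X.K (Set.range fun p : ι × ι => w p.1 / w p.2)) :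
    D a = 0 := by
  induction ha using IntermediateField.adjoin_induction with
  | mem x hx =>
    obtain ⟨p, rfl⟩ := hx
    show D (w p.1 / w p.2) = 0
    by_cases h0 : w p.2 = 0
    · rw [h0, div_zero, map_zero]
    · rw [Derivation.leibniz_div, h, h]
      simp only [smul_eq_mul]
      ring
  | algebraMap x => exact D.map_algebraMap x
  | add x y _ _ hx hy => rw [map_add, hx, hy, add_zero]
  | inv x _ hx => rw [Derivation.leibniz_inv, hx, smul_zero]
  | mul x y _ _ hx hy => rw [Derivation.leibniz, hx, hy, smul_zero, smul_zero, add_zero]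

/-- Solutions of the dual system. -/
theorem exists_dual_const (M : LinSystem X ι) {w : ι → L}
    (hw : ∀ i, X.δ (w i) = -(M.Aᵀ *ᵥ w) i) : ∃ ξ : ι → k,
      w = (M.F⁻¹)ᵀ *ᵥ fun i => algebraMap k L (ξ i) := by
  have h1 : ∀ i, X.δ ((M.Fᵀ *ᵥ w) i) = 0 := by
    intro i
    have e1 : X.δ ((M.Fᵀ *ᵥ w) i) = ((M.F.map X.δ)ᵀ *ᵥ w) i - (M.Fᵀ *ᵥ (M.Aᵀ *ᵥ w)) i := by
      rw [Matrix.mulVec, dotProduct, map_sum, Matrix.mulVec, dotProduct, Matrix.mulVec, dotProduct,
        ← Finset.sum_sub_distrib]
      refine Finset.sum_congr rfl fun l _ => ?_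
      rw [Derivation.leibniz, hw, smul_eq_mul, smul_eq_mul, Matrix.transpose_apply,
        Matrix.transpose_apply, Matrix.map_apply]
      ring
    rw [e1, M.sol, Matrix.transpose_mul, Matrix.mulVec_mulVec, sub_self]
  choose ξ hξ using fun i => X.const _ (h1 i)
  refine ⟨ξ, ?_⟩
  have h2 : (fun i => algebraMap k L (ξ i)) = M.Fᵀ *ᵥ w := funext hξ
  rw [h2, Matrix.mulVec_mulVec, ← Matrix.transpose_mul, M.mul_inv, Matrix.transpose_one,
    Matrix.one_mulVec]

/-- Evaluation of the logarithmic derivative at `ξ`. -/
noncomputable def evL (σ : Type) [Fintype σ] (ξ : ι → k) :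
    (((ι × ι) ⊕ (σ × σ)) → L) →ₗ[L] (ι → L) where
  toFun w := fun i => ∑ l, w (Sum.inl (l, i)) * algebraMap k L (ξ l)
  map_add' v w := by
    funext i
    simp only [Pi.add_apply, add_mul, Finset.sum_add_distrib]
  map_smul' c v := by
    funext i
    simp only [Pi.smul_apply, smul_eq_mul, RingHom.id_apply, Finset.mul_sum, mul_assoc]

/-- Enough elements of the Lie algebra. -/
theorem exists_lie_family (N : LinSystem X σ) (M : LinSystem X ι) {w : ι → L}
    (hw : ∀ i, X.δ (w i) = -(M.Aᵀ *ᵥ w) i) {d : ℕ} (hd : HasDeg X w d) (hd0 : 0 < d) :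
    ∃ (ξ : ι → k) (D : Fin d → Derivation X.K L L) (x : Fin d → Matrix ι ι k)
      (y : Fin d → Matrix σ σ k),
      LinearIndependent k (Fin.cons ξ (fun i => (x i)ᵀ *ᵥ ξ) : Fin (d + 1) → (ι → k)) ∧
      (∀ i, M.F⁻¹ * M.F.map (D i) = (x i).map (algebraMap k L)) ∧
      ∀ i, N.F⁻¹ * N.F.map (D i) = (y i).map (algebraMap k L) := by
  classical
  obtain ⟨ξ, hξ⟩ := exists_dual_const M hw
  obtain ⟨a, ha, haw⟩ := hd
  choose D₀ hD₀ hD₀' using fun j => exists_dual_derivations (X := X) ha j
  let W : Submodule L (((ι × ι) ⊕ (σ × σ)) → L) := LinearMap.range (Theta N M)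
  have hW : ∀ w ∈ W, (fun i => X.δ (w i)) ∈ W := by
    rintro _ ⟨D, rfl⟩
    refine ⟨brk X D, ?_⟩
    funext q
    rcases q with p | p
    · show (M.F⁻¹ * M.F.map (brk X D)) p.1 p.2 = X.δ ((M.F⁻¹ * M.F.map D) p.1 p.2)
      rw [brk_fund]
      rfl
    · show (N.F⁻¹ * N.F.map (brk X D)) p.1 p.2 = X.δ ((N.F⁻¹ * N.F.map D) p.1 p.2)
      rw [brk_fund]
      rfl
  let ξL : ι → L := fun i => algebraMap k L (ξ i)
  -- a derivation whose value at `ξ` is proportional to `ξ` kills the quotients
  have hkill : ∀ (D : Derivation X.K L L) (c : L), evL σ ξ (Theta N M D) = c • ξL →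
      ∀ j, D (a j) = 0 := by
    intro D c h j
    refine kills_quotients (D := D) (w := w) (c := -c) (fun i => ?_) (haw j)
    have h1 : (M.F⁻¹).map D = -(M.F⁻¹ * M.F.map D * M.F⁻¹) := by
      have h2 : (M.F⁻¹ * M.F).map D = 0 := by rw [M.inv_mul, md_one]
      rw [mdm] at h2
      have h3 := congrArg (fun Y => Y * M.F⁻¹) h2
      simp only [Matrix.add_mul, Matrix.zero_mul] at h3
      rw [Matrix.mul_assoc _ M.F, M.mul_inv, Matrix.mul_one] at h3
      exact eq_neg_of_add_eq_zero_left h3
    have h4 : ∀ l, ∑ q, (M.F⁻¹ * M.F.map D) q l * ξL q = c * ξL l := fun l => congrFun h l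
    have h5 : w i = ∑ q, M.F⁻¹ q i * ξL q := by rw [hξ]; rfl
    have h6 : D (w i) = ∑ q, D (M.F⁻¹ q i) * ξL q := by
      rw [h5, map_sum]
      refine Finset.sum_congr rfl fun q _ => ?_
      have h7 : D (ξL q) = 0 := D.map_algebraMap (⟨_, X.const_mem (ξ q)⟩ : X.K)
      rw [Derivation.leibniz, h7, smul_zero, zero_add, smul_eq_mul, mul_comm]
    have h8 : ∀ q, D (M.F⁻¹ q i) = -∑ l, (M.F⁻¹ * M.F.map D) q l * M.F⁻¹ l i := by
      intro q
      have := congrFun (congrFun h1 q) i
      rw [Matrix.map_apply, Matrix.neg_apply, Matrix.mul_apply] at this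
      exact this
    rw [h6, h5]
    simp only [h8, neg_mul, Finset.sum_neg_distrib, Finset.sum_mul, Finset.mul_sum]
    rw [Finset.sum_comm]
    congr 1
    refine Finset.sum_congr rfl fun l _ => ?_
    calc ∑ q, (M.F⁻¹ * M.F.map D) q l * M.F⁻¹ l i * ξL q =
        M.F⁻¹ l i * ∑ q, (M.F⁻¹ * M.F.map D) q l * ξL q := by
          rw [Finset.mul_sum]
          exact Finset.sum_congr rfl fun q _ => by ring
      _ = c * (M.F⁻¹ l i * ξL l) := by rw [h4]; ring
  -- the vectors are independent over `L`
  have hindL : LinearIndependent L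
      (Fin.cons ξL (fun j => evL σ ξ (Theta N M (D₀ j))) : Fin (d + 1) → (ι → L)) := by
    rw [Fintype.linearIndependent_iff]
    intro g hg
    rw [Fin.sum_univ_succ] at hg
    simp only [Fin.cons_zero, Fin.cons_succ] at hg
    have h1 : evL σ ξ (Theta N M (∑ j, g j.succ • D₀ j)) = (-g 0) • ξL := by
      rw [map_sum, map_sum]
      simp only [map_smul]
      rw [neg_smul]
      exact eq_neg_of_add_eq_zero_right hg
    have h2 := hkill _ _ h1
    have h3 : ∀ j : Fin d, g j.succ = 0 := by
      intro j
      have h4 := h2 j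
      have hsum : ∀ s : Finset (Fin d), (∑ i ∈ s, g i.succ • D₀ i) (a j) =
          ∑ i ∈ s, (g i.succ • D₀ i) (a j) := by
        intro s
        induction s using Finset.induction_on with
        | empty => rw [Finset.sum_empty, Finset.sum_empty, Derivation.coe_zero, Pi.zero_apply]
        | insert x s hx ih => rw [Finset.sum_insert hx, Finset.sum_insert hx,
            Derivation.add_apply, ih]
      rw [hsum, Finset.sum_eq_single j] at h4
      · rw [Derivation.coe_smul, Pi.smul_apply, smul_eq_mul] at h4
        exact (mul_eq_zero.1 h4).resolve_right (hD₀ j)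
      · intro i _ hij
        rw [Derivation.coe_smul, Pi.smul_apply, hD₀' i j (Ne.symm hij), smul_zero]
      · intro h; exact absurd (Finset.mem_univ _) h
    have hξ0 : ξL ≠ 0 := by
      intro h
      have h5 : evL σ ξ (Theta N M (D₀ ⟨0, hd0⟩)) = (0 : L) • ξL := by
        rw [zero_smul]
        funext i
        show ∑ l, _ * ξL l = 0
        refine Finset.sum_eq_zero fun l _ => ?_
        rw [show ξL l = 0 from congrFun h l, mul_zero]
      exact hD₀ _ (hkill _ _ h5 ⟨0, hd0⟩)
    have h6 : g 0 = 0 := by
      simp only [h3, zero_smul, Finset.sum_const_zero, add_zero] at hg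
      exact (smul_eq_zero.1 hg).resolve_right hξ0
    intro i
    refine Fin.cases h6 h3 i
  -- the constants of `W`
  let 𝔤 : Set (((ι × ι) ⊕ (σ × σ)) → k) := {c | (fun q => algebraMap k L (c q)) ∈ W}
  let evk : (((ι × ι) ⊕ (σ × σ)) → k) → (ι → k) := fun c i => ∑ l, c (Sum.inl (l, i)) * ξ l
  have hevk : ∀ c, (fun i => algebraMap k L (evk c i)) = evL σ ξ (fun q => algebraMap k L (c q)) := by
    intro c
    funext i
    show algebraMap k L (∑ l, c (Sum.inl (l, i)) * ξ l) = _
    rw [map_sum]
    exact Finset.sum_congr rfl fun l _ => by rw [map_mul]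
  -- greedy choice
  have hgreedy : ∀ e ≤ d, ∃ c : Fin e → (((ι × ι) ⊕ (σ × σ)) → k), (∀ i, c i ∈ 𝔤) ∧
      LinearIndependent k (Fin.cons ξ (fun i => evk (c i)) : Fin (e + 1) → (ι → k)) := by
    intro e
    induction e with
    | zero =>
      intro _
      refine ⟨fun i => i.elim0, fun i => i.elim0, ?_⟩
      have hξ0 : ξ ≠ 0 := by
        intro h
        have h1 := hindL.ne_zero 0
        apply h1
        rw [Fin.cons_zero]
        funext i
        show algebraMap k L (ξ i) = 0
        rw [h]
        exact map_zero _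
      rw [Fintype.linearIndependent_iff]
      intro g hg i
      rw [Fin.sum_univ_succ] at hg
      simp only [Fin.cons_zero, Finset.univ_eq_empty, Finset.sum_empty, add_zero] at hg
      have : i = 0 := Fin.fin_one_eq_zero i
      rw [this]
      exact (smul_eq_zero.1 hg).resolve_right hξ0
    | succ e ih =>
      intro he
      obtain ⟨c, hc, hind⟩ := ih (by omega)
      -- some element of `𝔤` has a value outside of the span
      obtain ⟨c', hc', hout⟩ : ∃ c' ∈ 𝔤, evk c' ∉ Submodule.span k
          (Set.range (Fin.cons ξ (fun i => evk (c i)) : Fin (e + 1) → (ι → k))) := by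
        by_contra hcon
        push Not at hcon
        -- then all the values over `L` are in the span over `L`
        let U : Submodule L (ι → L) := Submodule.span L (Set.range
          (fun j : Fin (e + 1) => fun i => algebraMap k L
            ((Fin.cons ξ (fun i => evk (c i)) : Fin (e + 1) → (ι → k)) j i)))
        have hU : ∀ v : ι → k, v ∈ Submodule.span k
            (Set.range (Fin.cons ξ (fun i => evk (c i)) : Fin (e + 1) → (ι → k))) →
            (fun i => algebraMap k L (v i)) ∈ U := by
          intro v hv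
          induction hv using Submodule.span_induction with
          | mem v hv =>
            obtain ⟨j, rfl⟩ := hv
            exact Submodule.subset_span ⟨j, rfl⟩
          | zero =>
            have : (fun i : ι => algebraMap k L ((0 : ι → k) i)) = 0 := by
              funext i
              simp
            rw [this]
            exact U.zero_mem
          | add v v' _ _ h1 h2 =>
            have : (fun i : ι => algebraMap k L ((v + v') i)) =
                (fun i => algebraMap k L (v i)) + fun i => algebraMap k L (v' i) := by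
              funext i
              simp
            rw [this]
            exact U.add_mem h1 h2
          | smul b v _ h1 =>
            have : (fun i : ι => algebraMap k L ((b • v) i)) =
                (algebraMap k L b) • fun i => algebraMap k L (v i) := by
              funext i
              simp
            rw [this]
            exact U.smul_mem _ h1
        have hWU : ∀ v ∈ W, evL σ ξ v ∈ U := by
          intro v hv
          have h1 := span_const X.δ W hW v hv
          induction h1 using Submodule.span_induction with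
          | mem v hv' =>
            obtain ⟨hv1, hv2⟩ := hv'
            choose g hg using fun q => X.const _ (hv2 q)
            have h2 : (fun q => algebraMap k L (g q)) = v := funext hg
            have h3 := hcon g (show (fun q => algebraMap k L (g q)) ∈ W by rw [h2]; exact hv1)
            have h4 := hU _ h3
            rw [hevk, h2] at h4
            exact h4
          | zero => rw [map_zero]; exact U.zero_mem
          | add v v' hv1 hv2 h1 h2 =>
            have hle : Submodule.span L {c | c ∈ W ∧ ∀ i, X.δ (c i) = 0} ≤ W :=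
              Submodule.span_le.2 fun c hc => hc.1
            rw [map_add]
            exact U.add_mem (h1 (hle hv1)) (h2 (hle hv2))
          | smul b v hv1 h1 =>
            have hle : Submodule.span L {c | c ∈ W ∧ ∀ i, X.δ (c i) = 0} ≤ W :=
              Submodule.span_le.2 fun c hc => hc.1
            rw [map_smul]
            exact U.smul_mem _ (h1 (hle hv1))
        have hξU : ξL ∈ U := by
          have h1 := hU ξ (Submodule.subset_span ⟨0, by rw [Fin.cons_zero]⟩)
          exact h1
        have hall : ∀ j : Fin (d + 1),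
            (Fin.cons ξL (fun j => evL σ ξ (Theta N M (D₀ j))) : Fin (d + 1) → (ι → L)) j ∈ U := by
          intro j
          refine Fin.cases ?_ (fun j => ?_) j
          · rw [Fin.cons_zero]; exact hξU
          · rw [Fin.cons_succ]; exact hWU _ ⟨D₀ j, rfl⟩
        have hle : Submodule.span L (Set.range
            (Fin.cons ξL (fun j => evL σ ξ (Theta N M (D₀ j))) : Fin (d + 1) → (ι → L))) ≤ U :=
          Submodule.span_le.2 (by rintro _ ⟨j, rfl⟩; exact hall j)
        have h1 := Submodule.finrank_mono hle
        rw [finrank_span_eq_card hindL, Fintype.card_fin] at h1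
        have h2 : finrank L U ≤ e + 1 := by
          have := finrank_range_le_card (R := L)
            (fun j : Fin (e + 1) => fun i => algebraMap k L
              ((Fin.cons ξ (fun i => evk (c i)) : Fin (e + 1) → (ι → k)) j i))
          rw [Fintype.card_fin] at this
          exact this
        omega
      refine ⟨Fin.snoc c c', ?_, ?_⟩
      · intro i
        refine Fin.lastCases ?_ (fun j => ?_) i
        · rw [Fin.snoc_last]; exact hc'
        · rw [Fin.snoc_castSucc]; exact hc j
      · have h1 : (Fin.cons ξ (fun i => evk ((Fin.snoc c c' : Fin (e + 1) → _) i)) :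
            Fin (e + 1 + 1) → (ι → k)) = Fin.snoc
              (Fin.cons ξ (fun i => evk (c i)) : Fin (e + 1) → (ι → k)) (evk c') := by
          funext i
          refine Fin.cases ?_ (fun j => ?_) i
          · rw [Fin.cons_zero]
            rfl
          · rw [Fin.cons_succ]
            refine Fin.lastCases ?_ (fun l => ?_) j
            · rw [Fin.snoc_last, Fin.succ_last, Fin.snoc_last]
            · rw [Fin.snoc_castSucc, Fin.succ_castSucc, Fin.snoc_castSucc, Fin.cons_succ]
        rw [h1, linearIndependent_finSnoc]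
        exact ⟨hind, hout⟩
  obtain ⟨c, hc, hind⟩ := hgreedy d le_rfl
  choose D hD using hc
  refine ⟨ξ, D, fun j => Matrix.of fun i l => c j (Sum.inl (i, l)),
    fun j => Matrix.of fun p q => c j (Sum.inr (p, q)), ?_, ?_, ?_⟩
  · have h1 : (fun j => (Matrix.of fun i l => c j (Sum.inl (i, l)))ᵀ *ᵥ ξ) =
        fun j => evk (c j) := rfl
    rw [h1]
    exact hind
  · intro j
    ext i l
    exact congrFun (hD j) (Sum.inl (i, l))
  · intro j
    ext p q
    exact congrFun (hD j) (Sum.inr (p, q))

/-- An algebraic solution is killed by the Lie algebra. -/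
theorem alg_killed (N : LinSystem X σ) (M : LinSystem X ι) {n : ℕ} {C : Matrix (Fin n → ι) σ k}
    (hU2 : ∀ I a, IsAlgebraic X.K (Phi N M n C I a)) {D : Derivation X.K L L} {x : Matrix ι ι k}
    {y : Matrix σ σ k} (hMx : M.F⁻¹ * M.F.map D = x.map (algebraMap k L))
    (hNy : N.F⁻¹ * N.F.map D = y.map (algebraMap k L)) : ZZ n x yᵀ C = 0 := by
  have h0 : (Phi N M n C).map D = 0 := by
    ext I a
    exact der_algebraic D (hU2 I a)
  have hCD : (C.map (algebraMap k L)).map D = 0 := by
    ext I a
    rw [Matrix.map_apply, Matrix.map_apply, Matrix.zero_apply]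
    exact D.map_algebraMap (⟨_, X.const_mem (C I a)⟩ : X.K)
  have h1 : (tpow n M.F).map D = tpow n M.F * tder n (x.map (algebraMap k L)) := by
    rw [map_der_tpow D n M.mul_inv, hMx]
  have h2 : N.Fᵀ.map D = (y.map (algebraMap k L))ᵀ * N.Fᵀ := by
    rw [mdT, ← Matrix.transpose_mul, ← hNy, ← Matrix.mul_assoc, N.mul_inv, Matrix.one_mul]
  rw [Phi_apply, mdm, mdm, h1, hCD, Matrix.mul_zero, add_zero, h2] at h0
  have h3 : tder n (x.map (algebraMap k L)) * C.map (algebraMap k L) +
      C.map (algebraMap k L) * (y.map (algebraMap k L))ᵀ = 0 := by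
    have h4 := congrArg (fun Y => tpow n M.F⁻¹ * Y * (N.F⁻¹)ᵀ) h0
    simp only [Matrix.mul_zero, Matrix.zero_mul] at h4
    rw [← h4]
    have e1 : tpow n M.F⁻¹ * (tpow n M.F * tder n (x.map (algebraMap k L)) *
        C.map (algebraMap k L) * N.Fᵀ) * (N.F⁻¹)ᵀ =
        (tpow n M.F⁻¹ * tpow n M.F) * (tder n (x.map (algebraMap k L)) *
        C.map (algebraMap k L)) * (N.Fᵀ * (N.F⁻¹)ᵀ) := by
      simp only [Matrix.mul_assoc]
    have e2 : tpow n M.F⁻¹ * (tpow n M.F * C.map (algebraMap k L) *
        ((y.map (algebraMap k L))ᵀ * N.Fᵀ)) * (N.F⁻¹)ᵀ =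
        (tpow n M.F⁻¹ * tpow n M.F) * (C.map (algebraMap k L) * (y.map (algebraMap k L))ᵀ) *
        (N.Fᵀ * (N.F⁻¹)ᵀ) := by
      simp only [Matrix.mul_assoc]
    rw [Matrix.mul_add, Matrix.add_mul, e1, e2, ← tpow_mul, M.inv_mul, tpow_one,
      ← Matrix.transpose_mul, N.inv_mul, Matrix.transpose_one, Matrix.one_mul, Matrix.mul_one,
      Matrix.one_mul, Matrix.mul_one]
  have h5 : (tder n x * C + C * yᵀ).map (algebraMap k L) = 0 := by
    rw [← h3]
    have e3 : tder n (x.map (algebraMap k L)) = (tder n x).map (algebraMap k L) := by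
      ext I J
      simp only [tder, Matrix.of_apply, Matrix.map_apply, map_sum]
      exact Finset.sum_congr rfl fun p _ => by split_ifs <;> simp
    rw [e3]
    ext I a
    simp only [Matrix.map_apply, Matrix.add_apply, Matrix.mul_apply, map_add, map_sum, map_mul,
      Matrix.transpose_apply]
  rw [ZZ_apply]
  ext I a
  have h6 := congrFun (congrFun h5 I) a
  rw [Matrix.map_apply, Matrix.zero_apply] at h6
  exact (algebraMap k L).injective (by rw [h6, Matrix.zero_apply, map_zero])

/-- **The law of transcendence degrees.** -/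
theorem degree_law (N : LinSystem X σ) (M : LinSystem X ι) {w : ι → L}
    (hw : ∀ i, X.δ (w i) = -(M.Aᵀ *ᵥ w) i) {d : ℕ} (hd : HasDeg X w d) (n : ℕ) :
    finrank k (symSol N M n) ≤ Fintype.card σ * (Fintype.card ι - d).multichoose n := by
  rcases Nat.eq_zero_or_pos d with h0 | h0
  · rw [h0, Nat.sub_zero]
    exact finrank_symSol_le N M n
  have : CharZero k := charZero_of_ext k L
  obtain ⟨ξ, D, x, y, hind, hx, hy⟩ := exists_lie_family N M hw hd h0
  have hle : symSol N M n ≤ (comK n x (fun i => (y i)ᵀ)).map (Phi N M n) := by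
    rintro U ⟨⟨hU1, hU2⟩, hU3⟩
    obtain ⟨C, hC⟩ := exists_Phi N M n hU1
    rw [← hC] at hU2 hU3
    exact ⟨C, ⟨(Phi_sym N M n).1 hU3, fun i => alg_killed N M hU2 (hx i) (hy i)⟩, hC⟩
  exact ((Submodule.finrank_mono hle).trans (Submodule.finrank_map_le _ _)).trans
    (common_kernel_bound n (fun i => (y i)ᵀ) hind).2

/-- The degree is smaller than the rank. -/
theorem degree_lt (M : LinSystem X ι) {w : ι → L}
    (hw : ∀ i, X.δ (w i) = -(M.Aᵀ *ᵥ w) i) {d : ℕ} (hd : HasDeg X w d) (h0 : 0 < d) :
    d + 1 ≤ Fintype.card ι := by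
  have : CharZero k := charZero_of_ext k L
  obtain ⟨ξ, D, x, y, hind, hx, hy⟩ := exists_lie_family M M hw hd h0
  exact (common_kernel_bound 0 y hind).1

end Pool.Agent.D0H93.PC
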