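import Pool.Agent.D0H93.PC.DualP
import Pool.Agent.D0H93.PC.GalB

/-!
# The exponent law
-/

set_option autoImplicit false
set_option linter.unusedSectionVars false
set_option linter.unusedVariables false

open Matrix Module PowerSeries

namespace Pool.Agent.D0H93.PC

open Pool.Agent.D0H93.MT Pool.Agent.W432.PC Pool.Agent.Y227.TP

section star

variable {k : Type} [Field k] [CharZero k] {r : ℕ}

/-- Independence over the ring of polynomials and over the field of rational functions. -/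
theorem ProjDeg.hasDeg {ι : Type} {w : ι → k⟦X⟧} {d : ℕ} (h : ProjDeg w d) :
    HasDeg (ratX k) (fun i => algebraMap k⟦X⟧ (Lk k) (w i)) d := by
  obtain ⟨a, ha, hw⟩ := h
  have hp : ∀ p : Polynomial k, algebraMap (Polynomial k) (Lk k) p =
      algebraMap k⟦X⟧ (Lk k) (p : k⟦X⟧) := fun p => by
    rw [IsScalarTower.algebraMap_apply (Polynomial k) k⟦X⟧ (Lk k)]
    rfl
  refine ⟨a, ?_, fun j => ?_⟩
  · let _ : Algebra (FractionRing (Polynomial k)) (Lk k) := (ratHom k).toAlgebra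
    have : IsScalarTower (Polynomial k) (FractionRing (Polynomial k)) (Lk k) :=
      IsScalarTower.of_algebraMap_eq fun p => (hp p).trans (ratHom_poly k p).symm
    have : Algebra.IsAlgebraic (Polynomial k) (FractionRing (Polynomial k)) :=
      IsLocalization.isAlgebraic _ (nonZeroDivisors (Polynomial k))
    have h1 : AlgebraicIndependent (FractionRing (Polynomial k)) a :=
      ha.extendScalars (FractionRing (Polynomial k))
    exact h1.ringHom_of_comp_eq (S := (ratX k).K) (B := Lk k) (ratHom k).rangeRestrictField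
      (RingHom.id (Lk k)) (ratHom k).rangeRestrictField_bijective.2 Function.injective_id rfl
  · have h2 : Subfield.closure (Set.range (algebraMap (Polynomial k) (FractionRing k⟦X⟧)) ∪
        Set.range fun p : ι × ι => algebraMap k⟦X⟧ (FractionRing k⟦X⟧) (w p.1) /
        algebraMap k⟦X⟧ (FractionRing k⟦X⟧) (w p.2)) ≤
        (IntermediateField.adjoin (ratX k).K (Set.range fun p : ι × ι =>
          algebraMap k⟦X⟧ (Lk k) (w p.1) / algebraMap k⟦X⟧ (Lk k) (w p.2))).toSubfield := by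
      rw [Subfield.closure_le]
      rintro x (⟨p, rfl⟩ | ⟨p, rfl⟩)
      · rw [hp]
        exact IntermediateField.algebraMap_mem _ (⟨_, poly_mem k p⟩ : (ratX k).K)
      · exact IntermediateField.subset_adjoin _ _ ⟨p, rfl⟩
    exact h2 (hw j)

theorem starM_dual (B C : Matrix (Fin r) (Fin r) k) : starM (-Bᵀ) (-Cᵀ) = -(starM B C)ᵀ := by
  ext i j : 1
  simp only [starM, Matrix.add_apply, Matrix.smul_apply, Matrix.map_apply, Matrix.neg_apply,
    Matrix.transpose_apply, map_neg, smul_neg]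
  rw [neg_add]

theorem isSol_dual {B C : Matrix (Fin r) (Fin r) k} {w : Fin r → k⟦X⟧} (hw : IsSol B C w) (i : Fin r) :
    (ratX k).δ (algebraMap k⟦X⟧ (Lk k) (w i)) =
      -((starSys (-Bᵀ) (-Cᵀ)).Aᵀ *ᵥ fun i => algebraMap k⟦X⟧ (Lk k) (w i)) i := by
  have h1 : (starSys (-Bᵀ) (-Cᵀ)).A = -((starM B C).map (algebraMap k⟦X⟧ (Lk k)))ᵀ := by
    show (starM (-Bᵀ) (-Cᵀ)).map (algebraMap k⟦X⟧ (Lk k)) = _
    rw [starM_dual]
    ext i j
    simp only [Matrix.map_apply, Matrix.neg_apply, Matrix.transpose_apply, map_neg]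
  rw [h1, Matrix.transpose_neg, Matrix.transpose_transpose, Matrix.neg_mulVec, Pi.neg_apply, neg_neg]
  show dL k _ = _
  rw [dL_algebraMap, congrFun hw i, Matrix.mulVec, Matrix.mulVec, dotProduct, dotProduct, map_sum]
  refine Finset.sum_congr rfl fun j _ => ?_
  rw [map_mul]
  rfl

theorem projDeg_law {B C : Matrix (Fin r) (Fin r) k} {w : Fin r → k⟦X⟧} (hw : IsSol B C w) {d : ℕ}
    (hd : ProjDeg w d) (n : ℕ) :
    finrank k (powSol (starM (symPow n (-Bᵀ)) (symPow n (-Cᵀ)))) ≤ (r - d).multichoose n := by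
  have h1 := degree_law (trivSys (ratX k)) (starSys (-Bᵀ) (-Cᵀ)) (isSol_dual hw) hd.hasDeg n
  rw [Fintype.card_unit, one_mul, Fintype.card_fin] at h1
  exact (finrank_powSol_symPow_le n _ _).trans h1

theorem projDeg_lt {B C : Matrix (Fin r) (Fin r) k} {w : Fin r → k⟦X⟧} (hw : IsSol B C w) {d : ℕ}
    (hd : ProjDeg w d) (h0 : 0 < d) : d + 1 ≤ r := by
  have h1 := degree_lt (starSys (-Bᵀ) (-Cᵀ)) (isSol_dual hw) hd.hasDeg h0
  rwa [Fintype.card_fin] at h1

end star

/-- Comparison of the growth of two binomial coefficients. -/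
theorem asympt {r e : ℕ} (hr : 2 ≤ r) (he : 1 ≤ e) (her : e ≤ r) {β : ℝ} (hβ0 : 0 < β) (R₀ : ℕ)
    (h : ∀ n : ℕ, R₀ ≤ n → 1 ≤ n →
      (((r.multichoose n : ℕ) : ℝ)) ^ β ≤ ((e.multichoose n : ℕ) : ℝ)) :
    β * ((r : ℝ) - 1) ≤ (e : ℝ) - 1 := by
  by_contra hcon
  push Not at hcon
  have hr' : (2 : ℝ) ≤ r := by exact_mod_cast hr
  set a : ℝ := β * ((r : ℝ) - 1) - ((e : ℝ) - 1) with ha
  have ha0 : 0 < a := by rw [ha]; linarith
  set K : ℝ := (r : ℝ) ^ r * ((((r - 1).factorial : ℕ) : ℝ) ^ β) with hK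
  -- choose `n`
  have hlim : Filter.Tendsto (fun n : ℕ => (n : ℝ) ^ a) Filter.atTop Filter.atTop :=
    (tendsto_rpow_atTop ha0).comp tendsto_natCast_atTop_atTop
  obtain ⟨n, hn1, hn2⟩ := ((hlim.eventually_gt_atTop K).and
    (Filter.eventually_ge_atTop (max R₀ 1))).exists
  have hnR : R₀ ≤ n := (le_max_left _ _).trans hn2
  have hn0 : 1 ≤ n := (le_max_right _ _).trans hn2
  have hnpos : (0 : ℝ) < n := by exact_mod_cast hn0
  have h4 := h n hnR hn0
  -- lower bound for the rank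
  have h5 : ((n : ℝ) ^ (r - 1)) / ((r - 1).factorial : ℝ) ≤ ((r.multichoose n : ℕ) : ℝ) := by
    have h6 := Nat.pow_le_choose (α := ℝ) (r - 1) (r + n - 1)
    have h7 : (r + n - 1).choose (r - 1) = r.multichoose n := by
      rw [Nat.multichoose_eq, ← Nat.choose_symm (by omega : n ≤ r + n - 1)]
      congr 1
      omega
    rw [h7] at h6
    refine le_trans ?_ h6
    have h8 : r + n - 1 + 1 - (r - 1) = n + 1 := by omega
    rw [h8]
    have h9 : (0 : ℝ) < ((r - 1).factorial : ℝ) := by exact_mod_cast Nat.factorial_pos _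
    gcongr
    push_cast
    linarith
  -- upper bound
  have h6 : ((e.multichoose n : ℕ) : ℝ) ≤ (r : ℝ) ^ r * (n : ℝ) ^ ((e : ℝ) - 1) := by
    have h7 : e.multichoose n ≤ (r * n) ^ (e - 1) := by
      rw [Nat.multichoose_eq, ← Nat.choose_symm (by omega : n ≤ e + n - 1)]
      have h8 : e + n - 1 - n = e - 1 := by omega
      rw [h8]
      refine (Nat.choose_le_pow _ _).trans (Nat.pow_le_pow_left ?_ _)
      have h9 : r + n ≤ r * n + 1 := by
        obtain ⟨r', rfl⟩ : ∃ r', r = r' + 1 := ⟨r - 1, by omega⟩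
        obtain ⟨n', rfl⟩ : ∃ n', n = n' + 1 := ⟨n - 1, by omega⟩
        ring_nf
        nlinarith [Nat.zero_le (r' * n')]
      omega
    have h8 : ((e.multichoose n : ℕ) : ℝ) ≤ ((r : ℝ) * n) ^ (e - 1) := by
      exact_mod_cast h7
    refine h8.trans ?_
    rw [mul_pow]
    have h9 : (n : ℝ) ^ ((e : ℝ) - 1) = (n : ℝ) ^ (e - 1) := by
      rw [← Real.rpow_natCast]
      congr 1
      rw [Nat.cast_sub he]
      push_cast
      ring
    rw [h9]
    refine mul_le_mul_of_nonneg_right ?_ (by positivity)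
    exact pow_le_pow_right₀ (by linarith) (by omega)
  have hfac : (0 : ℝ) < ((r - 1).factorial : ℝ) := by exact_mod_cast Nat.factorial_pos _
  have h7 : ((n : ℝ) ^ (r - 1) / ((r - 1).factorial : ℝ)) ^ β ≤
      (r : ℝ) ^ r * (n : ℝ) ^ ((e : ℝ) - 1) :=
    (Real.rpow_le_rpow (by positivity) h5 hβ0.le).trans (h4.trans h6)
  rw [Real.div_rpow (by positivity) hfac.le, div_le_iff₀ (Real.rpow_pos_of_pos hfac _)] at h7
  have h8 : ((n : ℝ) ^ (r - 1)) ^ β = (n : ℝ) ^ a * (n : ℝ) ^ ((e : ℝ) - 1) := by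
    rw [← Real.rpow_add hnpos, ← Real.rpow_natCast, ← Real.rpow_mul hnpos.le]
    congr 1
    rw [Nat.cast_sub (by omega : 1 ≤ r), ha]
    push_cast
    ring
  rw [h8] at h7
  have h9 : (0 : ℝ) < (n : ℝ) ^ ((e : ℝ) - 1) := Real.rpow_pos_of_pos hnpos _
  have h10 : (n : ℝ) ^ a ≤ K := by
    refine le_of_mul_le_mul_right (h7.trans (le_of_eq ?_)) h9
    rw [hK]
    ring
  exact absurd h10 (not_le.2 hn1)

/-- The symmetric powers of a system. -/
theorem ManyAlg.growth {δ : ℝ} (h : ManyAlg δ) {r : ℕ} (hr : 2 ≤ r) {B C : Matrix (Fin r) (Fin r) ℂ}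
    (hBC : PZero B C) {e : ℕ} (he : 1 ≤ e) (her : e ≤ r)
    (hn : ∀ n, numAlg (symPow n B) (symPow n C) ≤ e.multichoose n) (hδ : 0 < δ) :
    δ * ((r : ℝ) - 1) ≤ (e : ℝ) - 1 := by
  have hr' : (2 : ℝ) ≤ r := by exact_mod_cast hr
  have key : ∀ ε : ℝ, 0 < ε → ε < δ → (δ - ε) * ((r : ℝ) - 1) ≤ (e : ℝ) - 1 := by
    intro ε hε hεδ
    obtain ⟨R₀, hR₀⟩ := h ε hε
    refine asympt hr he her (by linarith) R₀ fun n hnR hn1 => ?_
    have hP : PZero (PC.symPow n B) (PC.symPow n C) := by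
      obtain ⟨m, hm⟩ : ∃ m, n = m + 1 := ⟨n - 1, by omega⟩
      rw [hm]
      exact hBC.symPow m
    have hrank : n + 1 ≤ r.multichoose n := by
      rw [Nat.multichoose_eq]
      calc n + 1 = (n + 1).choose n := by rw [Nat.choose_succ_self_right]
        _ ≤ (r + n - 1).choose n := Nat.choose_le_choose n (by omega)
    refine (hR₀ (r.multichoose n) (PC.symPow n B) (PC.symPow n C) (by omega) hP).trans ?_
    exact_mod_cast hn n
  by_contra hcon
  push Not at hcon
  set η : ℝ := δ * ((r : ℝ) - 1) - ((e : ℝ) - 1) with hη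
  have hη0 : 0 < η := by rw [hη]; linarith
  have hr1 : (0 : ℝ) < (r : ℝ) - 1 := by linarith
  set ε : ℝ := min (δ / 2) (η / (2 * ((r : ℝ) - 1))) with hε
  have hε0 : 0 < ε := by
    rw [hε]
    exact lt_min (by positivity) (by positivity)
  have hε1 : ε ≤ δ / 2 := min_le_left _ _
  have hε2 : ε * ((r : ℝ) - 1) ≤ η / 2 := by
    have h1 : ε ≤ η / (2 * ((r : ℝ) - 1)) := min_le_right _ _
    calc ε * ((r : ℝ) - 1) ≤ η / (2 * ((r : ℝ) - 1)) * ((r : ℝ) - 1) :=
          mul_le_mul_of_nonneg_right h1 hr1.le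
      _ = η / 2 := by field_simp
  have h3 := key ε hε0 (by linarith)
  have h4 : (δ - ε) * ((r : ℝ) - 1) - ((e : ℝ) - 1) = η - ε * ((r : ℝ) - 1) := by rw [hη]; ring
  linarith

/-- **The exponent law.** -/
theorem exponent_law {δ : ℝ} (h : ManyAlg δ) {r : ℕ} (hr : 1 ≤ r) {B C : Matrix (Fin r) (Fin r) ℂ}
    (hBC : PZero B C) {w : Fin r → ℂ⟦X⟧} (hw : IsSol B C w) {d : ℕ} (hd : ProjDeg w d) :
    (d : ℝ) ≤ (1 - δ) * ((r : ℝ) - 1) := by
  have hdr : d + 1 ≤ r := by
    rcases Nat.eq_zero_or_pos d with h0 | h0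
    · omega
    · exact projDeg_lt hw hd h0
  have hdr' : (d : ℝ) ≤ (r : ℝ) - 1 := by
    have : ((d + 1 : ℕ) : ℝ) ≤ r := by exact_mod_cast hdr
    push_cast at this
    linarith
  have hr1 : (0 : ℝ) ≤ (r : ℝ) - 1 := le_trans (Nat.cast_nonneg d) hdr'
  rcases le_or_gt δ 0 with hδ | hδ
  · nlinarith
  rcases Nat.lt_or_ge r 2 with hr2 | hr2
  · have h3 : r = 1 := by omega
    have h4 : d = 0 := by omega
    rw [h3, h4]
    norm_num
  have h1 := h.growth hr2 hBC.dual (e := r - d) (by omega) (by omega)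
    (fun n => projDeg_law hw hd n) hδ
  rw [Nat.cast_sub (by omega)] at h1
  linarith

/-- **The threshold for the conjecture in rank `r`.** -/
theorem threshold {δ : ℝ} (h : ManyAlg δ) {r : ℕ} (hr : (1 - δ) * ((r : ℝ) - 1) < 1)
    {B C : Matrix (Fin r) (Fin r) ℂ} (hBC : PZero B C) : numAlg B C = r := by
  rcases Nat.lt_or_ge r 2 with hr2 | hr2
  · exact hBC.rank_one (by omega)
  rcases hBC.gap with h1 | h1
  · exact h1
  exfalso
  rcases le_or_gt δ 0 with hδ | hδ
  · -- the trivial exponent: rank less than two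
    have hr' : (2 : ℝ) ≤ r := by exact_mod_cast hr2
    nlinarith
  have h2 := h.growth hr2 hBC (e := r - 1) (by omega) (by omega) h1 hδ
  rw [Nat.cast_sub (by omega)] at h2
  push_cast at h2
  linarith

end Pool.Agent.D0H93.PC
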