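import Pool.Agent.D0H93.PC.Curv

/-!
# The `p`-curvature of the tensor powers of a system on the thrice-punctured line
-/

set_option autoImplicit false
set_option linter.unusedSectionVars false
set_option linter.unusedVariables false

open Matrix

namespace Pool.Agent.D0H93.PC

open Pool.Agent.D0H93.MT Pool.Agent.W432.PC Pool.Agent.Y227.TP

/-- The `n`-th tensor power of a matrix of a system (Kronecker sum of `n` copies), with the index set
`Fin (r ^ n)`. -/
def tenPow {R : Type} [CommRing R] {r : ℕ} (n : ℕ) (b : Matrix (Fin r) (Fin r) R) :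
    Matrix (Fin (r ^ n)) (Fin (r ^ n)) R :=
  (tder n b).submatrix finFunctionFinEquiv.symm finFunctionFinEquiv.symm

theorem tder_map' {ι S S' : Type} [Fintype ι] [DecidableEq ι] [CommRing S] [CommRing S'] (f : S →+* S')
    (n : ℕ) (x : Matrix ι ι S) : (tder n x).map f = tder n (x.map f) := by
  ext I J
  simp only [tder, Matrix.of_apply, Matrix.map_apply, map_sum]
  exact Finset.sum_congr rfl fun p _ => by split_ifs <;> simp

theorem tenPow_map {R S : Type} [CommRing R] [CommRing S] (f : R →+* S) {r : ℕ} (n : ℕ)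
    (b : Matrix (Fin r) (Fin r) R) : (tenPow n b).map f = tenPow n (b.map f) := by
  rw [tenPow, tenPow, ← tder_map', Matrix.submatrix_map]

theorem tder_sum {ι S T : Type} [Fintype ι] [DecidableEq ι] [CommRing S] (n : ℕ) (s : Finset T)
    (x : T → Matrix ι ι S) : tder n (∑ t ∈ s, x t) = ∑ t ∈ s, tder n (x t) := by
  classical
  induction s using Finset.induction_on with
  | empty => rw [Finset.sum_empty, Finset.sum_empty, tder_zero]
  | insert a s ha ih => rw [Finset.sum_insert ha, Finset.sum_insert ha, tder_add, ih]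

theorem G_tenPow {k : Type} [Field k] {m r : ℕ} (α : Fin m → k) (A : Fin m → Matrix (Fin r) (Fin r) k)
    (n : ℕ) : G α (fun j => tenPow n (A j)) =
      (tder n (G α A)).submatrix finFunctionFinEquiv.symm finFunctionFinEquiv.symm := by
  unfold G
  rw [tder_sum]
  ext a b
  simp only [Matrix.sum_apply, Matrix.submatrix_apply]
  refine Finset.sum_congr rfl fun j _ => ?_
  rw [tenPow_map, tder_smul]
  rfl

/-- The `p`-curvature of the tensor powers of a system with vanishing `p`-curvature vanishes. -/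
theorem pcurvZero_tenPow {k : Type} [Field k] {m r : ℕ} {α : Fin m → k}
    {A : Fin m → Matrix (Fin r) (Fin r) k} (h : PCurvZero α A) (n : ℕ) :
    PCurvZero α (fun j => tenPow (n + 1) (A j)) := by
  rcases CharP.char_is_prime_or_zero k (ringChar k) with hp | hp
  · have hS : ((ringChar k : ℕ) : RatFunc k) = 0 := by
      have h1 : ((ringChar k : ℕ) : k) = 0 := CharP.cast_eq_zero k (ringChar k)
      have h2 := congrArg (algebraMap k (RatFunc k)) h1
      rwa [map_natCast, map_zero] at h2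
    have hpow : ∀ {m' r' : ℕ} (α' : Fin m' → k) (A' : Fin m' → Matrix (Fin r') (Fin r') k) (j : ℕ)
        (y : Fin r' → RatFunc k), (nabla α' A')^[j] y = (nab (ddx k) (G α' A') ^ j) y := by
      intro m' r' α' A' j y
      rw [Module.End.pow_apply]
      rfl
    have hG : nab (ddx k) (G α A) ^ (ringChar k) = 0 := by
      refine LinearMap.ext fun y => ?_
      rw [← hpow, h y]
      rfl
    intro y
    rw [hpow, G_tenPow, nab_pow_reindex (ddx k) finFunctionFinEquiv (nab_pow_tder (ddx k) hp hS hG n)]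
    rfl
  · -- the characteristic is zero: the rank is zero
    have h1 := h
    unfold PCurvZero at h1
    rw [hp] at h1
    have hr : r = 0 := by
      by_contra hr
      have h2 := congrFun (h1 fun _ => 1) ⟨0, Nat.pos_of_ne_zero hr⟩
      simp at h2
    subst hr
    intro y
    have h3 : IsEmpty (Fin (0 ^ (n + 1))) := by
      rw [pow_succ, mul_zero]
      infer_instance
    exact Subsingleton.elim _ _

theorem pcurvZeroAt_tenPow {R : Type} [CommRing R] {m r : ℕ} {α : Fin m → R}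
    {A : Fin m → Matrix (Fin r) (Fin r) R} (𝔪 : Ideal R) [h𝔪 : 𝔪.IsMaximal]
    (h : PCurvZeroAt α A 𝔪) (n : ℕ) : PCurvZeroAt α (fun j => tenPow (n + 1) (A j)) 𝔪 := by
  let _ : Field (R ⧸ 𝔪) := Ideal.Quotient.field 𝔪
  have h1 := pcurvZero_tenPow (k := R ⧸ 𝔪) h n
  unfold PCurvZeroAt
  have h2 : (fun j => (tenPow (n + 1) (A j)).map (Ideal.Quotient.mk 𝔪)) =
      fun j => tenPow (n + 1) ((A j).map (Ideal.Quotient.mk 𝔪)) := by
    funext j
    exact tenPow_map _ _ _
  rw [h2]
  exact h1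

/-- The condition of the problem for tensor powers. -/
theorem condII_tenPow {R : Type} [CommRing R] {r : ℕ} {b c : Matrix (Fin r) (Fin r) R}
    (h : CondII ![0, 1] ![b, c]) (n : ℕ) :
    CondII ![0, 1] ![tenPow (n + 1) b, tenPow (n + 1) c] := by
  obtain ⟨g, hg, h1⟩ := h
  refine ⟨g, hg, fun 𝔪 _ hm => ?_⟩
  have h2 := pcurvZeroAt_tenPow 𝔪 (h1 𝔪 hm) n
  have h3 : (fun j => tenPow (n + 1) ((![b, c] : Fin 2 → Matrix (Fin r) (Fin r) R) j)) =
      ![tenPow (n + 1) b, tenPow (n + 1) c] := by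
    funext j
    fin_cases j <;> rfl
  rwa [h3] at h2

section few

variable {R : Type} [CommRing R] [IsDomain R] [CharZero R] [Algebra.FiniteType ℤ R]
  [Algebra.IsAlgebraic ℤ R] {r : ℕ}

/-- A nonzero element lies in closed points of finitely many characteristics. -/
theorem exists_dvd_int {g : R} (hg : g ≠ 0) : ∃ a : ℤ, a ≠ 0 ∧ g ∣ (a : R) := by
  obtain ⟨P, hP0, hP⟩ := Algebra.IsAlgebraic.isAlgebraic (R := ℤ) g
  -- divide by a power of `X`
  obtain ⟨Q, hQ, hQ0⟩ : ∃ Q : Polynomial ℤ, Polynomial.aeval g Q = 0 ∧ Q.coeff 0 ≠ 0 := by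
    obtain ⟨n, Q, hQ, h⟩ : ∃ (n : ℕ) (Q : Polynomial ℤ), Q.coeff 0 ≠ 0 ∧ P = Polynomial.X ^ n * Q := by
      obtain ⟨Q, hQ⟩ := Polynomial.X_pow_dvd_iff.2 (fun d hd =>
        Polynomial.coeff_eq_zero_of_lt_natTrailingDegree hd :
          ∀ d < P.natTrailingDegree, P.coeff d = 0)
      refine ⟨P.natTrailingDegree, Q, ?_, hQ⟩
      have h1 : P.coeff P.natTrailingDegree ≠ 0 := Polynomial.trailingCoeff_nonzero_iff_nonzero.2 hP0
      rw [hQ] at h1
      intro h2
      apply h1
      rw [← hQ]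
      have h3 := Polynomial.coeff_X_pow_mul Q P.natTrailingDegree 0
      rw [zero_add, ← hQ, h2] at h3
      exact h3
    refine ⟨Q, ?_, hQ⟩
    rw [h, map_mul, map_pow, Polynomial.aeval_X] at hP
    exact (mul_eq_zero.1 hP).resolve_left (pow_ne_zero _ hg)
  refine ⟨Q.coeff 0, hQ0, ?_⟩
  have h1 := Polynomial.divX_mul_X_add Q
  have h2 : Polynomial.aeval g (Q.divX * Polynomial.X + Polynomial.C (Q.coeff 0)) = 0 := by
    rw [h1, hQ]
  rw [map_add, map_mul, Polynomial.aeval_X, Polynomial.aeval_C] at h2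
  refine ⟨-Polynomial.aeval g Q.divX, ?_⟩
  have h3 : algebraMap ℤ R (Q.coeff 0) = ((Q.coeff 0 : ℤ) : R) := rfl
  rw [← h3]
  linear_combination h2

/-- The condition of the problem implies that the set of bad primes is finite. -/
theorem few_of_condII {b c : Matrix (Fin r) (Fin r) R} (h : CondII ![0, 1] ![b, c]) {ε : ℝ}
    (hε : 0 < ε) : Few (BadPt ![0, 1] ![b, c]) ε := by
  obtain ⟨g, hg, h1⟩ := h
  obtain ⟨a, ha0, ha⟩ := exists_dvd_int hg
  have hbad : ∀ p : ℕ, p.Prime → BadPt ![0, 1] ![b, c] p → (p : ℤ) ∣ a := by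
    rintro p hp ⟨𝔪, h𝔪, hpm, hbad⟩
    have hgm : g ∈ 𝔪 := by
      by_contra h
      exact hbad (h1 𝔪 h)
    have ham : (a : R) ∈ 𝔪 := 𝔪.mem_of_dvd ha hgm
    by_contra hcon
    have hcop : IsCoprime (p : ℤ) a := (Nat.prime_iff_prime_int.1 hp).coprime_iff_not_dvd.2 hcon
    obtain ⟨x, y, hxy⟩ := hcop
    apply h𝔪.ne_top
    rw [Ideal.eq_top_iff_one]
    have h2 : (1 : R) = (x : R) * (p : R) + (y : R) * (a : R) := by
      have := congrArg (fun z : ℤ => (z : R)) hxy
      push_cast at this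
      exact this.symm
    rw [h2]
    exact 𝔪.add_mem (𝔪.mul_mem_left _ hpm) (𝔪.mul_mem_left _ ham)
  intro N₀
  have htend : Filter.Tendsto (fun N : ℕ => ε * (Nat.primeCounting N : ℝ)) Filter.atTop
      Filter.atTop :=
    (tendsto_natCast_atTop_atTop.comp Nat.tendsto_primeCounting).const_mul_atTop hε
  obtain ⟨N, hN1, hN2⟩ := ((Filter.tendsto_atTop.1 htend ((a.natAbs : ℝ) + 1)).and
    (Filter.eventually_ge_atTop N₀)).exists
  refine ⟨N, hN2, lt_of_lt_of_le ?_ hN1⟩
  have hsub : Nat.card {p : ℕ // p ≤ N ∧ p.Prime ∧ BadPt ![0, 1] ![b, c] p} ≤ a.natAbs := by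
    have h3 : ∀ p : {p : ℕ // p ≤ N ∧ p.Prime ∧ BadPt ![0, 1] ![b, c] p},
        p.1 ∈ Finset.Icc 1 a.natAbs := by
      intro p
      rw [Finset.mem_Icc]
      refine ⟨p.2.2.1.pos, Nat.le_of_dvd (Int.natAbs_pos.2 ha0) ?_⟩
      have := hbad p.1 p.2.2.1 p.2.2.2
      exact Int.natCast_dvd.1 this
    have h4 : Nat.card {p : ℕ // p ≤ N ∧ p.Prime ∧ BadPt ![0, 1] ![b, c] p} ≤
        Nat.card (Finset.Icc 1 a.natAbs) :=
      Nat.card_le_card_of_injective
        (fun p => (⟨p.1, h3 p⟩ : Finset.Icc 1 a.natAbs)) (fun p q hpq => by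
          have h6 := congrArg (fun z : Finset.Icc 1 a.natAbs => z.1) hpq
          exact Subtype.ext h6)
    have h7 : Nat.card (Finset.Icc 1 a.natAbs) = a.natAbs := by
      rw [Nat.card_eq_fintype_card, Fintype.card_coe, Nat.card_Icc]
      omega
    rwa [h7] at h4
  have h5 : (Nat.card {p : ℕ // p ≤ N ∧ p.Prime ∧ BadPt ![0, 1] ![b, c] p} : ℝ) ≤
      (a.natAbs : ℝ) := by exact_mod_cast hsub
  linarith

end few

/-- The traces of the residues are rational. -/
theorem trace_rational {R : Type} [CommRing R] [IsDomain R] [CharZero R] [Algebra.FiniteType ℤ R]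
    [Algebra.IsAlgebraic ℤ R] {r : ℕ} {b c : Matrix (Fin r) (Fin r) R}
    (h : Few (BadPt ![0, 1] ![b, c]) (1 / 4)) {k : Type} [Field k] [CharZero k] (φ : R →+* k)
    (hφ : Function.Injective φ) :
    ∃ α β : ℚ, φ b.trace = (α : k) ∧ φ c.trace = (β : k) := by
  have hα : ∀ i j : Fin 2, i ≠ j → IsUnit ((![0, 1] : Fin 2 → R) i - ![0, 1] j) := by
    intro i j hij
    fin_cases i <;> fin_cases j
    · exact absurd rfl hij
    · simp
    · simp
    · exact absurd rfl hij
  have key : ∀ B : Matrix (Fin r) (Fin r) R, (∃ j, B = (![b, c] : Fin 2 → _) j) →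
      ∃ q : ℚ, φ B.trace = (q : k) := by
    intro B hB
    obtain ⟨lam, hlam⟩ := exists_exponents hα h B (Or.inl hB)
    have h1 := hlam.trace
    refine ⟨∑ l, lam l, ?_⟩
    let f : FractionRing R →+* k := IsFractionRing.lift (A := R) (K := FractionRing R) hφ
    have h2 := congrArg f h1
    rw [map_ratCast] at h2
    rw [← h2]
    exact (IsFractionRing.lift_algebraMap hφ _).symm
  obtain ⟨α, hα'⟩ := key b ⟨0, rfl⟩
  obtain ⟨β, hβ'⟩ := key c ⟨1, rfl⟩
  exact ⟨α, β, hα', hβ'⟩

end Pool.Agent.D0H93.PC
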