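import Pool.Agent.D0H93.PC.Ser

/-!
# The fundamental matrix, and algebraic power series solutions
-/

set_option autoImplicit false
set_option linter.unusedSectionVars false
set_option linter.unusedVariables false

open Matrix Module PowerSeries

namespace Pool.Agent.D0H93.PC

open Pool.Agent.D0H93.MT

section sub

variable (k : Type) [Field k]

/-- Rational functions as elements of the field of fractions of the ring of power series. -/
noncomputable def ratHom : FractionRing (Polynomial k) →+* Lk k :=
  IsFractionRing.lift (A := Polynomial k) (K := FractionRing (Polynomial k))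
    (g := (algebraMap k⟦X⟧ (Lk k)).comp Polynomial.coeToPowerSeries.ringHom)
    ((IsFractionRing.injective k⟦X⟧ (Lk k)).comp (Polynomial.coe_injective k))

theorem ratHom_poly (p : Polynomial k) :
    ratHom k (algebraMap (Polynomial k) (FractionRing (Polynomial k)) p) =
      algebraMap k⟦X⟧ (Lk k) (p : k⟦X⟧) :=
  IsFractionRing.lift_algebraMap _ _

/-- The differential field of the rational functions. -/
noncomputable def ratX [CharZero k] : DiffExt k (Lk k) where
  δ := dL k
  K := (ratHom k).fieldRange
  der_mem := by
    rintro _ ⟨a, rfl⟩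
    obtain ⟨f, g, hg0, rfl⟩ := IsFractionRing.div_surjective (A := Polynomial k) a
    have h1 : ∀ p : Polynomial k, algebraMap k⟦X⟧ (Lk k) (p : k⟦X⟧) ∈ (ratHom k).fieldRange :=
      fun p => ⟨_, ratHom_poly k p⟩
    rw [map_div₀, ratHom_poly, ratHom_poly, Derivation.leibniz_div, dL_algebraMap, dL_algebraMap,
      derivative_coe, derivative_coe]
    simp only [smul_eq_mul]
    exact mul_mem (pow_mem (inv_mem (h1 g)) 2) (sub_mem (mul_mem (h1 g) (h1 _))
      (mul_mem (h1 f) (h1 _)))
  const_mem := fun c => ⟨algebraMap (Polynomial k) (FractionRing (Polynomial k)) (Polynomial.C c), by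
    rw [ratHom_poly, Polynomial.coe_C, IsScalarTower.algebraMap_apply k k⟦X⟧ (Lk k)]
    rfl⟩
  const := dL_const k

theorem poly_mem [CharZero k] (p : Polynomial k) :
    algebraMap k⟦X⟧ (Lk k) (p : k⟦X⟧) ∈ (ratX k).K := ⟨_, ratHom_poly k p⟩

/-- Algebraic over the field of rational functions = algebraic over the ring of polynomials. -/
theorem isAlg_iff [CharZero k] (u : k⟦X⟧) :
    IsAlgebraic (ratX k).K (algebraMap k⟦X⟧ (Lk k) u) ↔ IsAlgebraic (Polynomial k) u := by
  constructor
  · intro h
    let _ : Algebra (FractionRing (Polynomial k)) (Lk k) := (ratHom k).toAlgebra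
    have h1 : IsAlgebraic (FractionRing (Polynomial k)) (algebraMap k⟦X⟧ (Lk k) u) := by
      refine IsAlgebraic.of_ringHom_of_comp_eq (S := (ratX k).K) (B := Lk k)
        (ratHom k).rangeRestrictField (RingHom.id (Lk k)) h ?_ Function.injective_id ?_
      · exact (ratHom k).rangeRestrictField_bijective.2
      · rfl
    have hp : ∀ p : Polynomial k, algebraMap (Polynomial k) (Lk k) p =
        algebraMap k⟦X⟧ (Lk k) (p : k⟦X⟧) := fun p => by
      rw [IsScalarTower.algebraMap_apply (Polynomial k) k⟦X⟧ (Lk k)]
      rfl
    have : IsScalarTower (Polynomial k) (FractionRing (Polynomial k)) (Lk k) :=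
      IsScalarTower.of_algebraMap_eq fun p => (hp p).trans (ratHom_poly k p).symm
    have h2 : IsAlgebraic (Polynomial k) (algebraMap k⟦X⟧ (Lk k) u) :=
      (IsFractionRing.isAlgebraic_iff (Polynomial k) (FractionRing (Polynomial k)) (Lk k)).2 h1
    exact IsAlgebraic.of_ringHom_of_comp_eq (S := Polynomial k) (B := Lk k)
      (RingHom.id (Polynomial k)) (algebraMap k⟦X⟧ (Lk k)) h2 Function.surjective_id
      (IsFractionRing.injective k⟦X⟧ (Lk k)) rfl
  · intro h
    refine IsAlgebraic.ringHom_of_comp_eq (R := Polynomial k) (S := (ratX k).K)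
      (A := k⟦X⟧) (B := Lk k)
      ((ratHom k).rangeRestrictField.comp (algebraMap (Polynomial k) (FractionRing (Polynomial k))))
      (algebraMap k⟦X⟧ (Lk k)) h ?_ ?_
    · exact (ratHom k).rangeRestrictField_bijective.1.comp
        (IsFractionRing.injective (Polynomial k) (FractionRing (Polynomial k)))
    · exact RingHom.ext fun p => ratHom_poly k p

end sub

section fund

variable {k : Type} [Field k] [CharZero k] {ι : Type} [Fintype ι] [DecidableEq ι]

/-- The coefficients of the fundamental matrix. -/
noncomputable def cf (A : ℕ → Matrix ι ι k) : ℕ → Matrix ι ι k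
  | 0 => 1
  | n + 1 => ((n + 1 : ℕ) : k)⁻¹ • ∑ j : Fin (n + 1), A (n - j) * cf A j
  decreasing_by exact j.2

/-- The matrices of coefficients. -/
noncomputable def coeM (A : Matrix ι ι k⟦X⟧) (n : ℕ) : Matrix ι ι k := A.map (coeff n)

/-- The fundamental matrix. -/
noncomputable def fundM (A : Matrix ι ι k⟦X⟧) : Matrix ι ι k⟦X⟧ :=
  Matrix.of fun a b => PowerSeries.mk fun n => cf (coeM A) n a b

theorem coeff_fundM (A : Matrix ι ι k⟦X⟧) (n : ℕ) (a b : ι) :
    coeff n (fundM A a b) = cf (coeM A) n a b := by
  rw [fundM, Matrix.of_apply, coeff_mk]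

theorem fundM_sol (A : Matrix ι ι k⟦X⟧) : (fundM A).map (derivative k) = A * fundM A := by
  ext a b n
  rw [Matrix.map_apply, coeff_derivative, coeff_fundM, cf, Matrix.smul_apply, smul_eq_mul,
    Matrix.mul_apply, map_sum]
  have h1 : ((n + 1 : ℕ) : k) ≠ 0 := Nat.cast_ne_zero.2 (Nat.succ_ne_zero n)
  have h2 : ((n + 1 : ℕ) : k) = (n : k) + 1 := by push_cast; rfl
  rw [← h2, mul_comm, ← mul_assoc, mul_inv_cancel₀ h1, one_mul, Matrix.sum_apply]
  have h3 : ∀ c : ι, coeff n (A a c * fundM A c b) =
      ∑ j : Fin (n + 1), coeM A (n - j) a c * cf (coeM A) j c b := by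
    intro c
    rw [mul_comm, coeff_mul, Finset.Nat.sum_antidiagonal_eq_sum_range_succ
      (fun i j => coeff i (fundM A c b) * coeff j (A a c)), Finset.sum_range]
    refine Finset.sum_congr rfl fun j _ => ?_
    rw [coeff_fundM, mul_comm]
    rfl
  rw [Finset.sum_congr rfl fun c _ => h3 c, Finset.sum_comm]
  refine Finset.sum_congr rfl fun j _ => ?_
  rw [Matrix.mul_apply]

theorem fundM_zero (A : Matrix ι ι k⟦X⟧) : (fundM A).map (constantCoeff (R := k)) = 1 := by
  ext a b
  rw [Matrix.map_apply, ← coeff_zero_eq_constantCoeff_apply, coeff_fundM, cf]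

theorem fundM_det (A : Matrix ι ι k⟦X⟧) : (fundM A).det ≠ 0 := by
  intro h
  have h1 := congrArg (constantCoeff (R := k)) h
  rw [RingHom.map_det, RingHom.mapMatrix_apply, fundM_zero, Matrix.det_one, map_zero] at h1
  exact one_ne_zero h1

/-- The algebraic power series solutions of the system `u' = A u`. -/
def powSol (A : Matrix ι ι k⟦X⟧) : Submodule k (ι → k⟦X⟧) where
  carrier := {u | (fun i => derivative k (u i)) = A *ᵥ u ∧ ∀ i, IsAlgebraic (Polynomial k) (u i)}
  zero_mem' := ⟨by ext i; simp, fun i => isAlgebraic_zero⟩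
  add_mem' := by
    rintro u v ⟨h1, h2⟩ ⟨h3, h4⟩
    refine ⟨?_, fun i => (h2 i).add (h4 i)⟩
    rw [Matrix.mulVec_add, ← h1, ← h3]
    ext i : 1
    simp
  smul_mem' := by
    rintro c u ⟨h1, h2⟩
    refine ⟨?_, fun i => ?_⟩
    · rw [Matrix.mulVec_smul, ← h1]
      ext i : 1
      simp
    · rw [Pi.smul_apply, PowerSeries.smul_eq_C_mul]
      refine IsAlgebraic.mul ?_ (h2 i)
      have : (C c : k⟦X⟧) = algebraMap (Polynomial k) k⟦X⟧ (Polynomial.C c) := by
        rw [PowerSeries.algebraMap_apply', Polynomial.coe_C]
        simp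
      rw [this]
      exact isAlgebraic_algebraMap _

theorem sol_unique (A : Matrix ι ι k⟦X⟧) {u : ι → k⟦X⟧} (h : (fun i => derivative k (u i)) = A *ᵥ u)
    (h0 : ∀ i, constantCoeff (u i) = 0) : u = 0 := by
  have key : ∀ n i, coeff n (u i) = 0 := by
    intro n
    induction n using Nat.strong_induction_on with
    | _ n ih =>
      intro i
      cases n with
      | zero => rw [coeff_zero_eq_constantCoeff_apply, h0]
      | succ n =>
        have h1 := congrArg (coeff n) (congrFun h i)
        simp only [coeff_derivative] at h1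
        have h2 : coeff n ((A *ᵥ u) i) = 0 := by
          rw [Matrix.mulVec, dotProduct, map_sum]
          refine Finset.sum_eq_zero fun j _ => ?_
          rw [coeff_mul]
          refine Finset.sum_eq_zero fun p hp => ?_
          rw [Finset.HasAntidiagonal.mem_antidiagonal] at hp
          rw [ih p.2 (by omega), mul_zero]
        rw [h2] at h1
        rcases mul_eq_zero.1 h1 with h3 | h3
        · exact h3
        · exfalso
          have h4 : ((n + 1 : ℕ) : k) = 0 := by push_cast; exact h3
          exact Nat.cast_ne_zero.2 (Nat.succ_ne_zero n) h4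
  ext i n
  rw [key]
  simp

/-- Evaluation at the base point is injective on solutions. -/
theorem finrank_powSol_le (A : Matrix ι ι k⟦X⟧) :
    FiniteDimensional k (powSol A) ∧ finrank k (powSol A) ≤ Fintype.card ι := by
  let f : powSol A →ₗ[k] (ι → k) :=
    { toFun := fun u i => constantCoeff (u.1 i)
      map_add' := fun u v => by ext i; simp
      map_smul' := fun c u => by ext i; simp }
  have hf : Function.Injective f := by
    rw [injective_iff_map_eq_zero]
    intro u hu
    exact Subtype.ext (sol_unique A u.2.1 fun i => congrFun hu i)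
  refine ⟨FiniteDimensional.of_injective f hf, ?_⟩
  have := LinearMap.finrank_le_finrank_of_injective hf
  rwa [Module.finrank_fintype_fun_eq_card] at this

/-- If the fundamental matrix is algebraic there is a full set of algebraic solutions. -/
theorem finrank_powSol_eq (A : Matrix ι ι k⟦X⟧)
    (h : ∀ i j, IsAlgebraic (Polynomial k) (fundM A i j)) :
    finrank k (powSol A) = Fintype.card ι := by
  have := (finrank_powSol_le A).1
  refine le_antisymm (finrank_powSol_le A).2 ?_
  have hC : ∀ c : k, (C c : k⟦X⟧) = algebraMap (Polynomial k) k⟦X⟧ (Polynomial.C c) := by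
    intro c
    rw [PowerSeries.algebraMap_apply', Polynomial.coe_C]
    simp
  have hmem : ∀ c : ι → k, (fundM A *ᵥ fun i => C (c i)) ∈ powSol A := by
    intro c
    refine ⟨?_, fun i => ?_⟩
    · rw [Matrix.mulVec_mulVec, ← fundM_sol]
      ext i : 1
      rw [Matrix.mulVec, dotProduct, map_sum, Matrix.mulVec, dotProduct]
      refine Finset.sum_congr rfl fun j _ => ?_
      rw [Derivation.leibniz, derivative_C, smul_zero, zero_add, smul_eq_mul, mul_comm,
        Matrix.map_apply]
    · rw [Matrix.mulVec, dotProduct]
      have hsum : ∀ s : Finset ι, IsAlgebraic (Polynomial k)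
          (∑ j ∈ s, fundM A i j * (C (c j) : k⟦X⟧)) := by
        intro s
        induction s using Finset.induction_on with
        | empty =>
          rw [Finset.sum_empty]
          exact isAlgebraic_zero
        | insert a s ha ih =>
          rw [Finset.sum_insert ha]
          refine IsAlgebraic.add (IsAlgebraic.mul (h i a) ?_) ih
          rw [hC]
          exact isAlgebraic_algebraMap _
      exact hsum _
  let g : (ι → k) →ₗ[k] powSol A :=
    { toFun := fun c => ⟨fundM A *ᵥ fun i => C (c i), hmem c⟩
      map_add' := fun c d => Subtype.ext (by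
        change fundM A *ᵥ (fun i => C ((c + d) i)) = fundM A *ᵥ (fun i => C (c i)) +
          fundM A *ᵥ (fun i => C (d i))
        rw [← Matrix.mulVec_add]
        congr 1
        ext i : 1
        simp)
      map_smul' := fun a c => Subtype.ext (by
        change fundM A *ᵥ (fun i => C ((a • c) i)) = a • (fundM A *ᵥ (fun i => C (c i)))
        rw [← Matrix.mulVec_smul]
        congr 1
        ext i : 1
        simp [PowerSeries.smul_eq_C_mul]) }
  have hg : Function.Injective g := by
    rw [injective_iff_map_eq_zero]
    intro c hc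
    have h1 : fundM A *ᵥ (fun i => C (c i)) = 0 := congrArg Subtype.val hc
    ext i
    have h2 := congrArg (constantCoeff (R := k)) (congrFun h1 i)
    rw [Matrix.mulVec, dotProduct, map_sum] at h2
    simp only [map_mul, constantCoeff_C, Pi.zero_apply, map_zero] at h2
    have h3 : ∀ j, constantCoeff (fundM A i j) = (1 : Matrix ι ι k) i j := fun j => by
      rw [← fundM_zero A]
      rfl
    simp only [h3, Matrix.one_apply, ite_mul, one_mul, zero_mul, Finset.sum_ite_eq,
      Finset.mem_univ, if_true] at h2
    simpa using h2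
  have := LinearMap.finrank_le_finrank_of_injective hg
  rwa [Module.finrank_fintype_fun_eq_card] at this

end fund

end Pool.Agent.D0H93.PC
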