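import Pool.Agent.D0H93.PC.Walk
import Pool.Agent.D0H93.MT.Grp

/-!
# Kernels of Kronecker sums
-/

set_option autoImplicit false
set_option linter.unusedSectionVars false
set_option linter.unusedVariables false

open Module Matrix

namespace Pool.Agent.D0H93.PC

open Pool.Agent.D0H93.MT

section symbol

variable {k : Type} [Field k] {T A : Type} [Fintype T] [AddCommGroup A] [Module k A]
  [FiniteDimensional k A]

/-- the part of weight `m` -/
def part (k : Type) [Field k] {T A : Type} [AddCommGroup A] [Module k A] (w : T → ℕ) (m : ℕ) :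
    (T → A) →ₗ[k] (T → A) where
  toFun f := fun J => if w J = m then f J else 0
  map_add' f g := by
    funext J
    by_cases h : w J = m <;> simp [h]
  map_smul' c f := by
    funext J
    by_cases h : w J = m <;> simp [h]

theorem part_apply (w : T → ℕ) (m : ℕ) (f : T → A) (J : T) :
    part k w m f J = if w J = m then f J else 0 := rfl

/-- functions supported in weights less than `m` -/
def fil (k : Type) [Field k] {T : Type} (A : Type) [AddCommGroup A] [Module k A] (w : T → ℕ)
    (m : ℕ) : Submodule k (T → A) where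
  carrier := {f | ∀ J, m ≤ w J → f J = 0}
  zero_mem' := fun _ _ => rfl
  add_mem' := fun {f g} hf hg J hJ => by rw [Pi.add_apply, hf J hJ, hg J hJ, add_zero]
  smul_mem' := fun c f hf J hJ => by rw [Pi.smul_apply, hf J hJ, smul_zero]

/-- functions supported in the weight `m` -/
def gra (k : Type) [Field k] {T : Type} (A : Type) [AddCommGroup A] [Module k A] (w : T → ℕ)
    (m : ℕ) : Submodule k (T → A) where
  carrier := {f | ∀ J, w J ≠ m → f J = 0}
  zero_mem' := fun _ _ => rfl
  add_mem' := fun {f g} hf hg J hJ => by rw [Pi.add_apply, hf J hJ, hg J hJ, add_zero]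
  smul_mem' := fun c f hf J hJ => by rw [Pi.smul_apply, hf J hJ, smul_zero]

/-- The kernel of an operator is not larger than the kernel of its symbol. -/
theorem symbol_le (w : T → ℕ) (Z E : End k (T → A))
    (H : ∀ m f, (∀ J, m < w J → f J = 0) → Z f = 0 → E (part k w m f) = 0) :
    finrank k (LinearMap.ker Z) ≤ finrank k (LinearMap.ker E) := by
  have key : ∀ m, finrank k (LinearMap.ker Z ⊓ fil k A w m : Submodule k (T → A)) ≤
      finrank k (LinearMap.ker E ⊓ fil k A w m : Submodule k (T → A)) := by
    intro m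
    induction m with
    | zero =>
      have h0 : (fil k A w 0 : Submodule k (T → A)) = ⊥ := by
        rw [eq_bot_iff]
        intro f hf
        rw [Submodule.mem_bot]
        funext J
        exact hf J (Nat.zero_le _)
      rw [h0, inf_bot_eq, inf_bot_eq]
    | succ m ih =>
      let X : Submodule k (T → A) := LinearMap.ker Z ⊓ fil k A w (m + 1)
      let π : X →ₗ[k] (T → A) := (part k w m) ∘ₗ X.subtype
      have h1 := LinearMap.finrank_range_add_finrank_ker π
      have h2 : LinearMap.range π ≤ LinearMap.ker E ⊓ gra k A w m := by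
        rintro _ ⟨⟨f, hf1, hf2⟩, rfl⟩
        refine ⟨?_, ?_⟩
        · exact H m f (fun J hJ => hf2 J hJ) hf1
        · intro J hJ
          show part k w m f J = 0
          rw [part_apply, if_neg hJ]
      have h3 : finrank k (LinearMap.ker π) ≤
          finrank k (LinearMap.ker Z ⊓ fil k A w m : Submodule k (T → A)) := by
        let j : LinearMap.ker π →ₗ[k] (LinearMap.ker Z ⊓ fil k A w m : Submodule k (T → A)) :=
          LinearMap.codRestrict _ (X.subtype ∘ₗ (LinearMap.ker π).subtype) (by
            rintro ⟨⟨f, hf1, hf2⟩, hf3⟩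
            refine ⟨hf1, fun J hJ => ?_⟩
            rcases Nat.lt_or_ge m (w J) with h | h
            · exact hf2 J h
            · have h4 : w J = m := le_antisymm h hJ
              have h5 := congrFun (show part k w m f = 0 from hf3) J
              rw [part_apply, if_pos h4] at h5
              exact h5)
        refine LinearMap.finrank_le_finrank_of_injective (f := j) fun a b hab => ?_
        have := congrArg Subtype.val hab
        exact Subtype.ext (Subtype.ext this)
      have h4 : finrank k (LinearMap.ker E ⊓ fil k A w m : Submodule k (T → A)) +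
          finrank k (LinearMap.ker E ⊓ gra k A w m : Submodule k (T → A)) ≤
          finrank k (LinearMap.ker E ⊓ fil k A w (m + 1) : Submodule k (T → A)) := by
        have h5 := Submodule.finrank_sup_add_finrank_inf_eq
          (LinearMap.ker E ⊓ fil k A w m : Submodule k (T → A))
          (LinearMap.ker E ⊓ gra k A w m : Submodule k (T → A))
        have h6 : ((LinearMap.ker E ⊓ fil k A w m) ⊓ (LinearMap.ker E ⊓ gra k A w m) :
            Submodule k (T → A)) = ⊥ := by
          rw [eq_bot_iff]
          rintro f ⟨⟨-, hf1⟩, ⟨-, hf2⟩⟩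
          rw [Submodule.mem_bot]
          funext J
          rcases Nat.lt_or_ge (w J) m with h | h
          · exact hf2 J h.ne
          · exact hf1 J h
        rw [h6, finrank_bot, add_zero] at h5
        rw [← h5]
        refine Submodule.finrank_mono (sup_le ?_ ?_)
        · rintro f ⟨hf1, hf2⟩
          exact ⟨hf1, fun J hJ => hf2 J (by omega)⟩
        · rintro f ⟨hf1, hf2⟩
          exact ⟨hf1, fun J hJ => hf2 J (by omega)⟩
      have h7 := Submodule.finrank_mono h2
      have h8 : finrank k X = finrank k (LinearMap.ker Z ⊓ fil k A w (m + 1) : Submodule k (T → A)) := rfl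
      omega
  have htop : (fil k A w (Finset.univ.sup w + 1) : Submodule k (T → A)) = ⊤ := by
    rw [eq_top_iff]
    intro f _ J hJ
    have := Finset.le_sup (f := w) (Finset.mem_univ J)
    omega
  have := key (Finset.univ.sup w + 1)
  rwa [htop, inf_top_eq, inf_top_eq] at this

end symbol

variable {k : Type} [Field k] {ι : Type} [Fintype ι] [DecidableEq ι] {σ : Type} [Fintype σ]
  [DecidableEq σ]

/-- The same operator on vector valued functions. -/
def EV (k : Type) [Field k] {ι : Type} [Fintype ι] [DecidableEq ι] (σ : Type) (i₀ i₁ : ι) (n : ℕ) :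
    End k ((Fin n → ι) → (σ → k)) where
  toFun f := fun I => ∑ p, if I p = i₁ then f (Function.update I p i₀) else 0
  map_add' f g := by
    funext I
    simp only [Pi.add_apply, ← Finset.sum_add_distrib]
    exact Finset.sum_congr rfl fun p _ => by split_ifs <;> simp
  map_smul' c f := by
    funext I
    simp only [Pi.smul_apply, Finset.smul_sum, RingHom.id_apply]
    exact Finset.sum_congr rfl fun p _ => by split_ifs <;> simp

theorem EV_apply (i₀ i₁ : ι) (n : ℕ) (f : (Fin n → ι) → (σ → k)) (I : Fin n → ι) :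
    EV k σ i₀ i₁ n f I = ∑ p, if I p = i₁ then f (Function.update I p i₀) else 0 := rfl

theorem finrank_ker_EV (i₀ i₁ : ι) (n : ℕ) :
    finrank k (LinearMap.ker (EV k σ i₀ i₁ n)) = Fintype.card σ * kp (En k i₀ i₁ n) 1 := by
  have h0 : ∀ (f : (Fin n → ι) → (σ → k)) (a : σ) (I : Fin n → ι),
      EV k σ i₀ i₁ n f I a = En k i₀ i₁ n (fun J => f J a) I := by
    intro f a I
    rw [EV_apply, En_apply, Finset.sum_apply]
    exact Finset.sum_congr rfl fun p _ => by split_ifs <;> rfl
  let e : LinearMap.ker (EV k σ i₀ i₁ n) ≃ₗ[k] (σ → LinearMap.ker (En k i₀ i₁ n)) :=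
    { toFun := fun f a => ⟨fun J => f.1 J a, by
        rw [LinearMap.mem_ker]
        funext I
        rw [← h0, LinearMap.mem_ker.1 f.2]
        rfl⟩
      map_add' := fun _ _ => rfl
      map_smul' := fun _ _ => rfl
      invFun := fun g => ⟨fun J a => (g a).1 J, by
        rw [LinearMap.mem_ker]
        funext I a
        rw [h0]
        exact congrFun (LinearMap.mem_ker.1 (g a).2) I⟩
      left_inv := fun _ => rfl
      right_inv := fun _ => rfl }
  rw [e.finrank_eq, Module.finrank_pi_fintype, Finset.sum_const, Finset.card_univ, smul_eq_mul, kp,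
    pow_one]

/-- The operator `M ↦ x^(n) M + M y`. -/
def ZZ (n : ℕ) (x : Matrix ι ι k) (y : Matrix σ σ k) :
    End k (Matrix (Fin n → ι) σ k) where
  toFun M := tder n x * M + M * y
  map_add' M N := by
    rw [Matrix.mul_add, Matrix.add_mul]
    abel
  map_smul' c M := by
    rw [Matrix.mul_smul, Matrix.smul_mul, RingHom.id_apply, smul_add]

theorem ZZ_apply (n : ℕ) (x : Matrix ι ι k) (y : Matrix σ σ k) (M : Matrix (Fin n → ι) σ k) :
    ZZ n x y M = tder n x * M + M * y := rfl

theorem ZZ_entry (n : ℕ) (x : Matrix ι ι k) (y : Matrix σ σ k) (M : Matrix (Fin n → ι) σ k)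
    (I : Fin n → ι) (a : σ) : (ZZ n x y M) I a =
      (∑ p, ∑ j, x (I p) j * M (Function.update I p j) a) + ∑ b, M I b * y b a := by
  rw [ZZ_apply, Matrix.add_apply, tder_eq, Matrix.sum_mul, Matrix.sum_apply, Matrix.mul_apply]
  congr 1
  exact Finset.sum_congr rfl fun p _ => fac_mul _ _ _ _ _

/-- the weights -/
def wt (i₀ i₁ i : ι) : ℕ := if i = i₀ then 0 else if i = i₁ then 2 else 1

theorem wt_update (i₀ i₁ : ι) {n : ℕ} (I : Fin n → ι) (p : Fin n) (j : ι) :
    (∑ q, wt i₀ i₁ (Function.update I p j q)) + wt i₀ i₁ (I p) =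
      (∑ q, wt i₀ i₁ (I q)) + wt i₀ i₁ j := by
  rw [← Finset.add_sum_erase Finset.univ _ (Finset.mem_univ p),
    ← Finset.add_sum_erase Finset.univ (fun q => wt i₀ i₁ (I q)) (Finset.mem_univ p),
    Function.update_self, Finset.sum_congr rfl fun q hq => by
      rw [Function.update_of_ne (Finset.ne_of_mem_erase hq)]]
  ring

theorem finrank_ker_ZZ_le {i₀ i₁ : ι} (h01 : i₀ ≠ i₁) (n : ℕ) {x : Matrix ι ι k}
    (hx : x i₁ i₀ ≠ 0) (y : Matrix σ σ k) :
    finrank k (LinearMap.ker (ZZ n x y)) ≤ Fintype.card σ * kp (En k i₀ i₁ n) 1 := by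
  classical
  rw [← finrank_ker_EV]
  refine symbol_le (fun I : Fin n → ι => ∑ q, wt i₀ i₁ (I q)) (ZZ n x y) (EV k σ i₀ i₁ n) ?_
  intro m M hM hZ
  have w0 : wt i₀ i₁ i₀ = 0 := by simp [wt]
  have w1 : wt i₀ i₁ i₁ = 2 := by simp [wt, h01.symm]
  have w2 : ∀ i, wt i₀ i₁ i ≤ 2 := by
    intro i
    unfold wt
    split_ifs <;> omega
  have w3 : ∀ i, 2 ≤ wt i₀ i₁ i → i = i₁ := by
    intro i hi
    unfold wt at hi
    split_ifs at hi with h1 h2
    · omega
    · exact h2
    · omega
  have w4 : ∀ i, wt i₀ i₁ i = 0 → i = i₀ := by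
    intro i hi
    unfold wt at hi
    split_ifs at hi with h1 h2
    exact h1
  funext I
  rw [EV_apply, Pi.zero_apply]
  by_cases hI : ∑ q, wt i₀ i₁ (I q) = m + 2
  · have h1 : ∀ a, x i₁ i₀ * (∑ p, if I p = i₁ then part k (fun I : Fin n → ι => ∑ q, wt i₀ i₁ (I q)) m M
        (Function.update I p i₀) else 0 : σ → k) a = 0 := by
      intro a
      have h2 : (∑ p, ∑ j, x (I p) j * M (Function.update I p j) a) + ∑ b, M I b * y b a = 0 :=
        (ZZ_entry n x y M I a).symm.trans (congrFun (congrFun hZ I) a)
      have h3 : ∑ b, M I b * y b a = 0 := by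
        refine Finset.sum_eq_zero fun b _ => ?_
        have h4 : M I = 0 := hM I (by omega)
        rw [h4, Pi.zero_apply, zero_mul]
      rw [h3, add_zero] at h2
      rw [Finset.sum_apply, Finset.mul_sum]
      refine Eq.trans (Finset.sum_congr rfl fun p _ => ?_) h2
      have h5 : ∀ j, M (Function.update I p j) a ≠ 0 → I p = i₁ ∧ j = i₀ := by
        intro j hj
        have h6 : ¬ m < ∑ q, wt i₀ i₁ (Function.update I p j q) := by
          intro h7
          exact hj (congrFun (hM _ h7) a)
        have h8 := wt_update i₀ i₁ I p j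
        have h9 := w2 (I p)
        exact ⟨w3 _ (by omega), w4 _ (by omega)⟩
      by_cases hp : I p = i₁
      · rw [if_pos hp, part_apply, Finset.sum_eq_single i₀]
        · have h8 := wt_update i₀ i₁ I p i₀
          rw [hp, w1, w0] at h8
          rw [if_pos (by omega), hp]
        · intro j _ hj
          by_contra hne
          exact hj (h5 j (right_ne_zero_of_mul hne)).2
        · intro h; exact absurd (Finset.mem_univ _) h
      · rw [if_neg hp, Pi.zero_apply, mul_zero]
        symm
        refine Finset.sum_eq_zero fun j _ => ?_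
        by_contra hne
        exact hp (h5 j (right_ne_zero_of_mul hne)).1
    funext a
    exact (mul_eq_zero.1 (h1 a)).resolve_left hx
  · refine Finset.sum_eq_zero fun p _ => ?_
    split_ifs with hp
    · rw [part_apply, if_neg]
      have h8 := wt_update i₀ i₁ I p i₀
      rw [hp, w1, w0] at h8
      omega
    · rfl

theorem finrank_ker_ZZ_conj (n : ℕ) {x P Q : Matrix ι ι k} (hPQ : P * Q = 1)
    (y : Matrix σ σ k) :
    finrank k (LinearMap.ker (ZZ n x y)) ≤ finrank k (LinearMap.ker (ZZ n (Q * x * P) y)) := by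
  have h1 : Q * x = (Q * x * P) * Q := by
    rw [mul_assoc _ P Q, hPQ, mul_one]
  have h2 := tpow_tder n h1
  let j : LinearMap.ker (ZZ n x y) →ₗ[k] LinearMap.ker (ZZ n (Q * x * P) y) :=
    LinearMap.codRestrict _
      ({ toFun := fun M => tpow n Q * M.1
         map_add' := fun M N => by
           rw [show ((M + N : LinearMap.ker (ZZ n x y)) : Matrix (Fin n → ι) σ k) = M.1 + N.1 from rfl,
             Matrix.mul_add]
         map_smul' := fun c M => by
           rw [show ((c • M : LinearMap.ker (ZZ n x y)) : Matrix (Fin n → ι) σ k) = c • M.1 from rfl,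
             Matrix.mul_smul, RingHom.id_apply] } :
        LinearMap.ker (ZZ n x y) →ₗ[k] Matrix (Fin n → ι) σ k) (by
      rintro ⟨M, hM⟩
      rw [LinearMap.mem_ker, ZZ_apply] at hM
      rw [LinearMap.mem_ker, ZZ_apply]
      show tder n (Q * x * P) * (tpow n Q * M) + tpow n Q * M * y = 0
      rw [← Matrix.mul_assoc, ← h2, Matrix.mul_assoc, Matrix.mul_assoc, ← Matrix.mul_add, hM,
        Matrix.mul_zero])
  refine LinearMap.finrank_le_finrank_of_injective (f := j) fun M N hMN => ?_
  have h3 : tpow n Q * M.1 = tpow n Q * N.1 := congrArg Subtype.val hMN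
  have h4 := congrArg (fun X => tpow n P * X) h3
  simp only [← Matrix.mul_assoc] at h4
  rw [← tpow_mul, hPQ, tpow_one, Matrix.one_mul, Matrix.one_mul] at h4
  exact Subtype.ext h4

/-- **The kernel of a Kronecker sum is small.** -/
theorem kernel_bound [CharZero k] (n : ℕ) {x : Matrix ι ι k} (hx : ∀ a : k, x ≠ a • 1)
    (y : Matrix σ σ k) :
    (finrank k (LinearMap.ker (ZZ n x y)) : ℝ) ≤
      Fintype.card σ * ((Fintype.card ι : ℝ) ^ n * Real.sqrt (Fintype.card ι / (2 * (n + 1)))) := by
  by_cases hoff : ∃ i₀ i₁ : ι, i₀ ≠ i₁ ∧ x i₁ i₀ ≠ 0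
  · obtain ⟨i₀, i₁, h01, hne⟩ := hoff
    have h1 := finrank_ker_ZZ_le h01 n hne y
    have h2 := kp_En_one (k := k) h01 n
    calc (finrank k (LinearMap.ker (ZZ n x y)) : ℝ) ≤ (Fintype.card σ * kp (En k i₀ i₁ n) 1 : ℕ) := by
          exact_mod_cast h1
      _ = Fintype.card σ * (kp (En k i₀ i₁ n) 1 : ℝ) := by push_cast; ring
      _ ≤ _ := mul_le_mul_of_nonneg_left h2 (Nat.cast_nonneg _)
  · push Not at hoff
    have hd : ∃ i₀ i₁ : ι, i₀ ≠ i₁ ∧ x i₁ i₁ - x i₀ i₀ ≠ 0 := by
      by_contra hcon
      push Not at hcon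
      rcases isEmpty_or_nonempty ι with he | ⟨⟨i⟩⟩
      · refine hx 0 ?_
        ext i
        exact he.elim i
      · refine hx (x i i) ?_
        ext a b
        rw [Matrix.smul_apply, smul_eq_mul]
        by_cases hab : a = b
        · subst hab
          rw [Matrix.one_apply_eq, mul_one]
          by_cases hai : i = a
          · rw [hai]
          · exact sub_eq_zero.1 (hcon i a hai)
        · rw [Matrix.one_apply_ne hab, mul_zero]
          exact hoff b a (Ne.symm hab)
    obtain ⟨i₀, i₁, h01, hne⟩ := hd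
    let E : Matrix ι ι k := Matrix.single i₁ i₀ 1
    have hEE : E * E = 0 := Matrix.single_mul_single_of_ne _ _ _ _ h01 _
    have hPQ : (1 + E) * (1 - E) = 1 := by
      rw [add_mul, mul_sub, mul_sub, hEE, one_mul, one_mul, mul_one]
      abel
    have h1 := finrank_ker_ZZ_conj (x := x) n hPQ y
    have h2 : ((1 - E) * x * (1 + E)) i₁ i₀ ≠ 0 := by
      have e1 : (E * x) i₁ i₀ = x i₀ i₀ := by simp [E]
      have e2 : (x * E) i₁ i₀ = x i₁ i₁ := by simp [E]
      have e3 : (E * x * E) i₁ i₀ = x i₀ i₁ := by
        simp [E]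
      rw [sub_mul, mul_add, mul_one, one_mul, sub_mul, Matrix.add_apply, Matrix.sub_apply,
        Matrix.sub_apply, e1, e2, e3, hoff i₀ i₁ h01, hoff i₁ i₀ h01.symm]
      simpa [sub_eq_add_neg, add_comm] using hne
    have h3 := finrank_ker_ZZ_le h01 n h2 y
    have h4 := kp_En_one (k := k) h01 n
    calc (finrank k (LinearMap.ker (ZZ n x y)) : ℝ) ≤ (Fintype.card σ * kp (En k i₀ i₁ n) 1 : ℕ) := by
          exact_mod_cast h1.trans h3
      _ = Fintype.card σ * (kp (En k i₀ i₁ n) 1 : ℝ) := by push_cast; ring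
      _ ≤ _ := mul_le_mul_of_nonneg_left h4 (Nat.cast_nonneg _)

end Pool.Agent.D0H93.PC
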