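import Pool.Agent.D0H93.PC.Defs
import Pool.Agent.D0H93.PC.Der
import Pool.Agent.D0H93.PC.Sym

/-!
# The differential Galois Lie algebra
-/

set_option autoImplicit false
set_option linter.unusedSectionVars false
set_option linter.unusedVariables false

open Matrix Module

namespace Pool.Agent.D0H93.PC

open Pool.Agent.D0H93.MT

section gen

variable {R L : Type} [CommRing R] [Field L] [Algebra R L]

theorem mdm (D : Derivation R L L) {m m' m'' : Type} [Fintype m'] (M : Matrix m m' L)
    (N : Matrix m' m'' L) : (M * N).map D = M.map D * N + M * N.map D := by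
  ext i j
  simp only [Matrix.map_apply, Matrix.mul_apply, map_sum, Matrix.add_apply, Derivation.leibniz,
    smul_eq_mul, ← Finset.sum_add_distrib]
  exact Finset.sum_congr rfl fun k _ => by ring

theorem md_one (D : Derivation R L L) {m : Type} [DecidableEq m] :
    (1 : Matrix m m L).map D = 0 := by
  ext i j
  by_cases h : i = j
  · subst h; simp
  · simp [Matrix.one_apply_ne h]

theorem mdT (D : Derivation R L L) {m m' : Type} (M : Matrix m m' L) :
    Mᵀ.map D = (M.map D)ᵀ := rfl

/-- A minimal vector is constant. -/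
theorem exists_const (D : Derivation R L L) {m : Type} [Fintype m] (W : Submodule L (m → L))
    (hW : ∀ w ∈ W, (fun i => D (w i)) ∈ W) (φ : (m → L) →ₗ[L] L)
    (hφ : ∀ w : m → L, φ (fun i => D (w i)) = D (φ w)) (hex : ∃ w ∈ W, φ w ≠ 0) :
    ∃ c ∈ W, (∀ i, D (c i) = 0) ∧ φ c ≠ 0 := by
  classical
  let s : (m → L) → ℕ := fun w => (Finset.univ.filter fun i => w i ≠ 0).card
  let p : ℕ → Prop := fun t => ∃ w ∈ W, φ w = 1 ∧ s w = t
  have hp : ∃ t, p t := by
    obtain ⟨w, hw, hne⟩ := hex
    exact ⟨_, (φ w)⁻¹ • w, W.smul_mem _ hw, by rw [map_smul, smul_eq_mul, inv_mul_cancel₀ hne], rfl⟩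
  obtain ⟨w, hw, h1, hs⟩ := Nat.find_spec hp
  refine ⟨w, hw, ?_, by rw [h1]; exact one_ne_zero⟩
  by_contra hcon
  push Not at hcon
  obtain ⟨i, hi⟩ := hcon
  have hwi : w i ≠ 0 := by
    intro h
    rw [h, map_zero] at hi
    exact hi rfl
  let w' : m → L := w - (w i / D (w i)) • (fun j => D (w j))
  have hw' : w' ∈ W := W.sub_mem hw (W.smul_mem _ (hW w hw))
  have h2 : φ w' = 1 := by
    show φ (w - (w i / D (w i)) • (fun j => D (w j))) = 1
    rw [map_sub, map_smul, hφ, h1, Derivation.map_one_eq_zero, smul_zero, sub_zero]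
  have h3 : s w' < s w := by
    refine Finset.card_lt_card (Finset.ssubset_iff_subset_ne.2 ⟨?_, ?_⟩)
    · intro j hj
      rw [Finset.mem_filter] at hj ⊢
      refine ⟨Finset.mem_univ _, fun h => hj.2 ?_⟩
      show w j - (w i / D (w i)) * D (w j) = 0
      rw [h, map_zero, mul_zero, sub_zero]
    · intro heq
      have : i ∈ Finset.univ.filter fun i => w' i ≠ 0 := by
        rw [heq, Finset.mem_filter]
        exact ⟨Finset.mem_univ _, hwi⟩
      rw [Finset.mem_filter] at this
      refine this.2 ?_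
      show w i - (w i / D (w i)) * D (w i) = 0
      rw [div_mul_cancel₀ _ hi, sub_self]
  exact Nat.find_min hp (by rw [← hs]; exact h3) ⟨w', hw', h2, rfl⟩

end gen

theorem der_algebraic {K L : Type} [Field K] [CharZero K] [Field L] [Algebra K L] (D : Derivation K L L) {a : L}
    (ha : IsAlgebraic K a) : D a = 0 := by
  have hint : IsIntegral K a := ha.isIntegral
  have h1 : D (Polynomial.aeval a (minpoly K a)) = 0 := by rw [minpoly.aeval, map_zero]
  rw [Derivation.map_aeval] at h1
  have hsep : (minpoly K a).Separable := (minpoly.irreducible hint).separable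
  have h2 : Polynomial.aeval a (Polynomial.derivative (minpoly K a)) ≠ 0 :=
    hsep.aeval_derivative_ne_zero (minpoly.aeval K a)
  exact (smul_eq_zero.1 h1).resolve_left h2

variable {k L : Type} [Field k] [Field L] [CharZero L] [Algebra k L] {X : DiffExt k L}
  {ι σ : Type} [Fintype ι] [DecidableEq ι] [Fintype σ] [DecidableEq σ]

/-- The commutator with the derivation. -/
def brk (X : DiffExt k L) (D : Derivation X.K L L) : Derivation X.K L L :=
  Derivation.mk'
    { toFun := fun a => X.δ (D a) - D (X.δ a)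
      map_add' := fun a b => by simp only [map_add]; ring
      map_smul' := fun c a => by
        have hc : X.δ (c : L) ∈ X.K := X.der_mem _ c.2
        have h1 : ∀ b : L, D ((c : L) * b) = (c : L) * D b := fun b => by
          have := D.map_smul c b
          rwa [Algebra.smul_def, Algebra.smul_def] at this
        have h2 : D (X.δ (c : L) * a) = X.δ (c : L) * D a := by
          have := D.map_smul (⟨_, hc⟩ : X.K) a
          rwa [Algebra.smul_def, Algebra.smul_def] at this
        rw [Algebra.smul_def, show algebraMap X.K L c = (c : L) from rfl, h1, Derivation.leibniz,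
          Derivation.leibniz, map_add, smul_eq_mul, smul_eq_mul, smul_eq_mul, smul_eq_mul, h1,
          mul_comm a (X.δ (c : L)), h2, RingHom.id_apply, Algebra.smul_def,
          show algebraMap X.K L c = (c : L) from rfl]
        ring }
    (fun a b => by
      show X.δ (D (a * b)) - D (X.δ (a * b)) = a • (X.δ (D b) - D (X.δ b)) + b • (X.δ (D a) - D (X.δ a))
      simp only [Derivation.leibniz, map_add, smul_eq_mul]
      ring)

theorem brk_apply (D : Derivation X.K L L) (a : L) : brk X D a = X.δ (D a) - D (X.δ a) := rfl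

/-- the logarithmic derivative of the fundamental matrix -/
theorem brk_fund (M : LinSystem X ι) (D : Derivation X.K L L) :
    M.F⁻¹ * M.F.map (brk X D) = (M.F⁻¹ * M.F.map D).map X.δ := by
  have hu : IsUnit M.F.det := isUnit_iff_ne_zero.2 M.det_ne
  have h1 : M.F.map (brk X D) = (M.F.map D).map X.δ - M.A * M.F.map D := by
    have h2 : (M.F.map X.δ).map D = M.A * M.F.map D := by
      rw [M.sol, mdm]
      have h3 : M.A.map D = 0 := by
        ext i j
        rw [Matrix.map_apply, Matrix.zero_apply]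
        exact D.map_algebraMap (⟨_, M.mem i j⟩ : X.K)
      rw [h3, Matrix.zero_mul, zero_add]
    rw [← h2]
    ext i j
    rfl
  have h4 : M.F⁻¹.map X.δ = -(M.F⁻¹ * M.A) := by
    have h5 : (M.F⁻¹ * M.F).map X.δ = 0 := by
      rw [Matrix.nonsing_inv_mul _ hu, md_one]
    rw [mdm, M.sol] at h5
    have h6 := congrArg (fun Y => Y * M.F⁻¹) h5
    simp only [Matrix.add_mul, Matrix.zero_mul, Matrix.mul_assoc] at h6
    rw [Matrix.mul_nonsing_inv _ hu, Matrix.mul_one, Matrix.mul_one] at h6
    exact eq_neg_of_add_eq_zero_left h6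
  rw [h1, mdm, h4, Matrix.mul_sub, Matrix.neg_mul, Matrix.mul_assoc]
  abel

/-- The logarithmic derivatives of the two fundamental matrices. -/
noncomputable def Theta (N : LinSystem X σ) (M : LinSystem X ι) :
    Derivation X.K L L →ₗ[L] (((ι × ι) ⊕ (σ × σ)) → L) where
  toFun D := Sum.elim (fun p => (M.F⁻¹ * M.F.map D) p.1 p.2) (fun p => (N.F⁻¹ * N.F.map D) p.1 p.2)
  map_add' D D' := by
    have h : ∀ {τ : Type} [Fintype τ] [DecidableEq τ] (Y : Matrix τ τ L),
        Y.map (D + D') = Y.map D + Y.map D' := fun Y => by ext; rfl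
    funext q
    rcases q with p | p
    · simp only [Sum.elim_inl, Pi.add_apply, h, Matrix.mul_add, Matrix.add_apply]
    · simp only [Sum.elim_inr, Pi.add_apply, h, Matrix.mul_add, Matrix.add_apply]
  map_smul' c D := by
    have h : ∀ {τ : Type} [Fintype τ] [DecidableEq τ] (Y : Matrix τ τ L),
        Y.map (c • D) = c • Y.map D := fun Y => by ext; rfl
    funext q
    rcases q with p | p
    · simp only [Sum.elim_inl, Pi.smul_apply, h, Matrix.mul_smul, Matrix.smul_apply, RingHom.id_apply]
    · simp only [Sum.elim_inr, Pi.smul_apply, h, Matrix.mul_smul, Matrix.smul_apply, RingHom.id_apply]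

instance : CharZero X.K := ⟨fun a b h => by
  have : ((a : X.K) : L) = ((b : X.K) : L) := congrArg _ h
  exact_mod_cast this⟩

/-- If the system is not projectively algebraic there is a derivation whose logarithmic derivative is
not scalar. -/
theorem exists_nonscalar (M : LinSystem X ι) (h : ¬ M.IsProjAlg) :
    ∃ D : Derivation X.K L L, ∀ a : L, M.F⁻¹ * M.F.map D ≠ a • 1 := by
  have hu : IsUnit M.F.det := isUnit_iff_ne_zero.2 M.det_ne
  by_contra hcon
  push Not at hcon
  refine h fun i j i' j' => ?_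
  by_contra htr
  obtain ⟨D, hD⟩ := exists_derivation htr
  obtain ⟨a, ha⟩ := hcon D
  have h1 : M.F.map D = a • M.F := by
    have := congrArg (fun Y => M.F * Y) ha
    simp only [← Matrix.mul_assoc, Matrix.mul_smul, Matrix.mul_one] at this
    rwa [Matrix.mul_nonsing_inv _ hu, Matrix.one_mul] at this
  have h2 : ∀ i j, D (M.F i j) = a * M.F i j := fun i j => congrFun (congrFun h1 i) j
  apply hD
  by_cases h0 : M.F i' j' = 0
  · rw [h0, div_zero, map_zero]
  · rw [Derivation.leibniz_div, h2, h2]
    simp only [smul_eq_mul]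
    ring

/-- the difference of two coordinates -/
def dif (L : Type) [Field L] {m : Type} (a b : m) : (m → L) →ₗ[L] L where
  toFun w := w a - w b
  map_add' w v := by
    rw [Pi.add_apply, Pi.add_apply]
    ring
  map_smul' c w := by
    rw [Pi.smul_apply, Pi.smul_apply, RingHom.id_apply, smul_eq_mul, smul_eq_mul, smul_eq_mul]
    ring

/-- There are constant matrices `x`, `y`, `x` not scalar, in the differential Galois Lie algebra. -/
theorem exists_lie (N : LinSystem X σ) (M : LinSystem X ι) (h : ¬ M.IsProjAlg) :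
    ∃ (D : Derivation X.K L L) (x : Matrix ι ι k) (y : Matrix σ σ k), (∀ a : k, x ≠ a • 1) ∧
      M.F⁻¹ * M.F.map D = x.map (algebraMap k L) ∧ N.F⁻¹ * N.F.map D = y.map (algebraMap k L) := by
  obtain ⟨D₀, hD₀⟩ := exists_nonscalar M h
  let W : Submodule L (((ι × ι) ⊕ (σ × σ)) → L) := LinearMap.range (Theta N M)
  have hW : ∀ w ∈ W, (fun i => X.δ (w i)) ∈ W := by
    rintro _ ⟨D, rfl⟩
    refine ⟨brk X D, ?_⟩
    funext q
    rcases q with p | p
    · show (M.F⁻¹ * M.F.map (brk X D)) p.1 p.2 = X.δ ((M.F⁻¹ * M.F.map D) p.1 p.2)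
      rw [brk_fund]
      rfl
    · show (N.F⁻¹ * N.F.map (brk X D)) p.1 p.2 = X.δ ((N.F⁻¹ * N.F.map D) p.1 p.2)
      rw [brk_fund]
      rfl
  have key : ∀ φ : (((ι × ι) ⊕ (σ × σ)) → L) →ₗ[L] L,
      (∀ w : ((ι × ι) ⊕ (σ × σ)) → L, φ (fun i => X.δ (w i)) = X.δ (φ w)) →
      φ (Theta N M D₀) ≠ 0 →
      ∃ (D : Derivation X.K L L) (x : Matrix ι ι k) (y : Matrix σ σ k),
        φ (Theta N M D) ≠ 0 ∧
        M.F⁻¹ * M.F.map D = x.map (algebraMap k L) ∧ N.F⁻¹ * N.F.map D = y.map (algebraMap k L) := by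
    intro φ hφ hne
    obtain ⟨_, ⟨D, rfl⟩, h1, h2⟩ := exists_const X.δ W hW φ hφ ⟨_, ⟨D₀, rfl⟩, hne⟩
    choose g hg using fun q => X.const _ (h1 q)
    refine ⟨D, Matrix.of fun i j => g (Sum.inl (i, j)), Matrix.of fun a b => g (Sum.inr (a, b)), h2, ?_, ?_⟩
    · ext i j
      rw [Matrix.map_apply, Matrix.of_apply, hg]
      rfl
    · ext i j
      rw [Matrix.map_apply, Matrix.of_apply, hg]
      rfl
  have hinj : Function.Injective (algebraMap k L) := (algebraMap k L).injective
  by_cases hoff : ∃ i j : ι, i ≠ j ∧ (M.F⁻¹ * M.F.map D₀) i j ≠ 0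
  · obtain ⟨i, j, hij, hne⟩ := hoff
    obtain ⟨D, x, y, h1, h2, h3⟩ := key (LinearMap.proj (Sum.inl (i, j))) (fun w => rfl) hne
    refine ⟨D, x, y, fun a ha => h1 ?_, h2, h3⟩
    show (M.F⁻¹ * M.F.map D) i j = 0
    rw [h2, ha, Matrix.map_apply, Matrix.smul_apply, Matrix.one_apply_ne hij, smul_zero, map_zero]
  · push Not at hoff
    have hd : ∃ i j : ι, (M.F⁻¹ * M.F.map D₀) i i - (M.F⁻¹ * M.F.map D₀) j j ≠ 0 := by
      by_contra hcon
      push Not at hcon
      rcases isEmpty_or_nonempty ι with he | ⟨⟨i⟩⟩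
      · refine hD₀ 0 ?_
        ext i
        exact he.elim i
      · refine hD₀ ((M.F⁻¹ * M.F.map D₀) i i) ?_
        ext a b
        rw [Matrix.smul_apply, smul_eq_mul]
        by_cases hab : a = b
        · subst hab
          rw [Matrix.one_apply_eq, mul_one]
          exact sub_eq_zero.1 (hcon a i)
        · rw [Matrix.one_apply_ne hab, mul_zero]
          exact hoff a b hab
    obtain ⟨i, j, hne⟩ := hd
    obtain ⟨D, x, y, h1, h2, h3⟩ := key
      (dif L (Sum.inl (i, i)) (Sum.inl (j, j))) (fun w => (map_sub X.δ _ _).symm) hne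
    refine ⟨D, x, y, fun a ha => h1 ?_, h2, h3⟩
    show (M.F⁻¹ * M.F.map D) i i - (M.F⁻¹ * M.F.map D) j j = 0
    rw [h2, ha, Matrix.map_apply, Matrix.map_apply, Matrix.smul_apply, Matrix.smul_apply,
      Matrix.one_apply_eq, Matrix.one_apply_eq, sub_self]

end Pool.Agent.D0H93.PC
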