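import Mathlib

/-!
# Kernels of Kronecker sums: the recursion
-/

set_option autoImplicit false
set_option linter.unusedSectionVars false
set_option linter.unusedVariables false

open Module

namespace Pool.Agent.D0H93.PC

variable {k : Type} [Field k]

/-- the dimension of the kernel of the `m`-th power -/
noncomputable def kp {A : Type} [AddCommGroup A] [Module k A] (y : End k A) (m : ℕ) : ℕ :=
  finrank k (LinearMap.ker (y ^ m))

section rec

variable {A : Type} [AddCommGroup A] [Module k A] [FiniteDimensional k A]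
variable {ι : Type} [Fintype ι] [DecidableEq ι]

theorem kp_zero (y : End k A) : kp y 0 = 0 := by
  rw [kp, pow_zero]
  have : LinearMap.ker (1 : End k A) = ⊥ := LinearMap.ker_eq_bot.2 fun a b h => h
  rw [this, finrank_bot]

/-- The operator `y ⊗ 1 + 1 ⊗ E` on `A ⊗ k ^ ι`, `E` the matrix unit `e_{i₀} ↦ e_{i₁}`. -/
def opE (y : End k A) (i₀ i₁ : ι) : End k (ι → A) where
  toFun f := fun i => y (f i) + if i = i₁ then f i₀ else 0
  map_add' f g := by
    funext i
    by_cases h : i = i₁
    · simp only [Pi.add_apply, map_add, h, if_true]; abel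
    · simp [h]
  map_smul' c f := by
    funext i
    by_cases h : i = i₁ <;> simp [h]

theorem opE_apply (y : End k A) (i₀ i₁ : ι) (f : ι → A) (i : ι) :
    opE y i₀ i₁ f i = y (f i) + if i = i₁ then f i₀ else 0 := rfl

theorem opE_pow (y : End k A) {i₀ i₁ : ι} (h01 : i₀ ≠ i₁) (m : ℕ) (f : ι → A) (i : ι) :
    ((opE y i₀ i₁) ^ (m + 1)) f i =
      (y ^ (m + 1)) (f i) + if i = i₁ then ((m + 1 : ℕ) : k) • (y ^ m) (f i₀) else 0 := by
  induction m generalizing f i with
  | zero => simp [opE_apply]
  | succ m ih =>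
    rw [pow_succ, Module.End.mul_apply, ih, opE_apply, opE_apply, if_neg h01, add_zero, map_add,
      ← Module.End.mul_apply (y ^ (m + 1)) y, ← pow_succ]
    by_cases h : i = i₁
    · simp only [h, if_true]
      rw [← Module.End.mul_apply (y ^ m) y, ← pow_succ, add_assoc]
      congr 1
      rw [Nat.cast_succ (m + 1), add_smul, one_smul, add_comm]
    · simp [h]

theorem finrank_pi_sub (B : ι → Submodule k A) :
    finrank k (Submodule.pi Set.univ B : Submodule k (ι → A)) = ∑ i, finrank k (B i) := by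
  let e : (Submodule.pi Set.univ B : Submodule k (ι → A)) ≃ₗ[k] (∀ i, B i) :=
    { toFun := fun f i => ⟨f.1 i, f.2 i (Set.mem_univ i)⟩
      map_add' := fun _ _ => rfl
      map_smul' := fun _ _ => rfl
      invFun := fun g => ⟨fun i => (g i).1, fun i _ => (g i).2⟩
      left_inv := fun _ => rfl
      right_inv := fun _ => rfl }
  rw [e.finrank_eq, Module.finrank_pi_fintype]

theorem kp_rec (y : End k A) {i₀ i₁ : ι} (h01 : i₀ ≠ i₁) (m : ℕ) (hm : ((m + 1 : ℕ) : k) ≠ 0) :
    kp (opE y i₀ i₁) (m + 1) + 2 * kp y (m + 1) ≤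
      kp y m + kp y (m + 2) + Fintype.card ι * kp y (m + 1) := by
  classical
  set z := opE y i₀ i₁ with hz
  -- the map to `ker y ∩ im y^(m+1)`
  let τ : LinearMap.ker (y ^ (m + 2)) →ₗ[k] A := (y ^ (m + 1)) ∘ₗ (LinearMap.ker (y ^ (m + 2))).subtype
  let ρ : LinearMap.ker (z ^ (m + 1)) →ₗ[k] A :=
    (y ^ m) ∘ₗ (LinearMap.proj i₀) ∘ₗ (LinearMap.ker (z ^ (m + 1))).subtype
  have hτ : finrank k (LinearMap.range τ) + kp y (m + 1) = kp y (m + 2) := by
    have h1 := LinearMap.finrank_range_add_finrank_ker τ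
    have h2 : finrank k (LinearMap.ker τ) = kp y (m + 1) := by
      have hle : LinearMap.ker (y ^ (m + 1)) ≤ LinearMap.ker (y ^ (m + 2)) := by
        intro a ha
        rw [LinearMap.mem_ker] at ha ⊢
        rw [pow_succ', Module.End.mul_apply, ha, map_zero]
      have h3 : LinearMap.ker τ = (LinearMap.ker (y ^ (m + 1))).comap
          (LinearMap.ker (y ^ (m + 2))).subtype := by
        ext a
        simp [τ]
      rw [h3, kp]
      exact (Submodule.comapSubtypeEquivOfLe hle).finrank_eq
    rw [h2] at h1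
    exact h1
  have hker : ∀ f : ι → A, f ∈ LinearMap.ker (z ^ (m + 1)) → (∀ i, i ≠ i₁ → (y ^ (m + 1)) (f i) = 0) ∧
      (y ^ (m + 1)) (f i₁) + ((m + 1 : ℕ) : k) • (y ^ m) (f i₀) = 0 := by
    intro f hf
    rw [LinearMap.mem_ker] at hf
    constructor
    · intro i hi
      have h1 := congrFun hf i
      rw [opE_pow y h01, if_neg hi, add_zero] at h1
      exact h1
    · have h1 := congrFun hf i₁
      rw [opE_pow y h01, if_pos rfl] at h1
      exact h1
  have hρτ : LinearMap.range ρ ≤ LinearMap.range τ := by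
    rintro _ ⟨f, rfl⟩
    obtain ⟨h1, h2⟩ := hker f.1 f.2
    have h3 : (y ^ m) (f.1 i₀) = (y ^ (m + 1)) (-(((m + 1 : ℕ) : k)⁻¹ • f.1 i₁)) := by
      rw [map_neg, map_smul, eq_neg_of_add_eq_zero_left h2, smul_neg, neg_neg, smul_smul,
        inv_mul_cancel₀ hm, one_smul]
    refine ⟨⟨-(((m + 1 : ℕ) : k)⁻¹ • f.1 i₁), ?_⟩, h3.symm⟩
    rw [LinearMap.mem_ker, pow_succ', Module.End.mul_apply, ← h3, ← Module.End.mul_apply,
      ← pow_succ']
    exact h1 i₀ h01
  have h4 := LinearMap.finrank_range_add_finrank_ker ρ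
  have h5 : finrank k (LinearMap.ker ρ) ≤ ∑ i, kp y (if i = i₀ then m else m + 1) := by
    let B : ι → Submodule k A := fun i => LinearMap.ker (y ^ (if i = i₀ then m else m + 1))
    let j : LinearMap.ker ρ →ₗ[k] (Submodule.pi Set.univ B : Submodule k (ι → A)) :=
      LinearMap.codRestrict _ ((LinearMap.ker (z ^ (m + 1))).subtype ∘ₗ (LinearMap.ker ρ).subtype) (by
        rintro ⟨f, hf⟩ i -
        obtain ⟨h1, h2⟩ := hker f.1 f.2
        have h6 : (y ^ m) (f.1 i₀) = 0 := hf
        show f.1 i ∈ LinearMap.ker (y ^ (if i = i₀ then m else m + 1))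
        rw [LinearMap.mem_ker]
        by_cases h7 : i = i₀
        · rw [if_pos h7, h7, h6]
        · rw [if_neg h7]
          by_cases h8 : i = i₁
          · rw [h6, smul_zero, add_zero] at h2
            rw [h8, h2]
          · exact h1 i h8)
    have hj : Function.Injective j := by
      intro a b hab
      have := congrArg Subtype.val hab
      exact Subtype.ext (Subtype.ext this)
    have h9 := LinearMap.finrank_le_finrank_of_injective hj
    rw [finrank_pi_sub] at h9
    exact h9
  have h10 : ∑ i, kp y (if i = i₀ then m else m + 1) + kp y (m + 1) =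
      kp y m + Fintype.card ι * kp y (m + 1) := by
    rw [← Finset.add_sum_erase Finset.univ _ (Finset.mem_univ i₀), if_pos rfl,
      Finset.sum_congr rfl fun i hi => by rw [if_neg (Finset.ne_of_mem_erase hi)],
      Finset.sum_const, Finset.card_erase_of_mem (Finset.mem_univ i₀), Finset.card_univ, smul_eq_mul]
    have h11 : 0 < Fintype.card ι := Fintype.card_pos_iff.2 ⟨i₀⟩
    obtain ⟨c, hc⟩ : ∃ c, Fintype.card ι = c + 1 := ⟨Fintype.card ι - 1, by omega⟩
    rw [hc, Nat.add_sub_cancel]
    ring
  have h12 : finrank k (LinearMap.range ρ) ≤ finrank k (LinearMap.range τ) :=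
    Submodule.finrank_mono hρτ
  have h13 : kp z (m + 1) = finrank k (LinearMap.ker (z ^ (m + 1))) := rfl
  omega

theorem kp_congr {B : Type} [AddCommGroup B] [Module k B] (e : A ≃ₗ[k] B) {y : End k A}
    {z : End k B} (h : ∀ a, e (y a) = z (e a)) (m : ℕ) : kp y m = kp z m := by
  have h1 : ∀ m a, e ((y ^ m) a) = (z ^ m) (e a) := by
    intro m
    induction m with
    | zero => intro a; rfl
    | succ m ih =>
      intro a
      rw [pow_succ, Module.End.mul_apply, ih, h, pow_succ, Module.End.mul_apply]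
  have h2 : LinearMap.ker (z ^ m) = (LinearMap.ker (y ^ m)).map (e : A →ₗ[k] B) := by
    ext b
    constructor
    · intro hb
      refine ⟨e.symm b, ?_, e.apply_symm_apply b⟩
      rw [SetLike.mem_coe, LinearMap.mem_ker]
      apply e.injective
      rw [h1, e.apply_symm_apply, map_zero]
      exact hb
    · rintro ⟨a, ha, rfl⟩
      rw [SetLike.mem_coe, LinearMap.mem_ker] at ha
      rw [LinearMap.mem_ker]
      have := h1 m a
      rw [ha, map_zero] at this
      exact this.symm
  rw [kp, kp, h2]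
  exact (LinearEquiv.finrank_map_eq e _).symm

end rec

end Pool.Agent.D0H93.PC
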