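import Pool.Agent.D0H93.PC.Gal

/-!
# The gap law for algebraic solutions
-/

set_option autoImplicit false
set_option linter.unusedSectionVars false
set_option linter.unusedVariables false

open Matrix Module

namespace Pool.Agent.D0H93.PC

open Pool.Agent.D0H93.MT

variable {k L : Type} [Field k] [Field L] [CharZero L] [Algebra k L] {X : DiffExt k L}
  {ι σ : Type} [Fintype ι] [DecidableEq ι] [Fintype σ] [DecidableEq σ]

/-- The solutions of the tensor system. -/
noncomputable def Phi (N : LinSystem X σ) (M : LinSystem X ι) (n : ℕ) :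
    Matrix (Fin n → ι) σ k →ₗ[k] Matrix (Fin n → ι) σ L where
  toFun C := tpow n M.F * C.map (algebraMap k L) * N.Fᵀ
  map_add' C C' := by
    have : (C + C').map (algebraMap k L) = C.map (algebraMap k L) + C'.map (algebraMap k L) := by
      ext; simp
    rw [this, Matrix.mul_add, Matrix.add_mul]
  map_smul' c C := by
    have : (c • C).map (algebraMap k L) = c • C.map (algebraMap k L) := by
      ext; simp [Algebra.smul_def]
    rw [this, Matrix.mul_smul, Matrix.smul_mul, RingHom.id_apply]

theorem Phi_apply (N : LinSystem X σ) (M : LinSystem X ι) (n : ℕ) (C : Matrix (Fin n → ι) σ k) :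
    Phi N M n C = tpow n M.F * C.map (algebraMap k L) * N.Fᵀ := rfl

theorem LinSystem.mul_inv (M : LinSystem X ι) : M.F * M.F⁻¹ = 1 :=
  Matrix.mul_nonsing_inv _ (isUnit_iff_ne_zero.2 M.det_ne)

theorem LinSystem.inv_mul (M : LinSystem X ι) : M.F⁻¹ * M.F = 1 :=
  Matrix.nonsing_inv_mul _ (isUnit_iff_ne_zero.2 M.det_ne)

theorem der_tpow (M : LinSystem X ι) (n : ℕ) :
    (tpow n M.F).map X.δ = tder n M.A * tpow n M.F := by
  rw [map_der_tpow X.δ n M.mul_inv]
  refine tpow_tder n ?_
  rw [← Matrix.mul_assoc, M.mul_inv, Matrix.one_mul, M.sol]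

theorem map_const_der {m m' : Type} (C : Matrix m m' k) :
    (C.map (algebraMap k L)).map X.δ = 0 := by
  ext i j
  simp

theorem Phi_sol (N : LinSystem X σ) (M : LinSystem X ι) (n : ℕ) (C : Matrix (Fin n → ι) σ k) :
    (Phi N M n C).map X.δ = tder n M.A * Phi N M n C + Phi N M n C * N.Aᵀ := by
  rw [Phi_apply, mdm, mdm, der_tpow, map_const_der, Matrix.mul_zero, add_zero, mdT, N.sol,
    Matrix.transpose_mul]
  simp only [Matrix.mul_assoc]

/-- All solutions in `L` are given by constant matrices. -/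
theorem exists_Phi (N : LinSystem X σ) (M : LinSystem X ι) (n : ℕ) {U : Matrix (Fin n → ι) σ L}
    (hU : U.map X.δ = tder n M.A * U + U * N.Aᵀ) : ∃ C, Phi N M n C = U := by
  set V : Matrix (Fin n → ι) σ L := tpow n M.F⁻¹ * U * (N.F⁻¹)ᵀ with hV
  have h1 : tpow n M.F * V * N.Fᵀ = U := by
    rw [hV, ← Matrix.mul_assoc, ← Matrix.mul_assoc, ← tpow_mul, M.mul_inv, tpow_one, Matrix.one_mul,
      Matrix.mul_assoc, ← Matrix.transpose_mul, N.mul_inv, Matrix.transpose_one, Matrix.mul_one]
  have h2 : tpow n M.F * V.map X.δ * N.Fᵀ = 0 := by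
    have h3 : (tpow n M.F * V * N.Fᵀ).map X.δ = U.map X.δ := congrArg (fun Y => Y.map X.δ) h1
    rw [mdm, mdm, der_tpow, mdT, N.sol, Matrix.transpose_mul, hU, Matrix.add_mul] at h3
    have h4 : tder n M.A * tpow n M.F * V * N.Fᵀ = tder n M.A * U := by
      rw [← h1]
      simp only [Matrix.mul_assoc]
    have h5 : tpow n M.F * V * (N.Fᵀ * N.Aᵀ) = U * N.Aᵀ := by
      rw [← Matrix.mul_assoc, h1]
    rw [h4, h5] at h3
    have h6 := add_right_cancel h3
    exact (add_eq_left.1 h6)
  have h7 : V.map X.δ = 0 := by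
    have h8 : tpow n M.F⁻¹ * (tpow n M.F * V.map X.δ * N.Fᵀ) * (N.F⁻¹)ᵀ =
        tpow n M.F⁻¹ * (0 : Matrix (Fin n → ι) σ L) * (N.F⁻¹)ᵀ := by rw [h2]
    rw [← Matrix.mul_assoc, ← Matrix.mul_assoc, ← tpow_mul, M.inv_mul, tpow_one, Matrix.one_mul,
      Matrix.mul_assoc, ← Matrix.transpose_mul, N.inv_mul, Matrix.transpose_one, Matrix.mul_one,
      Matrix.mul_zero, Matrix.zero_mul] at h8
    exact h8
  choose c hc using fun (I : Fin n → ι) (a : σ) => X.const (V I a) (congrFun (congrFun h7 I) a)
  refine ⟨Matrix.of c, ?_⟩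
  have h9 : (Matrix.of c).map (algebraMap k L) = V := by
    ext I a
    exact hc I a
  rw [Phi_apply, h9, h1]

theorem charZero_of_ext (k L : Type) [Field k] [Field L] [CharZero L] [Algebra k L] : CharZero k :=
  ⟨fun a b h => by
    have : (a : L) = (b : L) := by
      have := congrArg (algebraMap k L) h
      simpa using this
    exact_mod_cast this⟩

/-- **The gap law.** -/
theorem gap (N : LinSystem X σ) (M : LinSystem X ι) (h : ¬ M.IsProjAlg) (n : ℕ) :
    (finrank k (algSol N M n) : ℝ) ≤
      Real.sqrt (Fintype.card ι / (2 * (n + 1))) * (Fintype.card σ * (Fintype.card ι : ℝ) ^ n) := by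
  have : CharZero k := charZero_of_ext k L
  obtain ⟨D, x, y, hx, hMx, hNy⟩ := exists_lie N M h
  have hle : algSol N M n ≤ (LinearMap.ker (ZZ n x yᵀ)).map (Phi N M n) := by
    rintro U ⟨hU1, hU2⟩
    obtain ⟨C, hC⟩ := exists_Phi N M n hU1
    refine ⟨C, ?_, hC⟩
    have h0 : U.map D = 0 := by
      ext I a
      exact der_algebraic D (hU2 I a)
    have hCD : (C.map (algebraMap k L)).map D = 0 := by
      ext I a
      rw [Matrix.map_apply, Matrix.map_apply, Matrix.zero_apply]
      exact D.map_algebraMap (⟨_, X.const_mem (C I a)⟩ : X.K)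
    have h1 : (tpow n M.F).map D = tpow n M.F * tder n (x.map (algebraMap k L)) := by
      rw [map_der_tpow D n M.mul_inv, hMx]
    have h2 : N.Fᵀ.map D = (y.map (algebraMap k L))ᵀ * N.Fᵀ := by
      rw [mdT, ← Matrix.transpose_mul, ← hNy, ← Matrix.mul_assoc, N.mul_inv, Matrix.one_mul]
    rw [← hC, Phi_apply, mdm, mdm, h1, hCD, Matrix.mul_zero, add_zero, h2] at h0
    have h3 : tder n (x.map (algebraMap k L)) * C.map (algebraMap k L) +
        C.map (algebraMap k L) * (y.map (algebraMap k L))ᵀ = 0 := by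
      have h4 := congrArg (fun Y => tpow n M.F⁻¹ * Y * (N.F⁻¹)ᵀ) h0
      simp only [Matrix.mul_zero, Matrix.zero_mul] at h4
      rw [← h4]
      have e1 : tpow n M.F⁻¹ * (tpow n M.F * tder n (x.map (algebraMap k L)) *
          C.map (algebraMap k L) * N.Fᵀ) * (N.F⁻¹)ᵀ =
          (tpow n M.F⁻¹ * tpow n M.F) * (tder n (x.map (algebraMap k L)) *
          C.map (algebraMap k L)) * (N.Fᵀ * (N.F⁻¹)ᵀ) := by
        simp only [Matrix.mul_assoc]
      have e2 : tpow n M.F⁻¹ * (tpow n M.F * C.map (algebraMap k L) *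
          ((y.map (algebraMap k L))ᵀ * N.Fᵀ)) * (N.F⁻¹)ᵀ =
          (tpow n M.F⁻¹ * tpow n M.F) * (C.map (algebraMap k L) * (y.map (algebraMap k L))ᵀ) *
          (N.Fᵀ * (N.F⁻¹)ᵀ) := by
        simp only [Matrix.mul_assoc]
      rw [Matrix.mul_add, Matrix.add_mul, e1, e2, ← tpow_mul, M.inv_mul, tpow_one,
        ← Matrix.transpose_mul, N.inv_mul, Matrix.transpose_one, Matrix.one_mul, Matrix.mul_one,
        Matrix.one_mul, Matrix.mul_one]
    rw [SetLike.mem_coe, LinearMap.mem_ker, ZZ_apply]
    have h5 : (tder n x * C + C * yᵀ).map (algebraMap k L) = 0 := by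
      rw [← h3]
      have e3 : tder n (x.map (algebraMap k L)) = (tder n x).map (algebraMap k L) := by
        ext I J
        simp only [tder, Matrix.of_apply, Matrix.map_apply, map_sum]
        exact Finset.sum_congr rfl fun p _ => by split_ifs <;> simp
      rw [e3]
      ext I a
      simp only [Matrix.map_apply, Matrix.add_apply, Matrix.mul_apply, map_add, map_sum, map_mul,
        Matrix.transpose_apply]
    ext I a
    have h6 := congrFun (congrFun h5 I) a
    rw [Matrix.map_apply, Matrix.zero_apply] at h6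
    exact (algebraMap k L).injective (by rw [h6, Matrix.zero_apply, map_zero])
  have h1 : finrank k (algSol N M n) ≤ finrank k (LinearMap.ker (ZZ n x yᵀ)) :=
    (Submodule.finrank_mono hle).trans (Submodule.finrank_map_le _ _)
  refine (Nat.cast_le.2 h1).trans ((kernel_bound n hx yᵀ).trans (le_of_eq ?_))
  ring

/-- There are at most `|σ| * |ι| ^ n` solutions. -/
theorem finrank_algSol_le (N : LinSystem X σ) (M : LinSystem X ι) (n : ℕ) :
    finrank k (algSol N M n) ≤ Fintype.card σ * Fintype.card ι ^ n := by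
  have hle : algSol N M n ≤ (⊤ : Submodule k (Matrix (Fin n → ι) σ k)).map (Phi N M n) := by
    rintro U ⟨hU1, hU2⟩
    obtain ⟨C, hC⟩ := exists_Phi N M n hU1
    exact ⟨C, trivial, hC⟩
  refine ((Submodule.finrank_mono hle).trans (Submodule.finrank_map_le _ _)).trans ?_
  rw [finrank_top, Module.finrank_matrix, Module.finrank_self, mul_one, Fintype.card_fun,
    Fintype.card_fin, mul_comm]

theorem isAlgebraic_sum {K : Subfield L} {T : Type} (s : Finset T) (f : T → L)
    (h : ∀ i ∈ s, IsAlgebraic K (f i)) : IsAlgebraic K (∑ i ∈ s, f i) := by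
  classical
  induction s using Finset.induction_on with
  | empty =>
    rw [Finset.sum_empty]
    exact isAlgebraic_zero
  | insert a s ha ih =>
    rw [Finset.sum_insert ha]
    exact (h a (Finset.mem_insert_self _ _)).add (ih fun i hi => h i (Finset.mem_insert_of_mem hi))

theorem isAlgebraic_prod {K : Subfield L} {T : Type} (s : Finset T) (f : T → L)
    (h : ∀ i ∈ s, IsAlgebraic K (f i)) : IsAlgebraic K (∏ i ∈ s, f i) := by
  classical
  induction s using Finset.induction_on with
  | empty =>
    rw [Finset.prod_empty]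
    exact isAlgebraic_one
  | insert a s ha ih =>
    rw [Finset.prod_insert ha]
    exact (h a (Finset.mem_insert_self _ _)).mul (ih fun i hi => h i (Finset.mem_insert_of_mem hi))

/-- If all solutions of `M` and `N` are algebraic so are all solutions of the tensor systems. -/
theorem finrank_algSol_eq {N : LinSystem X σ} {M : LinSystem X ι} (hN : N.IsAlg) (hM : M.IsAlg)
    (n : ℕ) : finrank k (algSol N M n) = Fintype.card σ * Fintype.card ι ^ n := by
  refine le_antisymm (finrank_algSol_le N M n) ?_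
  have halg : ∀ C, Phi N M n C ∈ algSol N M n := by
    intro C
    refine ⟨Phi_sol N M n C, fun I a => ?_⟩
    rw [Phi_apply, Matrix.mul_apply]
    refine isAlgebraic_sum _ _ fun b _ => IsAlgebraic.mul ?_ (hN a b)
    rw [Matrix.mul_apply]
    refine isAlgebraic_sum _ _ fun J _ => IsAlgebraic.mul ?_ ?_
    · change IsAlgebraic X.K (∏ p, M.F (I p) (J p))
      exact isAlgebraic_prod _ _ fun p _ => hM (I p) (J p)
    · rw [Matrix.map_apply]
      exact isAlgebraic_algebraMap (⟨_, X.const_mem (C J b)⟩ : X.K)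
  have hinj : Function.Injective (Phi N M n) := by
    intro C C' h
    rw [Phi_apply, Phi_apply] at h
    have h8 : tpow n M.F⁻¹ * (tpow n M.F * C.map (algebraMap k L) * N.Fᵀ) * (N.F⁻¹)ᵀ =
        tpow n M.F⁻¹ * (tpow n M.F * C'.map (algebraMap k L) * N.Fᵀ) * (N.F⁻¹)ᵀ := by rw [h]
    rw [← Matrix.mul_assoc, ← Matrix.mul_assoc, ← tpow_mul, M.inv_mul, tpow_one, Matrix.one_mul,
      Matrix.mul_assoc, ← Matrix.transpose_mul, N.inv_mul, Matrix.transpose_one, Matrix.mul_one,
      ← Matrix.mul_assoc, ← Matrix.mul_assoc, ← tpow_mul, M.inv_mul, tpow_one, Matrix.one_mul,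
      Matrix.mul_assoc, ← Matrix.transpose_mul, N.inv_mul, Matrix.transpose_one, Matrix.mul_one] at h8
    ext I a
    exact (algebraMap k L).injective (congrFun (congrFun h8 I) a)
  have hfin : FiniteDimensional k (algSol N M n) := by
    have hle : algSol N M n ≤ (⊤ : Submodule k (Matrix (Fin n → ι) σ k)).map (Phi N M n) := by
      rintro U ⟨hU1, hU2⟩
      obtain ⟨C, hC⟩ := exists_Phi N M n hU1
      exact ⟨C, trivial, hC⟩
    exact Submodule.finiteDimensional_of_le hle
  have h1 := LinearMap.finrank_le_finrank_of_injective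
    (f := LinearMap.codRestrict (algSol N M n) (Phi N M n) halg)
    (fun C C' h => hinj (congrArg Subtype.val h))
  rw [Module.finrank_matrix, Module.finrank_self, mul_one, Fintype.card_fun,
    Fintype.card_fin, mul_comm] at h1
  exact h1

/-- The derivative of the determinant. -/
theorem der_det (M : LinSystem X ι) : X.δ M.F.det = M.A.trace * M.F.det := by
  let θ : L →+* TrivSqZeroExt L L :=
    { toFun := fun a => TrivSqZeroExt.inl a + TrivSqZeroExt.inr (X.δ a)
      map_one' := by
        rw [Derivation.map_one_eq_zero, TrivSqZeroExt.inr_zero, add_zero, TrivSqZeroExt.inl_one]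
      map_mul' := fun a b => by
        refine TrivSqZeroExt.ext ?_ ?_
        · simp
        · simp [Derivation.leibniz, mul_comm]
          try ring
      map_zero' := by
        rw [map_zero, TrivSqZeroExt.inr_zero, add_zero, TrivSqZeroExt.inl_zero]
      map_add' := fun a b => by
        rw [map_add, TrivSqZeroExt.inr_add, TrivSqZeroExt.inl_add]
        abel }
  let j : L →+* TrivSqZeroExt L L := TrivSqZeroExt.inlHom L L
  let ε : TrivSqZeroExt L L := TrivSqZeroExt.inr 1
  have h1 : M.F.map θ = (1 + ε • M.A.map j) * M.F.map j := by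
    rw [Matrix.add_mul, Matrix.one_mul, Matrix.smul_mul, ← Matrix.map_mul, ← M.sol]
    refine Matrix.ext fun a b => ?_
    refine TrivSqZeroExt.ext ?_ ?_
    · simp [θ, j, ε]
    · simp [θ, j, ε]
  have h2 : θ M.F.det = (1 + M.A.trace • ε) * j M.F.det := by
    rw [RingHom.map_det, RingHom.map_det, RingHom.mapMatrix_apply, RingHom.mapMatrix_apply, h1,
      Matrix.det_mul, Matrix.det_one_add_smul]
    congr 1
    have h3 : ε ^ 2 = 0 := by
      rw [pow_two]
      exact TrivSqZeroExt.inr_mul_inr _ _ _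
    rw [h3, mul_zero, add_zero]
    congr 1
    have h4 : (M.A.map j).trace = j M.A.trace := by
      rw [Matrix.trace, Matrix.trace, map_sum]
      rfl
    rw [h4]
    refine TrivSqZeroExt.ext ?_ ?_ <;> simp [j, ε]
  have h5 := congrArg TrivSqZeroExt.snd h2
  simpa [θ, j, ε] using h5

/-- A projectively algebraic system with algebraic determinant is algebraic. -/
theorem LinSystem.IsProjAlg.isAlg {M : LinSystem X ι} (h : M.IsProjAlg)
    (hdet : IsAlgebraic X.K M.F.det) : M.IsAlg := by
  classical
  intro i j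
  by_cases h0 : M.F i j = 0
  · rw [h0]
    exact isAlgebraic_zero
  -- `F = a • Y`, `Y` algebraic
  set a := M.F i j with ha
  let Y : Matrix ι ι L := Matrix.of fun p q => M.F p q / a
  have h1 : M.F = a • Y := by
    ext p q
    change M.F p q = a * (M.F p q / a)
    rw [mul_div_cancel₀ _ h0]
  have h2 : IsAlgebraic X.K Y.det := by
    rw [Matrix.det_apply]
    refine isAlgebraic_sum _ _ fun s _ => ?_
    rw [Units.smul_def, zsmul_eq_mul]
    refine IsAlgebraic.mul ?_ (isAlgebraic_prod _ _ fun p _ => h _ _ _ _)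
    exact isAlgebraic_intCast _
  have h3 : M.F.det = a ^ Fintype.card ι * Y.det := by
    rw [h1, Matrix.det_smul]
  have hY0 : Y.det ≠ 0 := by
    intro h4
    rw [h4, mul_zero] at h3
    exact M.det_ne h3
  have h5 : IsAlgebraic X.K (a ^ Fintype.card ι) := by
    rw [show a ^ Fintype.card ι = M.F.det * (Y.det)⁻¹ by rw [h3, mul_assoc, mul_inv_cancel₀ hY0, mul_one]]
    exact hdet.mul h2.inv
  have h6 : 0 < Fintype.card ι := Fintype.card_pos_iff.2 ⟨i⟩
  exact IsAlgebraic.of_pow h6 h5

end Pool.Agent.D0H93.PC
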