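import Pool.Agent.D0H93.PC.Sym

/-!
# Symmetric tensors and kernels of Kronecker sums
-/

set_option autoImplicit false
set_option linter.unusedSectionVars false
set_option linter.unusedVariables false

open Module Matrix

namespace Pool.Agent.D0H93.PC

open Pool.Agent.D0H93.MT

section ms

variable {ι : Type}

/-- The multiset of the values of a tuple. -/
def ms {n : ℕ} (I : Fin n → ι) : Sym ι n := ⟨Finset.univ.val.map I, by simp⟩

theorem ms_coe {n : ℕ} (I : Fin n → ι) : (ms I : Multiset ι) = Finset.univ.val.map I := rfl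

theorem ms_comp {n : ℕ} (I : Fin n → ι) (π : Equiv.Perm (Fin n)) : ms (I ∘ π) = ms I := by
  apply Sym.coe_injective
  rw [ms_coe, ms_coe, Fin.univ_val_map, Fin.univ_val_map]
  exact Multiset.coe_eq_coe.2 (π.ofFn_comp_perm I)

/-- Tuples with the same multiset of values differ by a permutation. -/
theorem exists_perm [Finite ι] {n : ℕ} {I J : Fin n → ι} (h : ms I = ms J) :
    ∃ π : Equiv.Perm (Fin n), J = I ∘ π := by
  obtain ⟨m, ⟨e⟩⟩ := Finite.exists_equiv_fin ι
  have h1 : List.Perm (List.ofFn I) (List.ofFn J) := by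
    have h2 := congrArg (fun s : Sym ι n => (s : Multiset ι)) h
    simp only [ms_coe, Fin.univ_val_map] at h2
    exact Multiset.coe_eq_coe.1 h2
  have h3 : List.Perm (List.ofFn (e ∘ I)) (List.ofFn (e ∘ J)) := by
    have := h1.map e
    rwa [List.map_ofFn, List.map_ofFn] at this
  have h4 : (e ∘ I) ∘ Tuple.sort (e ∘ I) = (e ∘ J) ∘ Tuple.sort (e ∘ J) :=
    List.ofFn_injective <|
      ((((Tuple.sort (e ∘ I)).ofFn_comp_perm (e ∘ I)).trans h3).trans
        ((Tuple.sort (e ∘ J)).ofFn_comp_perm (e ∘ J)).symm).eq_of_pairwise'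
        (Tuple.monotone_sort _).sortedLE_ofFn.pairwise (Tuple.monotone_sort _).sortedLE_ofFn.pairwise
  refine ⟨(Tuple.sort (e ∘ J)).symm.trans (Tuple.sort (e ∘ I)), ?_⟩
  funext q
  have h5 := congrFun h4 ((Tuple.sort (e ∘ J)).symm q)
  simp only [Function.comp_apply, Equiv.apply_symm_apply] at h5
  exact (e.injective h5).symm

theorem ms_surjective (n : ℕ) : Function.Surjective (ms : (Fin n → ι) → Sym ι n) := by
  intro s
  obtain ⟨l, hl⟩ := Quot.exists_rep (s : Multiset ι)
  have hlen : l.length = n := by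
    have h1 := Sym.card_coe (s := s)
    rw [← hl] at h1
    exact h1
  subst hlen
  refine ⟨l.get, Sym.coe_injective ?_⟩
  rw [ms_coe, Fin.univ_val_map, List.ofFn_get]
  exact hl

end ms

section symbol

variable {k : Type} [Field k] {T A : Type} [Fintype T] [AddCommGroup A] [Module k A]
  [FiniteDimensional k A]

/-- A space of functions is not larger than the space of the leading parts. -/
theorem symbol_le' (w : T → ℕ) (U U' : Submodule k (T → A))
    (H : ∀ m f, (∀ J, m < w J → f J = 0) → f ∈ U → part k w m f ∈ U') :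
    finrank k U ≤ finrank k U' := by
  have key : ∀ m, finrank k (U ⊓ fil k A w m : Submodule k (T → A)) ≤
      finrank k (U' ⊓ fil k A w m : Submodule k (T → A)) := by
    intro m
    induction m with
    | zero =>
      have h0 : (fil k A w 0 : Submodule k (T → A)) = ⊥ := by
        rw [eq_bot_iff]
        intro f hf
        rw [Submodule.mem_bot]
        funext J
        exact hf J (Nat.zero_le _)
      rw [h0, inf_bot_eq, inf_bot_eq]
    | succ m ih =>
      let X : Submodule k (T → A) := U ⊓ fil k A w (m + 1)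
      let π : X →ₗ[k] (T → A) := (part k w m) ∘ₗ X.subtype
      have h1 := LinearMap.finrank_range_add_finrank_ker π
      have h2 : LinearMap.range π ≤ U' ⊓ gra k A w m := by
        rintro _ ⟨⟨f, hf1, hf2⟩, rfl⟩
        refine ⟨?_, ?_⟩
        · exact H m f (fun J hJ => hf2 J hJ) hf1
        · intro J hJ
          show part k w m f J = 0
          rw [part_apply, if_neg hJ]
      have h3 : finrank k (LinearMap.ker π) ≤
          finrank k (U ⊓ fil k A w m : Submodule k (T → A)) := by
        let j : LinearMap.ker π →ₗ[k] (U ⊓ fil k A w m : Submodule k (T → A)) :=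
          LinearMap.codRestrict _ (X.subtype ∘ₗ (LinearMap.ker π).subtype) (by
            rintro ⟨⟨f, hf1, hf2⟩, hf3⟩
            refine ⟨hf1, fun J hJ => ?_⟩
            rcases Nat.lt_or_ge m (w J) with h | h
            · exact hf2 J h
            · have h4 : w J = m := le_antisymm h hJ
              have h5 := congrFun (show part k w m f = 0 from hf3) J
              rw [part_apply, if_pos h4] at h5
              exact h5)
        refine LinearMap.finrank_le_finrank_of_injective (f := j) fun a b hab => ?_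
        have := congrArg Subtype.val hab
        exact Subtype.ext (Subtype.ext this)
      have h4 : finrank k (U' ⊓ fil k A w m : Submodule k (T → A)) +
          finrank k (U' ⊓ gra k A w m : Submodule k (T → A)) ≤
          finrank k (U' ⊓ fil k A w (m + 1) : Submodule k (T → A)) := by
        have h5 := Submodule.finrank_sup_add_finrank_inf_eq
          (U' ⊓ fil k A w m : Submodule k (T → A))
          (U' ⊓ gra k A w m : Submodule k (T → A))
        have h6 : ((U' ⊓ fil k A w m) ⊓ (U' ⊓ gra k A w m) :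
            Submodule k (T → A)) = ⊥ := by
          rw [eq_bot_iff]
          rintro f ⟨⟨-, hf1⟩, ⟨-, hf2⟩⟩
          rw [Submodule.mem_bot]
          funext J
          rcases Nat.lt_or_ge (w J) m with h | h
          · exact hf2 J h.ne
          · exact hf1 J h
        rw [h6, finrank_bot, add_zero] at h5
        rw [← h5]
        refine Submodule.finrank_mono (sup_le ?_ ?_)
        · rintro f ⟨hf1, hf2⟩
          exact ⟨hf1, fun J hJ => hf2 J (by omega)⟩
        · rintro f ⟨hf1, hf2⟩
          exact ⟨hf1, fun J hJ => hf2 J (by omega)⟩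
      have h7 := Submodule.finrank_mono h2
      have h8 : finrank k X = finrank k (U ⊓ fil k A w (m + 1) : Submodule k (T → A)) := rfl
      omega
  have htop : (fil k A w (Finset.univ.sup w + 1) : Submodule k (T → A)) = ⊤ := by
    rw [eq_top_iff]
    intro f _ J hJ
    have := Finset.le_sup (f := w) (Finset.mem_univ J)
    omega
  have := key (Finset.univ.sup w + 1)
  rwa [htop, inf_top_eq, inf_top_eq] at this

end symbol

section symt

variable (k : Type) [Field k] (ι σ : Type) (n : ℕ)

/-- The symmetric tensors with values in `k ^ σ`: the entries `M I a` depend only on the multiset of the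
values of `I`. -/
def symT : Submodule k (Matrix (Fin n → ι) σ k) where
  carrier := {M | ∀ I J a, ms I = ms J → M I a = M J a}
  zero_mem' := fun _ _ _ _ => rfl
  add_mem' := by
    intro M N hM hN I J a h
    rw [Matrix.add_apply, Matrix.add_apply, hM I J a h, hN I J a h]
  smul_mem' := by
    intro c M hM I J a h
    rw [Matrix.smul_apply, Matrix.smul_apply, hM I J a h]

end symt

variable {k : Type} [Field k] {ι : Type} [Fintype ι] [DecidableEq ι] {σ : Type} [Fintype σ]
  [DecidableEq σ]

theorem mem_symT {n : ℕ} {M : Matrix (Fin n → ι) σ k} :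
    M ∈ symT k ι σ n ↔ ∀ (π : Equiv.Perm (Fin n)) I a, M (I ∘ π) a = M I a := by
  constructor
  · intro h π I a
    exact h _ _ a (ms_comp I π)
  · intro h I J a hIJ
    obtain ⟨π, hπ⟩ := exists_perm hIJ
    rw [hπ, h]

theorem update_ms {n : ℕ} (I : Fin n → ι) (p : Fin n) (j : ι) :
    (ms (Function.update I p j) : Multiset ι) = j ::ₘ (ms I : Multiset ι).erase (I p) := by
  rw [ms_coe, ms_coe]
  have h1 : (Finset.univ : Finset (Fin n)).val = p ::ₘ (Finset.univ.erase p).val := by
    rw [← Finset.insert_val_of_notMem (Finset.notMem_erase p _), Finset.insert_erase (Finset.mem_univ p)]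
  rw [h1, Multiset.map_cons, Multiset.map_cons, Function.update_self, Multiset.erase_cons_head]
  congr 1
  refine Multiset.map_congr rfl fun q hq => ?_
  have hq' : q ∈ Finset.univ.erase p := hq
  rw [Function.update_of_ne (Finset.ne_of_mem_erase hq')]

theorem count_ms {n : ℕ} (I : Fin n → ι) (i : ι) :
    (Finset.univ.filter fun p => I p = i).card = (ms I : Multiset ι).count i := by
  rw [ms_coe, Multiset.count_map]
  rw [Finset.card_def, Finset.filter_val]
  congr 1
  exact Multiset.filter_congr fun p _ => eq_comm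

/-- The kernel of the symbol on symmetric tensors. -/
theorem finrank_ker_EV_sym [CharZero k] {i₀ i₁ : ι} (h01 : i₀ ≠ i₁) (n : ℕ) :
    finrank k (LinearMap.ker (EV k σ i₀ i₁ n) ⊓ symT k ι σ n :
      Submodule k ((Fin n → ι) → (σ → k))) ≤
      Fintype.card σ * (Fintype.card ι - 1).multichoose n := by
  classical
  have h0 : ∀ f ∈ (LinearMap.ker (EV k σ i₀ i₁ n) ⊓ symT k ι σ n :
      Submodule k ((Fin n → ι) → (σ → k))), ∀ I p, I p = i₀ → f I = 0 := by
    rintro f ⟨hf1, hf2⟩ I p hp
    have h1 := congrFun (LinearMap.mem_ker.1 hf1) (Function.update I p i₁)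
    rw [EV_apply, Pi.zero_apply] at h1
    have h2 : ∀ q, (if Function.update I p i₁ q = i₁ then
        f (Function.update (Function.update I p i₁) q i₀) else 0) =
        if Function.update I p i₁ q = i₁ then f I else 0 := by
      intro q
      split_ifs with hq
      · funext a
        refine hf2 _ _ a (Sym.coe_injective ?_)
        rw [update_ms, update_ms, hq, Multiset.erase_cons_head, hp]
        refine Multiset.cons_erase ?_
        rw [ms_coe]
        exact Multiset.mem_map.2 ⟨p, Finset.mem_univ p, hp⟩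
      · rfl
    rw [Finset.sum_congr rfl fun q _ => h2 q, ← Finset.sum_filter, Finset.sum_const] at h1
    have h3 : (Finset.univ.filter fun q => Function.update I p i₁ q = i₁).card ≠ 0 := by
      rw [Finset.card_ne_zero]
      exact ⟨p, Finset.mem_filter.2 ⟨Finset.mem_univ p, Function.update_self _ _ _⟩⟩
    funext a
    have h4 := congrFun h1 a
    rw [Pi.smul_apply, Pi.zero_apply, nsmul_eq_mul] at h4
    exact (mul_eq_zero.1 h4).resolve_left (Nat.cast_ne_zero.2 h3)
  let rep : Sym {i : ι // i ≠ i₀} n → (Fin n → {i : ι // i ≠ i₀}) :=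
    Function.surjInv (ms_surjective n)
  have hrep : ∀ s, ms (rep s) = s := Function.surjInv_eq (ms_surjective n)
  let g : (LinearMap.ker (EV k σ i₀ i₁ n) ⊓ symT k ι σ n :
      Submodule k ((Fin n → ι) → (σ → k))) →ₗ[k] (Sym {i : ι // i ≠ i₀} n → (σ → k)) :=
    { toFun := fun f s => f.1 fun q => (rep s q).1
      map_add' := fun _ _ => rfl
      map_smul' := fun _ _ => rfl }
  have hg : Function.Injective g := by
    rw [injective_iff_map_eq_zero]
    rintro ⟨f, hf⟩ hgf
    apply Subtype.ext
    funext I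
    by_cases hI : ∃ p, I p = i₀
    · obtain ⟨p, hp⟩ := hI
      exact h0 f hf I p hp
    · push Not at hI
      let I' : Fin n → {i : ι // i ≠ i₀} := fun q => ⟨I q, hI q⟩
      have h1 := congrFun hgf (ms I')
      have h2 : ms (fun q => (rep (ms I') q).1) = ms I := by
        apply Sym.coe_injective
        have h3 := congrArg (fun s : Sym {i : ι // i ≠ i₀} n => ((s : Multiset {i : ι // i ≠ i₀}).map Subtype.val))
          (hrep (ms I'))
        simp only [ms_coe, Multiset.map_map] at h3
        rw [ms_coe, ms_coe]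
        exact h3
      funext a
      exact (hf.2 _ _ a h2.symm).trans (congrFun h1 a)
  have h1 := LinearMap.finrank_le_finrank_of_injective hg
  rw [Module.finrank_pi_fintype, Finset.sum_const, Module.finrank_fintype_fun_eq_card,
    Finset.card_univ, Sym.card_sym_eq_multichoose, smul_eq_mul, mul_comm] at h1
  have h2 : Fintype.card {i : ι // i ≠ i₀} = Fintype.card ι - 1 := by
    rw [Fintype.card_subtype_compl, Fintype.card_subtype_eq]
  rwa [h2] at h1

theorem symT_tpow {n : ℕ} (Q : Matrix ι ι k) {M : Matrix (Fin n → ι) σ k}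
    (hM : M ∈ symT k ι σ n) : tpow n Q * M ∈ symT k ι σ n := by
  rw [mem_symT] at hM ⊢
  intro π I a
  rw [Matrix.mul_apply, Matrix.mul_apply]
  refine Fintype.sum_equiv (Equiv.arrowCongr π (Equiv.refl ι)) _ _ fun J => ?_
  have h1 : ∀ J : Fin n → ι, (Equiv.arrowCongr π (Equiv.refl ι)) J = J ∘ π.symm := fun J => rfl
  rw [h1]
  have h2 : M (J ∘ π.symm) a = M J a := hM π.symm J a
  rw [h2]
  congr 1
  show ∏ q, Q ((I ∘ π) q) (J q) = ∏ q, Q (I q) ((J ∘ π.symm) q)
  rw [← Equiv.prod_comp π (fun q => Q (I q) ((J ∘ π.symm) q))]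
  exact Finset.prod_congr rfl fun q _ => by simp

theorem finrank_sym_conj (n : ℕ) {x P Q : Matrix ι ι k} (hPQ : P * Q = 1) (y : Matrix σ σ k) :
    finrank k (LinearMap.ker (ZZ n x y) ⊓ symT k ι σ n :
      Submodule k (Matrix (Fin n → ι) σ k)) ≤
    finrank k (LinearMap.ker (ZZ n (Q * x * P) y) ⊓ symT k ι σ n :
      Submodule k (Matrix (Fin n → ι) σ k)) := by
  have h1 : Q * x = (Q * x * P) * Q := by
    rw [mul_assoc _ P Q, hPQ, mul_one]
  have h2 := tpow_tder n h1
  let j : (LinearMap.ker (ZZ n x y) ⊓ symT k ι σ n : Submodule k (Matrix (Fin n → ι) σ k)) →ₗ[k]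
      (LinearMap.ker (ZZ n (Q * x * P) y) ⊓ symT k ι σ n : Submodule k (Matrix (Fin n → ι) σ k)) :=
    LinearMap.codRestrict _
      ({ toFun := fun M => tpow n Q * M.1
         map_add' := fun M N => Matrix.mul_add _ _ _
         map_smul' := fun c M => Matrix.mul_smul _ _ _ } :
        (LinearMap.ker (ZZ n x y) ⊓ symT k ι σ n : Submodule k (Matrix (Fin n → ι) σ k)) →ₗ[k]
          Matrix (Fin n → ι) σ k) (by
      rintro ⟨M, hM, hM'⟩
      refine ⟨?_, symT_tpow Q hM'⟩
      rw [SetLike.mem_coe, LinearMap.mem_ker, ZZ_apply] at hM ⊢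
      show tder n (Q * x * P) * (tpow n Q * M) + tpow n Q * M * y = 0
      rw [← Matrix.mul_assoc, ← h2, Matrix.mul_assoc, Matrix.mul_assoc, ← Matrix.mul_add, hM,
        Matrix.mul_zero])
  refine LinearMap.finrank_le_finrank_of_injective (f := j) fun M N hMN => ?_
  have h3 : tpow n Q * M.1 = tpow n Q * N.1 := congrArg Subtype.val hMN
  have h4 := congrArg (fun X => tpow n P * X) h3
  simp only [← Matrix.mul_assoc] at h4
  rw [← tpow_mul, hPQ, tpow_one, Matrix.one_mul, Matrix.one_mul] at h4
  exact Subtype.ext h4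

theorem sym_H {i₀ i₁ : ι} (h01 : i₀ ≠ i₁) (n : ℕ) {x : Matrix ι ι k}
    (hx : x i₁ i₀ ≠ 0) (y : Matrix σ σ k) (m : ℕ) (M : (Fin n → ι) → (σ → k))
    (hM : ∀ J : Fin n → ι, m < ∑ q, wt i₀ i₁ (J q) → M J = 0) (hZ : ZZ n x y M = 0) :
    EV k σ i₀ i₁ n (part k (fun I : Fin n → ι => ∑ q, wt i₀ i₁ (I q)) m M) = 0 := by
  classical
  have w0 : wt i₀ i₁ i₀ = 0 := by simp [wt]
  have w1 : wt i₀ i₁ i₁ = 2 := by simp [wt, h01.symm]
  have w2 : ∀ i, wt i₀ i₁ i ≤ 2 := by
    intro i
    unfold wt
    split_ifs <;> omega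
  have w3 : ∀ i, 2 ≤ wt i₀ i₁ i → i = i₁ := by
    intro i hi
    unfold wt at hi
    split_ifs at hi with h1 h2
    · omega
    · exact h2
    · omega
  have w4 : ∀ i, wt i₀ i₁ i = 0 → i = i₀ := by
    intro i hi
    unfold wt at hi
    split_ifs at hi with h1 h2
    exact h1
  funext I
  rw [EV_apply, Pi.zero_apply]
  by_cases hI : ∑ q, wt i₀ i₁ (I q) = m + 2
  · have h1 : ∀ a, x i₁ i₀ * (∑ p, if I p = i₁ then part k (fun I : Fin n → ι => ∑ q, wt i₀ i₁ (I q)) m M
        (Function.update I p i₀) else 0 : σ → k) a = 0 := by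
      intro a
      have h2 : (∑ p, ∑ j, x (I p) j * M (Function.update I p j) a) + ∑ b, M I b * y b a = 0 :=
        (ZZ_entry n x y M I a).symm.trans (congrFun (congrFun hZ I) a)
      have h3 : ∑ b, M I b * y b a = 0 := by
        refine Finset.sum_eq_zero fun b _ => ?_
        have h4 : M I = 0 := hM I (by omega)
        rw [h4, Pi.zero_apply, zero_mul]
      rw [h3, add_zero] at h2
      rw [Finset.sum_apply, Finset.mul_sum]
      refine Eq.trans (Finset.sum_congr rfl fun p _ => ?_) h2
      have h5 : ∀ j, M (Function.update I p j) a ≠ 0 → I p = i₁ ∧ j = i₀ := by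
        intro j hj
        have h6 : ¬ m < ∑ q, wt i₀ i₁ (Function.update I p j q) := by
          intro h7
          exact hj (congrFun (hM _ h7) a)
        have h8 := wt_update i₀ i₁ I p j
        have h9 := w2 (I p)
        exact ⟨w3 _ (by omega), w4 _ (by omega)⟩
      by_cases hp : I p = i₁
      · rw [if_pos hp, part_apply, Finset.sum_eq_single i₀]
        · have h8 := wt_update i₀ i₁ I p i₀
          rw [hp, w1, w0] at h8
          rw [if_pos (by omega), hp]
        · intro j _ hj
          by_contra hne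
          exact hj (h5 j (right_ne_zero_of_mul hne)).2
        · intro h; exact absurd (Finset.mem_univ _) h
      · rw [if_neg hp, Pi.zero_apply, mul_zero]
        symm
        refine Finset.sum_eq_zero fun j _ => ?_
        by_contra hne
        exact hp (h5 j (right_ne_zero_of_mul hne)).1
    funext a
    exact (mul_eq_zero.1 (h1 a)).resolve_left hx
  · refine Finset.sum_eq_zero fun p _ => ?_
    split_ifs with hp
    · rw [part_apply, if_neg]
      have h8 := wt_update i₀ i₁ I p i₀
      rw [hp, w1, w0] at h8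
      omega
    · rfl

theorem finrank_sym_le [CharZero k] {i₀ i₁ : ι} (h01 : i₀ ≠ i₁) (n : ℕ) {x : Matrix ι ι k}
    (hx : x i₁ i₀ ≠ 0) (y : Matrix σ σ k) :
    finrank k (LinearMap.ker (ZZ n x y) ⊓ symT k ι σ n :
      Submodule k (Matrix (Fin n → ι) σ k)) ≤
      Fintype.card σ * (Fintype.card ι - 1).multichoose n := by
  refine le_trans ?_ (finrank_ker_EV_sym (k := k) (σ := σ) h01 n)
  refine symbol_le' (fun I : Fin n → ι => ∑ q, wt i₀ i₁ (I q))
    (LinearMap.ker (ZZ n x y) ⊓ symT k ι σ n)
    (LinearMap.ker (EV k σ i₀ i₁ n) ⊓ symT k ι σ n) ?_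
  rintro m M hM ⟨hZ, hS⟩
  refine ⟨?_, ?_⟩
  · exact sym_H h01 n hx y m M hM hZ
  · have hS' := mem_symT.1 hS
    refine mem_symT.2 fun π I a => ?_
    show part k (fun I : Fin n → ι => ∑ q, wt i₀ i₁ (I q)) m M (I ∘ π) a =
      part k (fun I : Fin n → ι => ∑ q, wt i₀ i₁ (I q)) m M I a
    rw [part_apply, part_apply]
    have h1 : ∑ q, wt i₀ i₁ ((I ∘ π) q) = ∑ q, wt i₀ i₁ (I q) :=
      Equiv.sum_comp π (fun q => wt i₀ i₁ (I q))
    rw [h1]
    split_ifs
    · exact hS' π I a
    · rfl

/-- **The kernel of the action of a matrix on symmetric tensors is small.** -/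
theorem kernel_bound_sym [CharZero k] (n : ℕ) {x : Matrix ι ι k} (hx : ∀ a : k, x ≠ a • 1)
    (y : Matrix σ σ k) :
    finrank k (LinearMap.ker (ZZ n x y) ⊓ symT k ι σ n :
      Submodule k (Matrix (Fin n → ι) σ k)) ≤
      Fintype.card σ * (Fintype.card ι - 1).multichoose n := by
  by_cases hoff : ∃ i₀ i₁ : ι, i₀ ≠ i₁ ∧ x i₁ i₀ ≠ 0
  · obtain ⟨i₀, i₁, h01, hne⟩ := hoff
    exact finrank_sym_le h01 n hne y
  · push Not at hoff
    have hd : ∃ i₀ i₁ : ι, i₀ ≠ i₁ ∧ x i₁ i₁ - x i₀ i₀ ≠ 0 := by
      by_contra hcon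
      push Not at hcon
      rcases isEmpty_or_nonempty ι with he | ⟨⟨i⟩⟩
      · refine hx 0 ?_
        ext i
        exact he.elim i
      · refine hx (x i i) ?_
        ext a b
        rw [Matrix.smul_apply, smul_eq_mul]
        by_cases hab : a = b
        · subst hab
          rw [Matrix.one_apply_eq, mul_one]
          by_cases hai : i = a
          · rw [hai]
          · exact sub_eq_zero.1 (hcon i a hai)
        · rw [Matrix.one_apply_ne hab, mul_zero]
          exact hoff b a (Ne.symm hab)
    obtain ⟨i₀, i₁, h01, hne⟩ := hd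
    let E : Matrix ι ι k := Matrix.single i₁ i₀ 1
    have hEE : E * E = 0 := Matrix.single_mul_single_of_ne _ _ _ _ h01 _
    have hPQ : (1 + E) * (1 - E) = 1 := by
      rw [add_mul, mul_sub, mul_sub, hEE, one_mul, one_mul, mul_one]
      abel
    have h1 := finrank_sym_conj (x := x) n hPQ y
    have h2 : ((1 - E) * x * (1 + E)) i₁ i₀ ≠ 0 := by
      have e1 : (E * x) i₁ i₀ = x i₀ i₀ := by simp [E]
      have e2 : (x * E) i₁ i₀ = x i₁ i₁ := by simp [E]
      have e3 : (E * x * E) i₁ i₀ = x i₀ i₁ := by
        simp [E]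
      rw [sub_mul, mul_add, mul_one, one_mul, sub_mul, Matrix.add_apply, Matrix.sub_apply,
        Matrix.sub_apply, e1, e2, e3, hoff i₀ i₁ h01, hoff i₁ i₀ h01.symm]
      simpa [sub_eq_add_neg, add_comm] using hne
    exact h1.trans (finrank_sym_le h01 n h2 y)

end Pool.Agent.D0H93.PC
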