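import Pool.Agent.D0H93.PC.Main
import Pool.Agent.D0H93.PC.SymA

/-!
# The gap law for the algebraic solutions of the symmetric powers
-/

set_option autoImplicit false
set_option linter.unusedSectionVars false
set_option linter.unusedVariables false

open Matrix Module

namespace Pool.Agent.D0H93.PC

open Pool.Agent.D0H93.MT

variable {k L : Type} [Field k] [Field L] [CharZero L] [Algebra k L] {X : DiffExt k L}
  {ι σ : Type} [Fintype ι] [DecidableEq ι] [Fintype σ] [DecidableEq σ]

/-- The algebraic solutions of `N ⊗ Sym ^ n M`: the elements of `algSol N M n` which are symmetric, that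
is, the entry `U I a` depends only on the multiset of the values of `I`. The rank of the system is
`|σ|` times the number `Nat.multichoose |ι| n` of the multisets. -/
def symSol (N : LinSystem X σ) (M : LinSystem X ι) (n : ℕ) :
    Submodule k (Matrix (Fin n → ι) σ L) where
  carrier := {U | U ∈ algSol N M n ∧ ∀ I J a, ms I = ms J → U I a = U J a}
  zero_mem' := ⟨(algSol N M n).zero_mem, fun _ _ _ _ => rfl⟩
  add_mem' := by
    rintro U V ⟨h1, h2⟩ ⟨h3, h4⟩
    refine ⟨(algSol N M n).add_mem h1 h3, fun I J a h => ?_⟩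
    rw [Matrix.add_apply, Matrix.add_apply, h2 I J a h, h4 I J a h]
  smul_mem' := by
    rintro c U ⟨h1, h2⟩
    refine ⟨(algSol N M n).smul_mem c h1, fun I J a h => ?_⟩
    rw [Matrix.smul_apply, Matrix.smul_apply, h2 I J a h]

theorem Phi_injective (N : LinSystem X σ) (M : LinSystem X ι) (n : ℕ) :
    Function.Injective (Phi N M n) := by
  intro C C' h
  rw [Phi_apply, Phi_apply] at h
  have h8 : tpow n M.F⁻¹ * (tpow n M.F * C.map (algebraMap k L) * N.Fᵀ) * (N.F⁻¹)ᵀ =
      tpow n M.F⁻¹ * (tpow n M.F * C'.map (algebraMap k L) * N.Fᵀ) * (N.F⁻¹)ᵀ := by rw [h]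
  rw [← Matrix.mul_assoc, ← Matrix.mul_assoc, ← tpow_mul, M.inv_mul, tpow_one, Matrix.one_mul,
    Matrix.mul_assoc, ← Matrix.transpose_mul, N.inv_mul, Matrix.transpose_one, Matrix.mul_one,
    ← Matrix.mul_assoc, ← Matrix.mul_assoc, ← tpow_mul, M.inv_mul, tpow_one, Matrix.one_mul,
    Matrix.mul_assoc, ← Matrix.transpose_mul, N.inv_mul, Matrix.transpose_one, Matrix.mul_one] at h8
  ext I a
  exact (algebraMap k L).injective (congrFun (congrFun h8 I) a)

theorem Phi_perm (N : LinSystem X σ) (M : LinSystem X ι) (n : ℕ) (C : Matrix (Fin n → ι) σ k)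
    (π : Equiv.Perm (Fin n)) (I : Fin n → ι) (a : σ) :
    Phi N M n C (I ∘ π) a = Phi N M n (C.submatrix (fun J => J ∘ π) id) I a := by
  rw [Phi_apply, Phi_apply, Matrix.mul_apply, Matrix.mul_apply]
  refine Finset.sum_congr rfl fun b _ => ?_
  congr 1
  rw [Matrix.mul_apply, Matrix.mul_apply]
  refine Fintype.sum_equiv (Equiv.arrowCongr π (Equiv.refl ι)) _ _ fun J => ?_
  have h1 : (Equiv.arrowCongr π (Equiv.refl ι)) J = J ∘ π.symm := rfl
  rw [h1, Matrix.map_apply, Matrix.map_apply, Matrix.submatrix_apply]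
  have h2 : (J ∘ π.symm) ∘ π = J := by
    funext q
    simp
  rw [h2]
  congr 1
  show ∏ q, M.F ((I ∘ π) q) (J q) = ∏ q, M.F (I q) ((J ∘ π.symm) q)
  rw [← Equiv.prod_comp π (fun q => M.F (I q) ((J ∘ π.symm) q))]
  exact Finset.prod_congr rfl fun q _ => by simp

theorem Phi_sym (N : LinSystem X σ) (M : LinSystem X ι) (n : ℕ) {C : Matrix (Fin n → ι) σ k} :
    (∀ I J a, ms I = ms J → Phi N M n C I a = Phi N M n C J a) ↔ C ∈ symT k ι σ n := by
  constructor
  · intro h
    refine mem_symT.2 fun π I a => ?_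
    have h1 : Phi N M n (C.submatrix (fun J => J ∘ π) id) = Phi N M n C := by
      ext I a
      rw [← Phi_perm]
      exact h _ _ a (ms_comp I π)
    have h2 := Phi_injective N M n h1
    exact congrFun (congrFun h2 I) a
  · intro h I J a hIJ
    obtain ⟨π, hπ⟩ := exists_perm hIJ
    have h1 : C.submatrix (fun J => J ∘ π) id = C := by
      ext I a
      exact mem_symT.1 h π I a
    rw [hπ, Phi_perm, h1]

/-- **The gap law for symmetric powers.** -/
theorem gap_sym (N : LinSystem X σ) (M : LinSystem X ι) (h : ¬ M.IsProjAlg) (n : ℕ) :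
    finrank k (symSol N M n) ≤ Fintype.card σ * (Fintype.card ι - 1).multichoose n := by
  have : CharZero k := charZero_of_ext k L
  obtain ⟨D, x, y, hx, hMx, hNy⟩ := exists_lie N M h
  have hle : symSol N M n ≤
      (LinearMap.ker (ZZ n x yᵀ) ⊓ symT k ι σ n : Submodule k (Matrix (Fin n → ι) σ k)).map
        (Phi N M n) := by
    rintro U ⟨⟨hU1, hU2⟩, hU3⟩
    obtain ⟨C, hC⟩ := exists_Phi N M n hU1
    refine ⟨C, ⟨?_, ?_⟩, hC⟩
    swap
    · rw [← hC] at hU3
      exact (Phi_sym N M n).1 hU3
    have h0 : U.map D = 0 := by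
      ext I a
      exact der_algebraic D (hU2 I a)
    have hCD : (C.map (algebraMap k L)).map D = 0 := by
      ext I a
      rw [Matrix.map_apply, Matrix.map_apply, Matrix.zero_apply]
      exact D.map_algebraMap (⟨_, X.const_mem (C I a)⟩ : X.K)
    have h1 : (tpow n M.F).map D = tpow n M.F * tder n (x.map (algebraMap k L)) := by
      rw [map_der_tpow D n M.mul_inv, hMx]
    have h2 : N.Fᵀ.map D = (y.map (algebraMap k L))ᵀ * N.Fᵀ := by
      rw [mdT, ← Matrix.transpose_mul, ← hNy, ← Matrix.mul_assoc, N.mul_inv, Matrix.one_mul]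
    rw [← hC, Phi_apply, mdm, mdm, h1, hCD, Matrix.mul_zero, add_zero, h2] at h0
    have h3 : tder n (x.map (algebraMap k L)) * C.map (algebraMap k L) +
        C.map (algebraMap k L) * (y.map (algebraMap k L))ᵀ = 0 := by
      have h4 := congrArg (fun Y => tpow n M.F⁻¹ * Y * (N.F⁻¹)ᵀ) h0
      simp only [Matrix.mul_zero, Matrix.zero_mul] at h4
      rw [← h4]
      have e1 : tpow n M.F⁻¹ * (tpow n M.F * tder n (x.map (algebraMap k L)) *
          C.map (algebraMap k L) * N.Fᵀ) * (N.F⁻¹)ᵀ =
          (tpow n M.F⁻¹ * tpow n M.F) * (tder n (x.map (algebraMap k L)) *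
          C.map (algebraMap k L)) * (N.Fᵀ * (N.F⁻¹)ᵀ) := by
        simp only [Matrix.mul_assoc]
      have e2 : tpow n M.F⁻¹ * (tpow n M.F * C.map (algebraMap k L) *
          ((y.map (algebraMap k L))ᵀ * N.Fᵀ)) * (N.F⁻¹)ᵀ =
          (tpow n M.F⁻¹ * tpow n M.F) * (C.map (algebraMap k L) * (y.map (algebraMap k L))ᵀ) *
          (N.Fᵀ * (N.F⁻¹)ᵀ) := by
        simp only [Matrix.mul_assoc]
      rw [Matrix.mul_add, Matrix.add_mul, e1, e2, ← tpow_mul, M.inv_mul, tpow_one,
        ← Matrix.transpose_mul, N.inv_mul, Matrix.transpose_one, Matrix.one_mul, Matrix.mul_one,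
        Matrix.one_mul, Matrix.mul_one]
    rw [SetLike.mem_coe, LinearMap.mem_ker, ZZ_apply]
    have h5 : (tder n x * C + C * yᵀ).map (algebraMap k L) = 0 := by
      rw [← h3]
      have e3 : tder n (x.map (algebraMap k L)) = (tder n x).map (algebraMap k L) := by
        ext I J
        simp only [tder, Matrix.of_apply, Matrix.map_apply, map_sum]
        exact Finset.sum_congr rfl fun p _ => by split_ifs <;> simp
      rw [e3]
      ext I a
      simp only [Matrix.map_apply, Matrix.add_apply, Matrix.mul_apply, map_add, map_sum, map_mul,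
        Matrix.transpose_apply]
    ext I a
    have h6 := congrFun (congrFun h5 I) a
    rw [Matrix.map_apply, Matrix.zero_apply] at h6
    exact (algebraMap k L).injective (by rw [h6, Matrix.zero_apply, map_zero])
  exact ((Submodule.finrank_mono hle).trans (Submodule.finrank_map_le _ _)).trans
    (kernel_bound_sym n hx yᵀ)

theorem finrank_symT (k : Type) [Field k] (ι σ : Type) [Fintype ι] [DecidableEq ι] [Fintype σ]
    (n : ℕ) :
    finrank k (symT k ι σ n) = Fintype.card σ * (Fintype.card ι).multichoose n := by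
  classical
  let rep : Sym ι n → (Fin n → ι) := Function.surjInv (ms_surjective n)
  have hrep : ∀ s, ms (rep s) = s := Function.surjInv_eq (ms_surjective n)
  let e : symT k ι σ n ≃ₗ[k] (Sym ι n → (σ → k)) :=
    { toFun := fun f s => f.1 (rep s)
      map_add' := fun _ _ => rfl
      map_smul' := fun _ _ => rfl
      invFun := fun g => ⟨fun I a => g (ms I) a, fun I J a h => by
        show g (ms I) a = g (ms J) a
        rw [h]⟩
      left_inv := fun f => Subtype.ext (by
        funext I a
        exact f.2 _ _ a (hrep (ms I)))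
      right_inv := fun g => by
        funext s a
        show g (ms (rep s)) a = g s a
        rw [hrep] }
  rw [e.finrank_eq, Module.finrank_pi_fintype, Finset.sum_const, Module.finrank_fintype_fun_eq_card,
    Finset.card_univ, Sym.card_sym_eq_multichoose, smul_eq_mul, mul_comm]

theorem symSol_le (N : LinSystem X σ) (M : LinSystem X ι) (n : ℕ) :
    symSol N M n ≤ (symT k ι σ n).map (Phi N M n) := by
  rintro U ⟨⟨hU1, hU2⟩, hU3⟩
  obtain ⟨C, hC⟩ := exists_Phi N M n hU1
  rw [← hC] at hU3
  exact ⟨C, (Phi_sym N M n).1 hU3, hC⟩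

instance (N : LinSystem X σ) (M : LinSystem X ι) (n : ℕ) : FiniteDimensional k (symSol N M n) :=
  Submodule.finiteDimensional_of_le (symSol_le N M n)

theorem finrank_symSol_le (N : LinSystem X σ) (M : LinSystem X ι) (n : ℕ) :
    finrank k (symSol N M n) ≤ Fintype.card σ * (Fintype.card ι).multichoose n :=
  ((Submodule.finrank_mono (symSol_le N M n)).trans (Submodule.finrank_map_le _ _)).trans
    (finrank_symT k ι σ n).le

/-- If all solutions of `M` and `N` are algebraic so are all solutions of `N ⊗ Sym ^ n M`. -/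
theorem finrank_symSol_eq {N : LinSystem X σ} {M : LinSystem X ι} (hN : N.IsAlg) (hM : M.IsAlg)
    (n : ℕ) : finrank k (symSol N M n) = Fintype.card σ * (Fintype.card ι).multichoose n := by
  refine le_antisymm (finrank_symSol_le N M n) ?_
  have halg : ∀ C, Phi N M n C ∈ algSol N M n := by
    intro C
    refine ⟨Phi_sol N M n C, fun I a => ?_⟩
    rw [Phi_apply, Matrix.mul_apply]
    refine isAlgebraic_sum _ _ fun b _ => IsAlgebraic.mul ?_ (hN a b)
    rw [Matrix.mul_apply]
    refine isAlgebraic_sum _ _ fun J _ => IsAlgebraic.mul ?_ ?_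
    · change IsAlgebraic X.K (∏ p, M.F (I p) (J p))
      exact isAlgebraic_prod _ _ fun p _ => hM (I p) (J p)
    · rw [Matrix.map_apply]
      exact isAlgebraic_algebraMap (⟨_, X.const_mem (C J b)⟩ : X.K)
  have h1 := LinearMap.finrank_le_finrank_of_injective
    (f := LinearMap.codRestrict (symSol N M n) ((Phi N M n).comp (symT k ι σ n).subtype)
      (fun C => ⟨halg C.1, (Phi_sym N M n).2 C.2⟩))
    (fun C C' h => Subtype.ext (Phi_injective N M n (congrArg Subtype.val h)))
  rwa [finrank_symT] at h1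

end Pool.Agent.D0H93.PC
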