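import Pool.Agent.D0H93.PC.Det

/-!
# Power series solutions
-/

set_option autoImplicit false
set_option linter.unusedSectionVars false
set_option linter.unusedVariables false

open Matrix Module PowerSeries

namespace Pool.Agent.D0H93.PC

section frac

variable (k : Type) [Field k]

/-- The field of fractions of the ring of formal power series. -/
abbrev Lk : Type := FractionRing k⟦X⟧

/-- Auxiliary ring homomorphism to the dual numbers. -/
noncomputable def dAux : k⟦X⟧ →+* TrivSqZeroExt (Lk k) (Lk k) where
  toFun q := TrivSqZeroExt.inl (algebraMap k⟦X⟧ (Lk k) q) +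
    TrivSqZeroExt.inr (algebraMap k⟦X⟧ (Lk k) (derivative k q))
  map_one' := by simp
  map_zero' := by simp
  map_add' x y := by
    simp only [map_add, TrivSqZeroExt.inl_add, TrivSqZeroExt.inr_add]
    abel
  map_mul' x y := by
    ext
    · simp
    · simp only [map_mul, Derivation.leibniz, smul_eq_mul, map_add, TrivSqZeroExt.snd_add,
        TrivSqZeroExt.snd_inl,
        TrivSqZeroExt.snd_inr, zero_add, TrivSqZeroExt.snd_mul, TrivSqZeroExt.fst_add,
        TrivSqZeroExt.fst_inl, TrivSqZeroExt.fst_inr, add_zero, 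
        MulOpposite.smul_eq_mul_unop, MulOpposite.unop_op]
      ring

/-- The lift of `dAux` to the fraction field. -/
noncomputable def dLift : Lk k →+* TrivSqZeroExt (Lk k) (Lk k) :=
  IsLocalization.lift (M := nonZeroDivisors k⟦X⟧) (g := dAux k) (by
    intro y
    rw [TrivSqZeroExt.isUnit_iff_isUnit_fst]
    have : (dAux k y).fst = algebraMap k⟦X⟧ (Lk k) y := by simp [dAux]
    rw [this, isUnit_iff_ne_zero]
    exact IsFractionRing.to_map_ne_zero_of_mem_nonZeroDivisors y.2)

theorem dLift_algebraMap (q : k⟦X⟧) : dLift k (algebraMap k⟦X⟧ (Lk k) q) = dAux k q := by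
  unfold dLift
  exact IsLocalization.lift_eq _ _

theorem dLift_fst (f : Lk k) : (dLift k f).fst = f := by
  have h : (TrivSqZeroExt.fstHom k (Lk k) (Lk k)).toRingHom.comp (dLift k) =
      RingHom.id (Lk k) := by
    apply IsLocalization.ringHom_ext (nonZeroDivisors k⟦X⟧)
    refine RingHom.ext fun q => ?_
    change (dLift k (algebraMap k⟦X⟧ (Lk k) q)).fst = algebraMap k⟦X⟧ (Lk k) q
    rw [dLift_algebraMap]
    simp only [dAux, RingHom.coe_mk, MonoidHom.coe_mk, OneHom.coe_mk, TrivSqZeroExt.fst_add,
      TrivSqZeroExt.fst_inl, TrivSqZeroExt.fst_inr, add_zero]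
  exact RingHom.congr_fun h f

/-- The derivation of the field of fractions of the ring of formal power series. -/
noncomputable def dL : Derivation k (Lk k) (Lk k) where
  toFun f := (dLift k f).snd
  map_add' f g := by rw [map_add, TrivSqZeroExt.snd_add]
  map_smul' c f := by
    have h1 : c • f = algebraMap k⟦X⟧ (Lk k) (C c) * f := by
      rw [Algebra.smul_def, IsScalarTower.algebraMap_apply k k⟦X⟧ (Lk k)]
      rfl
    rw [h1, map_mul, TrivSqZeroExt.snd_mul, dLift_algebraMap, dLift_fst]
    simp only [dAux, RingHom.coe_mk, MonoidHom.coe_mk, OneHom.coe_mk, derivative_C, map_zero,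
      TrivSqZeroExt.inr_zero, add_zero, TrivSqZeroExt.fst_inl, TrivSqZeroExt.snd_inl, smul_eq_mul,
      RingHom.id_apply]
    rw [MulOpposite.smul_eq_mul_unop, zero_mul, add_zero, Algebra.smul_def,
      IsScalarTower.algebraMap_apply k k⟦X⟧ (Lk k)]
    rfl
  map_one_eq_zero' := by simp
  leibniz' f g := by
    change (dLift k (f * g)).snd = f • (dLift k g).snd + g • (dLift k f).snd
    rw [map_mul, TrivSqZeroExt.snd_mul, dLift_fst, dLift_fst]
    simp only [smul_eq_mul, MulOpposite.smul_eq_mul_unop, MulOpposite.unop_op]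
    ring

theorem dL_algebraMap (q : k⟦X⟧) :
    dL k (algebraMap k⟦X⟧ (Lk k) q) = algebraMap k⟦X⟧ (Lk k) (derivative k q) := by
  change (dLift k _).snd = _
  rw [dLift_algebraMap]
  simp only [dAux, RingHom.coe_mk, MonoidHom.coe_mk, OneHom.coe_mk, TrivSqZeroExt.snd_add,
    TrivSqZeroExt.snd_inl, TrivSqZeroExt.snd_inr, zero_add]

/-- The first coefficient. -/
theorem order_relation [CharZero k] {f g : k⟦X⟧} (h : derivative k f * g = f * derivative k g)
    (m : ℕ) (hg : coeff m g ≠ 0) (hg' : ∀ i < m, coeff i g = 0) (hf' : ∀ i ≤ m, coeff i f = 0) :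
    f = 0 := by
  by_contra hne
  obtain ⟨l, hl, hl'⟩ : ∃ l, coeff l f ≠ 0 ∧ ∀ i < l, coeff i f = 0 := by
    have h1 : ∃ l, coeff l f ≠ 0 := by
      by_contra h2
      push Not at h2
      exact hne (PowerSeries.ext fun n => by rw [h2, map_zero])
    classical
    exact ⟨Nat.find h1, Nat.find_spec h1, fun i hi => by
      have := Nat.find_min h1 hi
      push Not at this
      exact this⟩
  have hml : m < l := by
    by_contra h1
    exact hl (hf' l (not_lt.1 h1))
  -- the coefficient of `X ^ (l + m)` of `X * (f' * g)` and `X * (f * g')`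
  have hX : ∀ (u : k⟦X⟧) (i : ℕ), coeff i (X * derivative k u) = i * coeff i u := by
    intro u i
    cases i with
    | zero => simp
    | succ i =>
      rw [coeff_succ_X_mul, coeff_derivative]
      push_cast
      ring
  have h3 : coeff (l + m) (X * derivative k f * g) = coeff (l + m) (f * (X * derivative k g)) := by
    rw [mul_assoc, h]
    congr 1
    ring
  have key : ∀ (u v : k⟦X⟧), (∀ i < l, coeff i u = 0) → (∀ i < m, coeff i v = 0) →
      coeff (l + m) (u * v) = coeff l u * coeff m v := by
    intro u v hu hv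
    rw [coeff_mul]
    refine Finset.sum_eq_single (l, m) (fun p hp hne => ?_) (fun h => ?_)
    · rw [Finset.HasAntidiagonal.mem_antidiagonal] at hp
      rcases lt_trichotomy p.1 l with h4 | h4 | h4
      · rw [hu _ h4, zero_mul]
      · exfalso
        apply hne
        have : p.2 = m := by omega
        exact Prod.ext h4 this
      · rw [hv p.2 (by omega), mul_zero]
    · exact absurd (Finset.HasAntidiagonal.mem_antidiagonal.2 (rfl : (l, m).1 + (l, m).2 = l + m)) h
  rw [key _ _ (fun i hi => by rw [hX, hl' i hi, mul_zero]) hg',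
    key _ _ hl' (fun i hi => by rw [hX, hg' i hi, mul_zero]), hX, hX] at h3
  have h5 : ((l : k) - m) * (coeff l f * coeff m g) = 0 := by linear_combination h3
  rcases mul_eq_zero.1 h5 with h6 | h6
  · have h7 : (l : k) = m := sub_eq_zero.1 h6
    exact absurd (Nat.cast_injective h7) (by omega)
  · exact mul_ne_zero hl hg h6

/-- The constants of the field of fractions are the constants. -/
theorem dL_const [CharZero k] (a : Lk k) (ha : dL k a = 0) : ∃ c : k, algebraMap k (Lk k) c = a := by
  obtain ⟨f, g, hg0, rfl⟩ := IsFractionRing.div_surjective (A := k⟦X⟧) a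
  have hg : g ≠ 0 := nonZeroDivisors.ne_zero hg0
  have hgL : algebraMap k⟦X⟧ (Lk k) g ≠ 0 := by
    intro h
    exact hg ((IsFractionRing.injective k⟦X⟧ (Lk k)) (by rw [h, map_zero]))
  have h1 : derivative k f * g = f * derivative k g := by
    apply IsFractionRing.injective k⟦X⟧ (Lk k)
    rw [map_mul, map_mul, ← dL_algebraMap, ← dL_algebraMap]
    have h2 : algebraMap k⟦X⟧ (Lk k) f =
        algebraMap k⟦X⟧ (Lk k) f / algebraMap k⟦X⟧ (Lk k) g * algebraMap k⟦X⟧ (Lk k) g := by
      field_simp
    have h3 := congrArg (dL k) h2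
    rw [Derivation.leibniz, ha, smul_zero, add_zero, smul_eq_mul] at h3
    rw [h3]
    field_simp
  obtain ⟨m, hm, hm'⟩ : ∃ l, coeff l g ≠ 0 ∧ ∀ i < l, coeff i g = 0 := by
    have h1 : ∃ l, coeff l g ≠ 0 := by
      by_contra h2
      push Not at h2
      exact hg (PowerSeries.ext fun n => by rw [h2, map_zero])
    classical
    exact ⟨Nat.find h1, Nat.find_spec h1, fun i hi => by
      have := Nat.find_min h1 hi
      push Not at this
      exact this⟩
  -- all lower coefficients of `f` vanish
  have hf : ∀ i < m, coeff i f = 0 := by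
    by_contra hcon
    push Not at hcon
    obtain ⟨l, hlm, hl⟩ := hcon
    have h4 : ∃ l, coeff l f ≠ 0 := ⟨l, hl⟩
    classical
    have h5 := Nat.find_spec h4
    have h6 : Nat.find h4 ≤ l := Nat.find_min' h4 hl
    have h7 : g = 0 := order_relation k (f := g) (g := f) (by rw [mul_comm, ← h1, mul_comm]) (Nat.find h4) h5
      (fun i hi => by
        have := Nat.find_min h4 hi
        push Not at this
        exact this) (fun i hi => hm' i (by omega))
    exact hg h7
  set c : k := coeff m f / coeff m g with hc
  have h8 : f - C c * g = 0 := by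
    refine order_relation k (g := g) ?_ m hm hm' ?_
    · rw [map_sub, Derivation.leibniz, derivative_C, smul_zero, add_zero, smul_eq_mul]
      linear_combination h1
    · intro i hi
      rw [map_sub, coeff_C_mul]
      rcases lt_or_eq_of_le hi with h9 | h9
      · rw [hf i h9, hm' i h9]
        ring
      · rw [h9, hc]
        field_simp
        ring
  refine ⟨c, ?_⟩
  rw [eq_div_iff hgL, IsScalarTower.algebraMap_apply k k⟦X⟧ (Lk k), ← map_mul]
  congr 1
  rw [sub_eq_zero] at h8
  exact h8.symm

end frac

end Pool.Agent.D0H93.PC
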