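import Pool.Agent.D0H93.PC.SymMat

/-!
# Systems on the thrice-punctured line
-/

set_option autoImplicit false
set_option linter.unusedSectionVars false
set_option linter.unusedVariables false

open Matrix Module PowerSeries

namespace Pool.Agent.D0H93.PC

open Pool.Agent.D0H93.MT Pool.Agent.W432.PC Pool.Agent.Y227.TP

section gen

variable {k L : Type} [Field k] [Field L] [CharZero L] [Algebra k L] {X : DiffExt k L}
  {σ : Type} [Fintype σ] [DecidableEq σ] {r : ℕ}

/-- `M` is the system `f' = (b / t + c / (t - 1)) f`, `t' = 1`. -/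
structure IsStar (M : LinSystem X (Fin r)) (t : L) (b c : Matrix (Fin r) (Fin r) k) : Prop where
  mem : t ∈ X.K
  der : X.δ t = 1
  eq : M.A = t⁻¹ • b.map (algebraMap k L) + (t - 1)⁻¹ • c.map (algebraMap k L)

theorem trace_map {S S' ι : Type} [CommRing S] [CommRing S'] [Fintype ι] (f : S →+* S')
    (b : Matrix ι ι S) : (b.map f).trace = f b.trace := by
  rw [Matrix.trace, Matrix.trace, map_sum]
  rfl

/-- For the systems of the problem with few nonzero `p`-curvatures the determinant is algebraic. -/
theorem IsStar.det {M : LinSystem X (Fin r)} {t : L} {R : Type} [CommRing R] [IsDomain R]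
    [CharZero R] [Algebra.FiniteType ℤ R] [Algebra.IsAlgebraic ℤ R] {b c : Matrix (Fin r) (Fin r) R}
    {φ : R →+* k} (hφ : Function.Injective φ) (h : IsStar M t (b.map φ) (c.map φ))
    (hfew : Few (BadPt ![0, 1] ![b, c]) (1 / 4)) : IsAlgebraic X.K M.F.det := by
  have : CharZero k := charZero_of_ext k L
  obtain ⟨α, β, hα, hβ⟩ := trace_rational hfew φ hφ
  refine det_algebraic M h.mem h.der (α := α) (β := β) ?_
  rw [h.eq, Matrix.trace_add, Matrix.trace_smul, Matrix.trace_smul, trace_map, trace_map, trace_map,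
    trace_map, hα, hβ, map_ratCast, map_ratCast, smul_eq_mul, smul_eq_mul, div_eq_inv_mul,
    div_eq_inv_mul]

end gen

section star

variable {k : Type} [Field k] [CharZero k] {r : ℕ}

/-- The matrix of the system of the problem near the point `t = 2`: `b / t + c / (t - 1)`, `t = X + 2`. -/
noncomputable def starM {ι : Type} (b c : Matrix ι ι k) : Matrix ι ι k⟦X⟧ :=
  ((X + C 2)⁻¹ : k⟦X⟧) • b.map C + ((X + C 1)⁻¹ : k⟦X⟧) • c.map C

theorem mul_inv_C {a : k} (ha : a ≠ 0) : (X + C a : k⟦X⟧) * (X + C a)⁻¹ = 1 :=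
  PowerSeries.mul_inv_cancel _ (by simp [ha])

theorem algebraMap_inv_C {a : k} (ha : a ≠ 0) : algebraMap k⟦X⟧ (Lk k) (X + C a)⁻¹ =
    (algebraMap k⟦X⟧ (Lk k) (X + C a))⁻¹ := by
  refine eq_inv_of_mul_eq_one_right ?_
  rw [← map_mul, mul_inv_C ha, map_one]

instance : CharZero (Lk k) :=
  charZero_of_injective_algebraMap (algebraMap k (Lk k)).injective

variable (k) in
/-- The coordinate `t`. -/
noncomputable def tL : Lk k := algebraMap k⟦X⟧ (Lk k) (X + C 2)

theorem tL_sub_one : algebraMap k⟦X⟧ (Lk k) (X + C 1) = tL k - 1 := by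
  rw [tL, ← map_one (algebraMap k⟦X⟧ (Lk k)), ← map_sub]
  congr 1
  rw [← map_one (C (R := k)), add_sub_assoc, ← map_sub]
  norm_num

theorem tL_mem : tL k ∈ (ratX k).K := by
  have h := poly_mem k (Polynomial.X + Polynomial.C 2)
  rwa [Polynomial.coe_add, Polynomial.coe_X, Polynomial.coe_C] at h

theorem tL_der : (ratX k).δ (tL k) = 1 := by
  show dL k (algebraMap k⟦X⟧ (Lk k) (X + C 2)) = 1
  rw [dL_algebraMap, map_add, derivative_X, derivative_C, add_zero, map_one]

theorem algebraMap_C (a : k) : algebraMap k⟦X⟧ (Lk k) (C a) = algebraMap k (Lk k) a := by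
  rw [IsScalarTower.algebraMap_apply k k⟦X⟧ (Lk k)]
  rfl

theorem starM_map {ι : Type} (b c : Matrix ι ι k) :
    (starM b c).map (algebraMap k⟦X⟧ (Lk k)) =
      (tL k)⁻¹ • b.map (algebraMap k (Lk k)) + (tL k - 1)⁻¹ • c.map (algebraMap k (Lk k)) := by
  ext i j
  simp only [starM, Matrix.map_apply, Matrix.add_apply, Matrix.smul_apply, smul_eq_mul, map_add,
    map_mul]
  rw [algebraMap_inv_C two_ne_zero, algebraMap_inv_C one_ne_zero, tL_sub_one, algebraMap_C,
    algebraMap_C]
  rfl

/-- The system of the problem, over the field of fractions of the ring of power series. -/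
noncomputable def starSys (b c : Matrix (Fin r) (Fin r) k) : LinSystem (ratX k) (Fin r) where
  A := (starM b c).map (algebraMap k⟦X⟧ (Lk k))
  mem := fun i j => by
    rw [starM_map, Matrix.add_apply, Matrix.smul_apply, Matrix.smul_apply, smul_eq_mul, smul_eq_mul,
      Matrix.map_apply, Matrix.map_apply]
    exact add_mem (mul_mem (inv_mem tL_mem) ((ratX k).const_mem _))
      (mul_mem (inv_mem (sub_mem tL_mem (one_mem _))) ((ratX k).const_mem _))
  F := (fundM (starM b c)).map (algebraMap k⟦X⟧ (Lk k))
  det_ne := by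
    have h1 : ((fundM (starM b c)).map (algebraMap k⟦X⟧ (Lk k))).det =
        algebraMap k⟦X⟧ (Lk k) (fundM (starM b c)).det := by
      rw [RingHom.map_det]
      rfl
    rw [h1]
    intro h
    exact fundM_det (starM b c) (IsFractionRing.injective k⟦X⟧ (Lk k) (by rw [h, map_zero]))
  sol := by
    have h1 : ((fundM (starM b c)).map (algebraMap k⟦X⟧ (Lk k))).map (ratX k).δ =
        ((fundM (starM b c)).map (derivative k)).map (algebraMap k⟦X⟧ (Lk k)) := by
      ext i j
      exact dL_algebraMap k _
    rw [h1, fundM_sol, Matrix.map_mul]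

theorem starSys_isStar (b c : Matrix (Fin r) (Fin r) k) : IsStar (starSys b c) (tL k) b c :=
  ⟨tL_mem, tL_der, starM_map b c⟩

theorem starSys_isAlg {b c : Matrix (Fin r) (Fin r) k} (h : (starSys b c).IsAlg) :
    finrank k (powSol (starM b c)) = r := by
  have h1 := finrank_powSol_eq (starM b c) fun i j => (isAlg_iff k _).1 (h i j)
  rwa [Fintype.card_fin] at h1

/-- The trivial system. -/
noncomputable def trivSys {L : Type} [Field L] [Algebra k L] (X : DiffExt k L) :
    LinSystem X Unit where
  A := 0
  mem := fun i j => X.K.zero_mem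
  F := 1
  det_ne := by rw [Matrix.det_one]; exact one_ne_zero
  sol := by
    rw [md_one, Matrix.zero_mul]

theorem starM_symPow (n : ℕ) (b c : Matrix (Fin r) (Fin r) k) :
    starM (symPow n b) (symPow n c) = symPow n (starM b c) := by
  unfold starM
  rw [show (symPow n b).map (C (R := k)) = symPow n (b.map C) from symPow_map _ _ _,
    show (symPow n c).map (C (R := k)) = symPow n (c.map C) from symPow_map _ _ _]
  unfold symPow
  rw [symMat_add, symMat_smul, symMat_smul]
  rfl

/-- The algebraic solutions of the symmetric power. -/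
theorem finrank_powSol_symPow_le (n : ℕ) (b c : Matrix (Fin r) (Fin r) k) :
    finrank k (powSol (starM (symPow n b) (symPow n c))) ≤
      finrank k (symSol (trivSys (ratX k)) (starSys b c) n) := by
  let g : powSol (starM (symPow n b) (symPow n c)) →ₗ[k] Matrix (Fin n → Fin r) Unit (Lk k) :=
    { toFun := fun u => Matrix.of fun I _ => algebraMap k⟦X⟧ (Lk k) (u.1 (symEquiv r n (ms I)))
      map_add' := fun u v => by
        ext I a
        show algebraMap k⟦X⟧ (Lk k) ((u.1 + v.1) (symEquiv r n (ms I))) = _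
        rw [Pi.add_apply, map_add]
        rfl
      map_smul' := fun a u => by
        ext I x
        show algebraMap k⟦X⟧ (Lk k) ((a • u.1) (symEquiv r n (ms I))) = _
        rw [Pi.smul_apply, PowerSeries.smul_eq_C_mul, map_mul, algebraMap_C, RingHom.id_apply,
          Matrix.smul_apply, Algebra.smul_def]
        rfl }
  have hg : ∀ u, g u ∈ symSol (trivSys (ratX k)) (starSys b c) n := by
    rintro ⟨u, hu1, hu2⟩
    refine ⟨⟨?_, ?_⟩, ?_⟩
    · ext I x
      show dL k (algebraMap k⟦X⟧ (Lk k) (u (symEquiv r n (ms I)))) = _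
      rw [dL_algebraMap]
      have h1 : derivative k (u (symEquiv r n (ms I))) =
          (tder n (starM b c) *ᵥ fun J => u (symEquiv r n (ms J))) I := by
        have h3 := congrFun hu1 (symEquiv r n (ms I))
        rwa [starM_symPow, symPow_mulVec] at h3
      rw [h1, Matrix.add_apply]
      have h2 : ((g ⟨u, hu1, hu2⟩ : Matrix (Fin n → Fin r) Unit (Lk k)) *
          (trivSys (ratX k)).Aᵀ) I x = 0 := by
        rw [show (trivSys (ratX k)).Aᵀ = (0 : Matrix Unit Unit (Lk k)) from Matrix.transpose_zero,
          Matrix.mul_zero, Matrix.zero_apply]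
      rw [h2, add_zero, Matrix.mulVec, dotProduct, map_sum, Matrix.mul_apply]
      refine Finset.sum_congr rfl fun J _ => ?_
      rw [map_mul]
      congr 1
      show algebraMap k⟦X⟧ (Lk k) (tder n (starM b c) I J) =
        tder n ((starM b c).map (algebraMap k⟦X⟧ (Lk k))) I J
      rw [← tder_map']
      rfl
    · intro I x
      exact (isAlg_iff k _).2 (hu2 _)
    · intro I J x hIJ
      show algebraMap k⟦X⟧ (Lk k) (u (symEquiv r n (ms I))) =
        algebraMap k⟦X⟧ (Lk k) (u (symEquiv r n (ms J)))
      rw [hIJ]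
  refine LinearMap.finrank_le_finrank_of_injective
    (f := LinearMap.codRestrict (symSol (trivSys (ratX k)) (starSys b c) n) g hg) ?_
  intro u v huv
  have h1 : g u = g v := congrArg Subtype.val huv
  apply Subtype.ext
  funext s
  obtain ⟨a, rfl⟩ := (symEquiv r n).surjective s
  obtain ⟨I, rfl⟩ := ms_surjective n a
  exact IsFractionRing.injective k⟦X⟧ (Lk k) (congrFun (congrFun h1 I) ())

/-- The gap law for the systems of the problem. -/
theorem gap_star {R : Type} [CommRing R] [IsDomain R]
    [CharZero R] [Algebra.FiniteType ℤ R] [Algebra.IsAlgebraic ℤ R] {b c : Matrix (Fin r) (Fin r) R}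
    {φ : R →+* k} (hφ : Function.Injective φ) (hfew : Few (BadPt ![0, 1] ![b, c]) (1 / 4)) :
    finrank k (powSol (starM (b.map φ) (c.map φ))) = r ∨
    ∀ n, finrank k (powSol (starM (symPow n (b.map φ)) (symPow n (c.map φ)))) ≤
      (r - 1).multichoose n := by
  by_cases h : (starSys (b.map φ) (c.map φ)).IsAlg
  · exact Or.inl (starSys_isAlg h)
  · right
    intro n
    have h1 : ¬ (starSys (b.map φ) (c.map φ)).IsProjAlg := fun h2 =>
      h (h2.isAlg ((starSys_isStar (b.map φ) (c.map φ)).det hφ hfew))
    have h2 := gap_sym (trivSys (ratX k)) (starSys (b.map φ) (c.map φ)) h1 n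
    rw [Fintype.card_unit, one_mul, Fintype.card_fin] at h2
    exact (finrank_powSol_symPow_le n _ _).trans h2

end star

end Pool.Agent.D0H93.PC
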