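import Pool.Agent.D0H93.PC.Amp

/-!
# The gap law: formulation
-/

set_option autoImplicit false
set_option linter.unusedSectionVars false
set_option linter.unusedVariables false

open Module

namespace Pool.Agent.D0H93.PC

open Pool.Agent.W432.PC Pool.Agent.Y227.TP

variable {k L : Type} [Field k] [Field L] [CharZero L] [Algebra k L] {X : DiffExt k L}
  {ι : Type} [Fintype ι] [DecidableEq ι]

/-- Few algebraic solutions: for ALL systems `N` (of rank `s`) and ALL `n` the algebraic solutions of
`N ⊗ Sym ^ n M` form a space of dimension at most `s * multichoose (r - 1) n`, `r` the rank of `M`, which is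
`(r - 1) / (n + r - 1)` times the rank `s * multichoose r n`, and the algebraic solutions of
`N ⊗ M ^ ⊗n` a space of dimension at most `√(r / (2 (n + 1)))` times the rank `s * r ^ n`. -/
def LinSystem.Small (M : LinSystem X ι) : Prop :=
  ∀ (σ : Type) [Fintype σ] [DecidableEq σ] (N : LinSystem X σ) (n : ℕ),
    finrank k (symSol N M n) ≤ Fintype.card σ * (Fintype.card ι - 1).multichoose n ∧
    (finrank k (algSol N M n) : ℝ) ≤ Real.sqrt (Fintype.card ι / (2 * (n + 1))) *
      (Fintype.card σ * (Fintype.card ι : ℝ) ^ n)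

/-- All solutions of `M` and, for all systems `N` with algebraic solutions and all `n`, all solutions of
`N ⊗ Sym ^ n M` and `N ⊗ M ^ ⊗n` are algebraic. -/
def LinSystem.Full (M : LinSystem X ι) : Prop :=
  M.IsAlg ∧ ∀ (σ : Type) [Fintype σ] [DecidableEq σ] (N : LinSystem X σ), N.IsAlg → ∀ n,
    finrank k (symSol N M n) = Fintype.card σ * (Fintype.card ι).multichoose n ∧
    finrank k (algSol N M n) = Fintype.card σ * Fintype.card ι ^ n

/-- `M` is a system `f' = (b / t + c / (t - 1)) f`, `b`, `c` with entries in a ring `R` of algebraic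
numbers, finitely generated over the integers, embedded into `k`, and the lower density of the set of
the primes `p` such that the `p`-curvature is nonzero at some closed point of `Spec R` of characteristic
`p` is less than `1/4`. -/
def StarFewBad {r : ℕ} (M : LinSystem X (Fin r)) : Prop :=
  ∃ (t : L) (R : Type) (_ : CommRing R) (_ : IsDomain R) (_ : CharZero R)
    (_ : Algebra.FiniteType ℤ R) (_ : Algebra.IsAlgebraic ℤ R) (φ : R →+* k)
    (b c : Matrix (Fin r) (Fin r) R), Function.Injective φ ∧ IsStar M t (b.map φ) (c.map φ) ∧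
    Few (BadPt ![0, 1] ![b, c]) (1 / 4)

theorem small_of_not {M : LinSystem X ι} (h : ¬ M.IsProjAlg) : M.Small :=
  fun σ _ _ N n => ⟨gap_sym N M h n, gap N M h n⟩

theorem full_of_isAlg {M : LinSystem X ι} (h : M.IsAlg) : M.Full :=
  ⟨h, fun σ _ _ N hN n => ⟨finrank_symSol_eq hN h n, finrank_algSol_eq hN h n⟩⟩

theorem StarFewBad.dichotomy {r : ℕ} {M : LinSystem X (Fin r)} (h : StarFewBad M) :
    M.Full ∨ M.Small := by
  obtain ⟨t, R, _, _, _, _, _, φ, b, c, hφ, hM, hfew⟩ := h
  by_cases h : M.IsAlg
  · exact Or.inl (full_of_isAlg h)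
  · exact Or.inr (small_of_not fun h2 => h (h2.isAlg (hM.det hφ hfew)))

end Pool.Agent.D0H93.PC
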