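import Pool.Agent.D0H93.PC.Few
import Pool.Agent.D0H93.PC.Fund
import Pool.Agent.D0H93.PC.MainS

/-!
# The matrices of symmetric powers
-/

set_option autoImplicit false
set_option linter.unusedSectionVars false
set_option linter.unusedVariables false

open Matrix Module

namespace Pool.Agent.D0H93.PC

open Pool.Agent.D0H93.MT Pool.Agent.W432.PC Pool.Agent.Y227.TP

section mat

variable {S : Type} [CommRing S] {ι : Type} [Fintype ι] [DecidableEq ι]

/-- The matrix of the action of `b` on the symmetric tensors: on functions `v` of the multisets `a` with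
`n` elements, `(b v) a` is the sum of the `b i j * v (a - i + j)` over the elements `i` of `a` (counted
with multiplicity) and all `j`. -/
def symMat (n : ℕ) (b : Matrix ι ι S) : Matrix (Sym ι n) (Sym ι n) S :=
  Matrix.of fun a c => ((a : Multiset ι).map fun i =>
    ∑ j, if (c : Multiset ι) = j ::ₘ (a : Multiset ι).erase i then b i j else 0).sum

theorem symMat_apply (n : ℕ) (b : Matrix ι ι S) (a c : Sym ι n) :
    symMat n b a c = ((a : Multiset ι).map fun i =>
      ∑ j, if (c : Multiset ι) = j ::ₘ (a : Multiset ι).erase i then b i j else 0).sum := rfl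

theorem tder_mulVec (n : ℕ) (b : Matrix ι ι S) (v : (Fin n → ι) → S) (I : Fin n → ι) :
    (tder n b *ᵥ v) I = ∑ q, ∑ j, b (I q) j * v (Function.update I q j) := by
  have h1 : (tder n b *ᵥ v) I = (tder n b * Matrix.of fun J (_ : Unit) => v J) I () := by
    rw [Matrix.mul_apply, Matrix.mulVec, dotProduct]
    rfl
  rw [h1, tder_eq, Matrix.sum_mul, Matrix.sum_apply]
  exact Finset.sum_congr rfl fun q _ => fac_mul _ _ _ _ _

theorem symMat_mulVec (n : ℕ) (b : Matrix ι ι S) (w : Sym ι n → S) (I : Fin n → ι) :
    (symMat n b *ᵥ w) (ms I) = (tder n b *ᵥ fun J => w (ms J)) I := by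
  rw [tder_mulVec, Matrix.mulVec, dotProduct]
  have h1 : ∀ c : Sym ι n, symMat n b (ms I) c =
      ∑ q, ∑ j, if c = ms (Function.update I q j) then b (I q) j else 0 := by
    intro c
    show ((ms I : Multiset ι).map fun i =>
      ∑ j, if (c : Multiset ι) = j ::ₘ (ms I : Multiset ι).erase i then b i j else 0).sum = _
    conv_lhs => rw [ms_coe (n := n) I]
    rw [Multiset.map_map]
    refine Finset.sum_congr rfl fun q _ => ?_
    refine Finset.sum_congr rfl fun j _ => ?_
    have h2 : (c = ms (Function.update I q j)) ↔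
        ((c : Multiset ι) = j ::ₘ (ms I : Multiset ι).erase (I q)) := by
      rw [← update_ms]
      exact Sym.coe_inj.symm
    simp only [h2]
    rfl
  simp only [h1, Finset.sum_mul]
  rw [Finset.sum_comm]
  refine Finset.sum_congr rfl fun q _ => ?_
  rw [Finset.sum_comm]
  refine Finset.sum_congr rfl fun j _ => ?_
  simp only [ite_mul, zero_mul]
  rw [Finset.sum_ite_eq']
  simp

theorem symMat_add (n : ℕ) (b c : Matrix ι ι S) : symMat n (b + c) = symMat n b + symMat n c := by
  ext a d
  rw [Matrix.add_apply, symMat_apply, symMat_apply, symMat_apply, ← Multiset.sum_map_add]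
  congr 1
  refine Multiset.map_congr rfl fun i _ => ?_
  rw [← Finset.sum_add_distrib]
  exact Finset.sum_congr rfl fun j _ => by split_ifs <;> simp

theorem symMat_smul (n : ℕ) (s : S) (b : Matrix ι ι S) : symMat n (s • b) = s • symMat n b := by
  ext a d
  rw [Matrix.smul_apply, smul_eq_mul, symMat_apply, symMat_apply, ← Multiset.sum_map_mul_left]
  congr 1
  refine Multiset.map_congr rfl fun i _ => ?_
  rw [Finset.mul_sum]
  exact Finset.sum_congr rfl fun j _ => by split_ifs <;> simp

theorem symMat_map {S' : Type} [CommRing S'] (f : S →+* S') (n : ℕ) (b : Matrix ι ι S) :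
    (symMat n b).map f = symMat n (b.map f) := by
  ext a d
  rw [Matrix.map_apply, symMat_apply, symMat_apply, map_multiset_sum, Multiset.map_map]
  congr 1
  refine Multiset.map_congr rfl fun i _ => ?_
  rw [Function.comp_apply, map_sum]
  exact Finset.sum_congr rfl fun j _ => by split_ifs <;> simp

/-- Tensor powers and symmetric powers. -/
theorem nab_pow_symMat {R₀ : Type} [CommRing R₀] [Algebra R₀ S] (D : Derivation R₀ S S) {p n : ℕ}
    {G : Matrix ι ι S} (h : nab D (tder n G) ^ p = 0) : nab D (symMat n G) ^ p = 0 := by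
  have h1 : ∀ (w : Sym ι n → S), nab D (tder n G) (fun I => w (ms I)) =
      fun I => nab D (symMat n G) w (ms I) := by
    intro w
    funext I
    rw [nab_apply, nab_apply]
    congr 1
    exact (symMat_mulVec n G w I).symm
  have h2 : ∀ (m : ℕ) (w : Sym ι n → S), (nab D (tder n G) ^ m) (fun I => w (ms I)) =
      fun I => (nab D (symMat n G) ^ m) w (ms I) := by
    intro m
    induction m with
    | zero => intro w; rfl
    | succ m ih =>
      intro w
      rw [pow_succ, Module.End.mul_apply, h1, ih, pow_succ]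
      rfl
  refine LinearMap.ext fun w => ?_
  funext s
  obtain ⟨I, rfl⟩ := ms_surjective n s
  have h3 := congrFun (h2 p w) I
  rw [h] at h3
  exact h3.symm

end mat

/-- The bijection of the multisets with the numbers. -/
noncomputable def symEquiv (r n : ℕ) : Sym (Fin r) n ≃ Fin (r.multichoose n) :=
  Fintype.equivFinOfCardEq (by rw [Sym.card_sym_fin_eq_multichoose])

/-- The matrix `symMat n b` of the symmetric power, with the index set `Fin (Nat.multichoose r n)`. -/
noncomputable def symPow {S : Type} [CommRing S] {r : ℕ} (n : ℕ) (b : Matrix (Fin r) (Fin r) S) :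
    Matrix (Fin (r.multichoose n)) (Fin (r.multichoose n)) S :=
  (symMat n b).submatrix (symEquiv r n).symm (symEquiv r n).symm

theorem symPow_map {R S : Type} [CommRing R] [CommRing S] (f : R →+* S) {r : ℕ} (n : ℕ)
    (b : Matrix (Fin r) (Fin r) R) : (symPow n b).map f = symPow n (b.map f) := by
  rw [symPow, symPow, ← symMat_map, Matrix.submatrix_map]

theorem symPow_mulVec {S : Type} [CommRing S] {r : ℕ} (n : ℕ) (b : Matrix (Fin r) (Fin r) S)
    (u : Fin (r.multichoose n) → S) (I : Fin n → Fin r) :
    (symPow n b *ᵥ u) (symEquiv r n (ms I)) =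
      (tder n b *ᵥ fun J => u (symEquiv r n (ms J))) I := by
  rw [← symMat_mulVec n b (fun s => u (symEquiv r n s)) I, Matrix.mulVec, Matrix.mulVec, dotProduct,
    dotProduct, ← Equiv.sum_comp (symEquiv r n)]
  refine Finset.sum_congr rfl fun s _ => ?_
  rw [symPow, Matrix.submatrix_apply, Equiv.symm_apply_apply, Equiv.symm_apply_apply]

theorem symMat_sum {ι S T : Type} [Fintype ι] [DecidableEq ι] [CommRing S] (n : ℕ) (s : Finset T)
    (x : T → Matrix ι ι S) : symMat n (∑ t ∈ s, x t) = ∑ t ∈ s, symMat n (x t) := by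
  classical
  induction s using Finset.induction_on with
  | empty =>
    rw [Finset.sum_empty, Finset.sum_empty]
    have := symMat_smul n (0 : S) (0 : Matrix ι ι S)
    simpa using this
  | insert a s ha ih => rw [Finset.sum_insert ha, Finset.sum_insert ha, symMat_add, ih]

theorem G_symPow {k : Type} [Field k] {m r : ℕ} (α : Fin m → k) (A : Fin m → Matrix (Fin r) (Fin r) k)
    (n : ℕ) : G α (fun j => symPow n (A j)) =
      (symMat n (G α A)).submatrix (symEquiv r n).symm (symEquiv r n).symm := by
  unfold G
  rw [symMat_sum]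
  ext a b
  simp only [Matrix.sum_apply, Matrix.submatrix_apply]
  refine Finset.sum_congr rfl fun j _ => ?_
  rw [symPow_map, symMat_smul]
  rfl

/-- The `p`-curvature of the symmetric powers of a system with vanishing `p`-curvature vanishes. -/
theorem pcurvZero_symPow {k : Type} [Field k] {m r : ℕ} {α : Fin m → k}
    {A : Fin m → Matrix (Fin r) (Fin r) k} (h : PCurvZero α A) (n : ℕ) :
    PCurvZero α (fun j => symPow (n + 1) (A j)) := by
  rcases CharP.char_is_prime_or_zero k (ringChar k) with hp | hp
  · have hS : ((ringChar k : ℕ) : RatFunc k) = 0 := by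
      have h1 : ((ringChar k : ℕ) : k) = 0 := CharP.cast_eq_zero k (ringChar k)
      have h2 := congrArg (algebraMap k (RatFunc k)) h1
      rwa [map_natCast, map_zero] at h2
    have hpow : ∀ {m' r' : ℕ} (α' : Fin m' → k) (A' : Fin m' → Matrix (Fin r') (Fin r') k) (j : ℕ)
        (y : Fin r' → RatFunc k), (nabla α' A')^[j] y = (nab (ddx k) (G α' A') ^ j) y := by
      intro m' r' α' A' j y
      rw [Module.End.pow_apply]
      rfl
    have hG : nab (ddx k) (G α A) ^ (ringChar k) = 0 := by
      refine LinearMap.ext fun y => ?_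
      rw [← hpow, h y]
      rfl
    intro y
    rw [hpow, G_symPow, nab_pow_reindex (ddx k) (symEquiv r (n + 1))
      (nab_pow_symMat (ddx k) (nab_pow_tder (ddx k) hp hS hG n))]
    rfl
  · -- the characteristic is zero: the rank is zero
    have h1 := h
    unfold PCurvZero at h1
    rw [hp] at h1
    have hr : r = 0 := by
      by_contra hr
      have h2 := congrFun (h1 fun _ => 1) ⟨0, Nat.pos_of_ne_zero hr⟩
      simp at h2
    subst hr
    intro y
    have h3 : IsEmpty (Fin (Nat.multichoose 0 (n + 1))) := by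
      rw [Nat.multichoose_zero_succ]
      infer_instance
    exact Subsingleton.elim _ _

theorem pcurvZeroAt_symPow {R : Type} [CommRing R] {m r : ℕ} {α : Fin m → R}
    {A : Fin m → Matrix (Fin r) (Fin r) R} (𝔪 : Ideal R) [h𝔪 : 𝔪.IsMaximal]
    (h : PCurvZeroAt α A 𝔪) (n : ℕ) : PCurvZeroAt α (fun j => symPow (n + 1) (A j)) 𝔪 := by
  let _ : Field (R ⧸ 𝔪) := Ideal.Quotient.field 𝔪
  have h1 := pcurvZero_symPow (k := R ⧸ 𝔪) h n
  unfold PCurvZeroAt
  have h2 : (fun j => (symPow (n + 1) (A j)).map (Ideal.Quotient.mk 𝔪)) =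
      fun j => symPow (n + 1) ((A j).map (Ideal.Quotient.mk 𝔪)) := by
    funext j
    exact symPow_map _ _ _
  rw [h2]
  exact h1

/-- The condition of the problem for symmetric powers. -/
theorem condII_symPow {R : Type} [CommRing R] {r : ℕ} {b c : Matrix (Fin r) (Fin r) R}
    (h : CondII ![0, 1] ![b, c]) (n : ℕ) :
    CondII ![0, 1] ![symPow (n + 1) b, symPow (n + 1) c] := by
  obtain ⟨g, hg, h1⟩ := h
  refine ⟨g, hg, fun 𝔪 _ hm => ?_⟩
  have h2 := pcurvZeroAt_symPow 𝔪 (h1 𝔪 hm) n
  have h3 : (fun j => symPow (n + 1) ((![b, c] : Fin 2 → Matrix (Fin r) (Fin r) R) j)) =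
      ![symPow (n + 1) b, symPow (n + 1) c] := by
    funext j
    fin_cases j <;> rfl
  rwa [h3] at h2

end Pool.Agent.D0H93.PC
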