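import Pool.Agent.D0H93.PC.Lin
import Pool.Agent.D0H15.ZO.Walk

/-!
# The kernel of the sum of the matrix units: a lazy random walk
-/

set_option autoImplicit false
set_option linter.unusedSectionVars false
set_option linter.unusedVariables false

open Module Finset

namespace Pool.Agent.D0H93.PC

open Pool.Agent.D0H15.ZO (al al_zero al_zero_succ al_succ al_mem al_one_le)

/-- the walk which does not move with the probability `1 - p` -/
noncomputable def bl (p : ℝ) (n m : ℕ) : ℝ :=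
  ∑ j ∈ range (n + 1), (n.choose j : ℝ) * p ^ j * (1 - p) ^ (n - j) * al j m

theorem bl_zero_right (p : ℝ) (n : ℕ) : bl p n 0 = 0 := by
  rw [bl]
  exact Finset.sum_eq_zero fun j _ => by rw [al_zero, mul_zero]

theorem bl_zero_left (p : ℝ) (m : ℕ) : bl p 0 (m + 1) = 1 := by
  simp [bl, al_zero_succ]

theorem bl_succ (p : ℝ) (n m : ℕ) : bl p (n + 1) (m + 1) =
    p * ((bl p n m + bl p n (m + 2)) / 2) + (1 - p) * bl p n (m + 1) := by
  have h1 : bl p (n + 1) (m + 1) =
      ∑ j ∈ range (n + 1), (n.choose j : ℝ) * p ^ (j + 1) * (1 - p) ^ (n - j) * al (j + 1) (m + 1) +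
      ∑ j ∈ range (n + 1), (n.choose j : ℝ) * p ^ j * (1 - p) ^ (n - j + 1) * al j (m + 1) := by
    rw [bl, Finset.sum_range_succ']
    have h2 : ∀ j ∈ range (n + 1), (((n + 1).choose (j + 1) : ℕ) : ℝ) * p ^ (j + 1) *
        (1 - p) ^ (n + 1 - (j + 1)) * al (j + 1) (m + 1) =
        (n.choose j : ℝ) * p ^ (j + 1) * (1 - p) ^ (n - j) * al (j + 1) (m + 1) +
        (n.choose (j + 1) : ℝ) * p ^ (j + 1) * (1 - p) ^ (n - j) * al (j + 1) (m + 1) := by
      intro j hj
      rw [Nat.choose_succ_succ, Nat.cast_add, Nat.add_sub_add_right]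
      ring
    rw [Finset.sum_congr rfl h2, Finset.sum_add_distrib, add_assoc]
    congr 1
    rw [Finset.sum_range_succ, Nat.choose_succ_self, Nat.cast_zero]
    rw [Finset.sum_range_succ' (fun j => (n.choose j : ℝ) * p ^ j * (1 - p) ^ (n - j + 1) * al j (m + 1))]
    rw [zero_mul, zero_mul, zero_mul, add_zero]
    congr 1
    · refine Finset.sum_congr rfl fun j hj => ?_
      rw [Finset.mem_range] at hj
      rw [show n - (j + 1) + 1 = n - j by omega]
    · simp
  rw [h1]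
  simp only [bl]
  rw [← Finset.sum_add_distrib, ← Finset.sum_add_distrib, Finset.sum_div, Finset.mul_sum,
    Finset.mul_sum, ← Finset.sum_add_distrib]
  refine Finset.sum_congr rfl fun j _ => ?_
  rw [al_succ]
  ring

theorem bl_nonneg {p : ℝ} (h0 : 0 ≤ p) (h1 : p ≤ 1) (n m : ℕ) : 0 ≤ bl p n m :=
  Finset.sum_nonneg fun j _ => mul_nonneg (mul_nonneg (mul_nonneg (Nat.cast_nonneg _)
    (pow_nonneg h0 _)) (pow_nonneg (by linarith) _)) (al_mem j m).1

theorem sum_inv {p : ℝ} (h0 : 0 < p) (h1 : p ≤ 1) (n : ℕ) :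
    ∑ j ∈ range (n + 1), (n.choose j : ℝ) * p ^ j * (1 - p) ^ (n - j) * (1 / ((j : ℝ) + 1)) ≤
      1 / (p * (n + 1)) := by
  have h2 : ∀ j ∈ range (n + 1), (n.choose j : ℝ) * p ^ j * (1 - p) ^ (n - j) * (1 / ((j : ℝ) + 1)) =
      (p ^ (j + 1) * (1 - p) ^ (n + 1 - (j + 1)) * ((n + 1).choose (j + 1) : ℝ)) / (p * (n + 1)) := by
    intro j _
    have h3 : (((n + 1).choose (j + 1) : ℕ) : ℝ) * ((j : ℝ) + 1) = ((n : ℝ) + 1) * (n.choose j : ℝ) := by
      have := Nat.add_one_mul_choose_eq n j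
      exact_mod_cast this.symm
    rw [Nat.add_sub_add_right]
    have hj : (0 : ℝ) < (j : ℝ) + 1 := by positivity
    have hn : (0 : ℝ) < (n : ℝ) + 1 := by positivity
    rw [mul_one_div, div_eq_div_iff hj.ne' (by positivity)]
    linear_combination (-(p ^ (j + 1) * (1 - p) ^ (n - j))) * h3
  rw [Finset.sum_congr rfl h2, ← Finset.sum_div]
  refine div_le_div_of_nonneg_right ?_ (by positivity)
  have h4 := add_pow p (1 - p) (n + 1)
  rw [show p + (1 - p) = 1 by ring, one_pow, Finset.sum_range_succ'] at h4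
  have h5 : (0 : ℝ) ≤ p ^ 0 * (1 - p) ^ (n + 1 - 0) * ((n + 1).choose 0 : ℝ) :=
    mul_nonneg (mul_nonneg (by simp) (pow_nonneg (by linarith) _)) (Nat.cast_nonneg _)
  linarith

theorem bl_one_le {p : ℝ} (h0 : 0 < p) (h1 : p ≤ 1) (n : ℕ) :
    bl p n 1 ≤ Real.sqrt (1 / (p * (n + 1))) := by
  have hw : ∀ j, 0 ≤ (n.choose j : ℝ) * p ^ j * (1 - p) ^ (n - j) := fun j =>
    mul_nonneg (mul_nonneg (Nat.cast_nonneg _) (pow_nonneg h0.le _)) (pow_nonneg (by linarith) _)
  have hs : ∑ j ∈ range (n + 1), (n.choose j : ℝ) * p ^ j * (1 - p) ^ (n - j) = 1 := by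
    have h4 := add_pow p (1 - p) n
    rw [show p + (1 - p) = 1 by ring, one_pow] at h4
    refine Eq.trans (Finset.sum_congr rfl fun j _ => ?_) h4.symm
    ring
  refine Real.le_sqrt_of_sq_le ?_
  have h2 : bl p n 1 ^ 2 ≤ ∑ j ∈ range (n + 1), (n.choose j : ℝ) * p ^ j * (1 - p) ^ (n - j) *
      (al j 1) ^ 2 := by
    have h5 := Finset.sum_mul_sq_le_sq_mul_sq (range (n + 1))
      (fun j => Real.sqrt ((n.choose j : ℝ) * p ^ j * (1 - p) ^ (n - j)))
      (fun j => Real.sqrt ((n.choose j : ℝ) * p ^ j * (1 - p) ^ (n - j)) * al j 1)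
    have e1 : ∑ j ∈ range (n + 1), Real.sqrt ((n.choose j : ℝ) * p ^ j * (1 - p) ^ (n - j)) *
        (Real.sqrt ((n.choose j : ℝ) * p ^ j * (1 - p) ^ (n - j)) * al j 1) = bl p n 1 := by
      rw [bl]
      refine Finset.sum_congr rfl fun j _ => ?_
      rw [← mul_assoc, Real.mul_self_sqrt (hw j)]
    have e2 : ∑ j ∈ range (n + 1), Real.sqrt ((n.choose j : ℝ) * p ^ j * (1 - p) ^ (n - j)) ^ 2 = 1 := by
      refine Eq.trans ?_ hs
      exact Finset.sum_congr rfl fun j _ => Real.sq_sqrt (hw j)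
    have e3 : ∑ j ∈ range (n + 1), (Real.sqrt ((n.choose j : ℝ) * p ^ j * (1 - p) ^ (n - j)) *
        al j 1) ^ 2 = ∑ j ∈ range (n + 1), (n.choose j : ℝ) * p ^ j * (1 - p) ^ (n - j) *
        (al j 1) ^ 2 := by
      refine Finset.sum_congr rfl fun j _ => ?_
      rw [mul_pow, Real.sq_sqrt (hw j)]
    rw [e1, e2, e3, one_mul] at h5
    exact h5
  refine h2.trans ((Finset.sum_le_sum fun j _ => ?_).trans (sum_inv h0 h1 n))
  refine mul_le_mul_of_nonneg_left ?_ (hw j)
  have h3 := al_one_le j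
  have h4 := (al_mem j 1).1
  have h5 : (0 : ℝ) < (j : ℝ) + 1 := by positivity
  calc al j 1 ^ 2 ≤ (1 / Real.sqrt (j + 1)) ^ 2 := pow_le_pow_left₀ h4 h3 2
    _ = 1 / ((j : ℝ) + 1) := by rw [div_pow, one_pow, Real.sq_sqrt h5.le]

variable {k : Type} [Field k] {ι : Type} [Fintype ι] [DecidableEq ι]

/-- The sum of the matrix units `e_{i₀} ↦ e_{i₁}` over the `n` places. -/
def En (k : Type) [Field k] {ι : Type} [Fintype ι] [DecidableEq ι] (i₀ i₁ : ι) (n : ℕ) :
    End k ((Fin n → ι) → k) where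
  toFun f := fun I => ∑ p, if I p = i₁ then f (Function.update I p i₀) else 0
  map_add' f g := by
    funext I
    simp only [Pi.add_apply, ← Finset.sum_add_distrib]
    exact Finset.sum_congr rfl fun p _ => by split_ifs <;> simp
  map_smul' c f := by
    funext I
    simp only [Pi.smul_apply, smul_eq_mul, Finset.mul_sum, RingHom.id_apply]
    exact Finset.sum_congr rfl fun p _ => by split_ifs <;> simp

theorem En_apply (i₀ i₁ : ι) (n : ℕ) (f : (Fin n → ι) → k) (I : Fin n → ι) :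
    En k i₀ i₁ n f I = ∑ p, if I p = i₁ then f (Function.update I p i₀) else 0 := rfl

/-- functions of the first variable and the others -/
def cur (k : Type) [Field k] (ι : Type) (n : ℕ) : ((Fin (n + 1) → ι) → k) ≃ₗ[k] (ι → ((Fin n → ι) → k)) where
  toFun f := fun i I => f (Fin.cons i I)
  map_add' _ _ := rfl
  map_smul' _ _ := rfl
  invFun g := fun I => g (I 0) (Fin.tail I)
  left_inv f := by
    funext I
    show f (Fin.cons (I 0) (Fin.tail I)) = f I
    rw [Fin.cons_self_tail]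
  right_inv g := by
    funext i I
    show g ((Fin.cons i I : Fin (n + 1) → ι) 0) (Fin.tail (Fin.cons i I : Fin (n + 1) → ι)) = g i I
    rw [Fin.cons_zero, Fin.tail_cons]

theorem cur_En (i₀ i₁ : ι) (n : ℕ) (f : (Fin (n + 1) → ι) → k) :
    cur k ι n (En k i₀ i₁ (n + 1) f) = opE (En k i₀ i₁ n) i₀ i₁ (cur k ι n f) := by
  funext i I
  rw [opE_apply, Pi.add_apply]
  show En k i₀ i₁ (n + 1) f (Fin.cons i I) = _
  rw [En_apply, Fin.sum_univ_succ, En_apply, add_comm]
  congr 1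
  · refine Finset.sum_congr rfl fun p _ => ?_
    rw [Fin.cons_succ]
    split_ifs with h
    · show f _ = f (Fin.cons i _)
      rw [Fin.cons_update]
    · rfl
  · rw [Fin.cons_zero]
    split_ifs with h
    · show f _ = f (Fin.cons i₀ I)
      rw [Fin.update_cons_zero]
    · rfl

theorem kp_En [CharZero k] {i₀ i₁ : ι} (h01 : i₀ ≠ i₁) (n : ℕ) : ∀ m,
    (kp (En k i₀ i₁ n) m : ℝ) ≤ (Fintype.card ι : ℝ) ^ n * bl (2 / Fintype.card ι) n m := by
  have hc : 2 ≤ Fintype.card ι := by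
    have : 1 < Fintype.card ι := Fintype.one_lt_card_iff.2 ⟨i₀, i₁, h01⟩
    omega
  have hr : (2 : ℝ) ≤ Fintype.card ι := by exact_mod_cast hc
  have hr0 : (Fintype.card ι : ℝ) ≠ 0 := by positivity
  induction n with
  | zero =>
    intro m
    cases m with
    | zero => rw [kp_zero, bl_zero_right]; simp
    | succ m =>
      rw [bl_zero_left, pow_zero, one_mul]
      have h1 : kp (En k i₀ i₁ 0) (m + 1) ≤ finrank k ((Fin 0 → ι) → k) := Submodule.finrank_le _
      rw [Module.finrank_fintype_fun_eq_card, Fintype.card_unique] at h1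
      exact_mod_cast h1
  | succ n ih =>
    intro m
    cases m with
    | zero => rw [kp_zero, bl_zero_right]; simp
    | succ m =>
      have h1 := kp_congr (cur k ι n) (cur_En (k := k) i₀ i₁ n) (m + 1)
      have h2 := kp_rec (En k i₀ i₁ n) h01 m (Nat.cast_ne_zero.2 (Nat.succ_ne_zero m))
      rw [← h1] at h2
      have h3 : (kp (En k i₀ i₁ (n + 1)) (m + 1) : ℝ) + 2 * kp (En k i₀ i₁ n) (m + 1) ≤
          kp (En k i₀ i₁ n) m + kp (En k i₀ i₁ n) (m + 2) +
            Fintype.card ι * kp (En k i₀ i₁ n) (m + 1) := by exact_mod_cast h2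
      have h4 := ih m
      have h5 := ih (m + 2)
      have h6 := ih (m + 1)
      rw [bl_succ, pow_succ]
      set r : ℝ := (Fintype.card ι : ℝ) with hrdef
      have e1 : r ^ n * r * (2 / r * ((bl (2 / r) n m + bl (2 / r) n (m + 2)) / 2) +
          (1 - 2 / r) * bl (2 / r) n (m + 1)) = r ^ n * bl (2 / r) n m + r ^ n * bl (2 / r) n (m + 2) +
          (r - 2) * (r ^ n * bl (2 / r) n (m + 1)) := by
        field_simp
      rw [e1]
      have h7 : (r - 2) * (kp (En k i₀ i₁ n) (m + 1) : ℝ) ≤ (r - 2) * (r ^ n * bl (2 / r) n (m + 1)) :=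
        mul_le_mul_of_nonneg_left h6 (by linarith)
      nlinarith

/-- The kernel is small. -/
theorem kp_En_one [CharZero k] {i₀ i₁ : ι} (h01 : i₀ ≠ i₁) (n : ℕ) :
    (kp (En k i₀ i₁ n) 1 : ℝ) ≤ (Fintype.card ι : ℝ) ^ n * Real.sqrt (Fintype.card ι / (2 * (n + 1))) := by
  have hc : 2 ≤ Fintype.card ι := by
    have : 1 < Fintype.card ι := Fintype.one_lt_card_iff.2 ⟨i₀, i₁, h01⟩
    omega
  have hr : (2 : ℝ) ≤ Fintype.card ι := by exact_mod_cast hc
  refine (kp_En h01 n 1).trans (mul_le_mul_of_nonneg_left ?_ (by positivity))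
  have h1 := bl_one_le (p := 2 / (Fintype.card ι : ℝ)) (by positivity)
    ((div_le_one (by linarith)).2 hr) n
  refine h1.trans (le_of_eq ?_)
  congr 1
  have : (Fintype.card ι : ℝ) ≠ 0 := by positivity
  field_simp

end Pool.Agent.D0H93.PC
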